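import Pool.Agent.Helper71.TfExotic

/-!
# The Galois coniveau filtration of abelian threefolds over finite fields

`V` is the first cohomology of an abelian threefold `A` over `𝔽_q` (`q = p ^ a`) with its
Frobenius `F` (coefficients extended to `ℂ`); the cohomology of `A` is the exterior algebra
of `V`.
-/

set_option autoImplicit false

namespace Pool.Agent.Results.MP_8abef2_ag.AbelianThreefolds

open Module Polynomial

section Defs

variable {W : Type*} [AddCommGroup W] [Module ℂ W]

/-- `M ⊆ Λⁱ W` is a subrepresentation such that `M(ν)` is effective of weight `i - 2ν`: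
`M` is stable under the algebra map induced by `Φ`, and for every eigenvalue `β` of it on
`M` both `β / q ^ ν` and `q ^ (i - ν) / β = q ^ (i - 2ν) / (β / q ^ ν)` are algebraic
integers. -/
structure IsEffective (q : ℕ) (Φ : W →ₗ[ℂ] W) (i ν : ℕ)
    (M : Submodule ℂ (ExteriorAlgebra ℂ W)) : Prop where
  le : M ≤ ⋀[ℂ]^i W
  stable : ∀ x ∈ M, ExteriorAlgebra.map Φ x ∈ M
  integral : ∀ x ∈ M, x ≠ 0 → ∀ β : ℂ, ExteriorAlgebra.map Φ x = β • x →
    IsIntegral ℤ (β / (q : ℂ) ^ ν) ∧ IsIntegral ℤ ((q : ℂ) ^ (i - ν) / β)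

/-- The Galois coniveau: the span of all subrepresentations `M` of `Λⁱ W` such that `M(ν)` is
effective of weight `i - 2ν`. -/
noncomputable def galoisConiveau (q : ℕ) (Φ : W →ₗ[ℂ] W) (i ν : ℕ) :
    Submodule ℂ (ExteriorAlgebra ℂ W) :=
  sSup {M | IsEffective q Φ i ν M}

/-- A Tate class of degree two: for some `m > 0` the `m`-th power of the Frobenius
multiplies it by `q ^ m`. -/
def IsDivisorClass (q : ℕ) (Φ : Module.End ℂ W) (d : ExteriorAlgebra ℂ W) : Prop :=
  d ∈ ⋀[ℂ]^2 W ∧ ∃ m : ℕ, 0 < m ∧ ExteriorAlgebra.map (Φ ^ m) d = (q : ℂ) ^ m • d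

/-- The span of all products `d₁ ⋯ d_ν w` with divisor classes `d_k` and
`w ∈ Λ^(i-2ν) W`. -/
noncomputable def divisorConiveau (q : ℕ) (Φ : Module.End ℂ W) (i ν : ℕ) :
    Submodule ℂ (ExteriorAlgebra ℂ W) :=
  Submodule.span ℂ {x | ∃ (d : Fin ν → ExteriorAlgebra ℂ W) (w : ExteriorAlgebra ℂ W),
    (∀ k, IsDivisorClass q Φ (d k)) ∧ w ∈ ⋀[ℂ]^(i - 2 * ν) W ∧ x = (List.ofFn d).prod * w}

end Defs

section Exotic

variable {W : Type*} [AddCommGroup W] [Module ℂ W]

/-- The classes in `Λ³ W` killed by `F² - t q F + q³`, where `F` is the Frobenius on `Λ³ W`: the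
part of `H³` on which Frobenius acts like `q` times the Frobenius of an elliptic curve over
`𝔽_q` of trace `t`, with characteristic polynomial `T² - t T + q`. -/
noncomputable def ellipticPart (q : ℕ) (Φ : Module.End ℂ W) (t : ℤ) :
    Submodule ℂ (ExteriorAlgebra ℂ W) :=
  ⋀[ℂ]^3 W ⊓ LinearMap.ker ((ExteriorAlgebra.map Φ).toLinearMap ∘ₗ
    (ExteriorAlgebra.map Φ).toLinearMap - ((t : ℂ) * q) • (ExteriorAlgebra.map Φ).toLinearMap +
    (q : ℂ) ^ 3 • LinearMap.id)

end Exotic

/-! ### Eigenbases -/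

section Basis

variable {W : Type*} [AddCommGroup W] [Module ℂ W] {I : Type*} [LinearOrder I]
  (b : Basis I ℂ W)

lemma basis_mem (s : Finset I) : b.ExteriorAlgebra s ∈ ⋀[ℂ]^s.card W := by
  have h := ExteriorAlgebra.basis_eq_coe_basis b (Set.powersetCard.ofCard (rfl : s.card = s.card))
  have h2 : (Set.powersetCard.ofCard (rfl : s.card = s.card)).val = s := rfl
  rw [h2] at h
  rw [h]
  exact Subtype.property _

lemma map_basis (Φ : W →ₗ[ℂ] W) (lam : I → ℂ) (hb : ∀ i, Φ (b i) = lam i • b i)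
    (s : Finset I) :
    ExteriorAlgebra.map Φ (b.ExteriorAlgebra s) = (∏ i ∈ s, lam i) • b.ExteriorAlgebra s := by
  rw [ExteriorAlgebra.basis_apply_ofCard b (rfl : s.card = s.card)]
  unfold ExteriorAlgebra.ιMulti_family
  rw [ExteriorAlgebra.map_apply_ιMulti]
  have h1 : (⇑Φ ∘ ⇑b ∘ ⇑(Set.powersetCard.ofFinEmbEquiv.symm (Set.powersetCard.ofCard
      (rfl : s.card = s.card)))) =
      fun j => lam (Set.powersetCard.ofFinEmbEquiv.symm (Set.powersetCard.ofCard
      (rfl : s.card = s.card)) j) • (⇑b ∘ ⇑(Set.powersetCard.ofFinEmbEquiv.symm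
      (Set.powersetCard.ofCard (rfl : s.card = s.card)))) j := by
    funext j
    simp [hb]
  rw [h1]
  have h2 := (ExteriorAlgebra.ιMulti ℂ s.card (M := W)).toMultilinearMap.map_smul_univ
    (fun j => lam (Set.powersetCard.ofFinEmbEquiv.symm (Set.powersetCard.ofCard
      (rfl : s.card = s.card)) j)) (⇑b ∘ ⇑(Set.powersetCard.ofFinEmbEquiv.symm
      (Set.powersetCard.ofCard (rfl : s.card = s.card))))
  simp only [AlternatingMap.coe_multilinearMap] at h2
  rw [h2]
  congr 1
  have h3 := Finset.prod_map (Finset.univ : Finset (Fin s.card)) (s.orderEmbOfFin rfl).toEmbedding lam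
  rw [Finset.map_orderEmbOfFin_univ] at h3
  rw [h3]
  rfl

lemma mem_span_of_mem_pow {i : ℕ} {w : ExteriorAlgebra ℂ W} (hw : w ∈ ⋀[ℂ]^i W) :
    w ∈ Submodule.span ℂ (b.ExteriorAlgebra '' {s | s.card = i}) := by
  have h1 : (⟨w, hw⟩ : ⋀[ℂ]^i W) ∈ Submodule.span ℂ (Set.range (b.exteriorPower i)) := by
    rw [(b.exteriorPower i).span_eq]; trivial
  have h2 := Submodule.mem_map_of_mem (f := (⋀[ℂ]^i W).subtype) h1
  rw [Submodule.map_span, ← Set.range_comp] at h2
  refine Submodule.span_mono ?_ h2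
  rintro _ ⟨s, rfl⟩
  exact ⟨s.val, s.prop, ExteriorAlgebra.basis_eq_coe_basis b s⟩

lemma repr_map (Φ : W →ₗ[ℂ] W) (lam : I → ℂ) (hb : ∀ i, Φ (b i) = lam i • b i)
    (w : ExteriorAlgebra ℂ W) (s : Finset I) :
    b.ExteriorAlgebra.repr (ExteriorAlgebra.map Φ w) s =
      (∏ i ∈ s, lam i) * b.ExteriorAlgebra.repr w s := by
  have h : (b.ExteriorAlgebra.coord s).comp (ExteriorAlgebra.map Φ).toLinearMap =
      (∏ i ∈ s, lam i) • b.ExteriorAlgebra.coord s := by
    refine b.ExteriorAlgebra.ext fun t => ?_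
    simp only [LinearMap.comp_apply, AlgHom.toLinearMap_apply, map_basis b Φ lam hb, map_smul,
      LinearMap.smul_apply, Basis.coord_apply, Basis.repr_self, smul_eq_mul]
    by_cases hst : t = s
    · rw [hst]
    · rw [Finsupp.single_eq_of_ne (Ne.symm hst)]; simp
  have h2 := LinearMap.congr_fun h w
  simpa using h2

/-- Eigenvectors of degree `i` are combinations of basis monomials of degree `i` with the same
eigenvalue. -/
lemma eigen_mem (Φ : W →ₗ[ℂ] W) (lam : I → ℂ) (hb : ∀ i, Φ (b i) = lam i • b i)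
    {i : ℕ} {w : ExteriorAlgebra ℂ W} (hw : w ∈ ⋀[ℂ]^i W) {β : ℂ}
    (hβ : ExteriorAlgebra.map Φ w = β • w) :
    w ∈ Submodule.span ℂ (b.ExteriorAlgebra '' {s | s.card = i ∧ ∏ j ∈ s, lam j = β}) := by
  rw [Basis.mem_span_image]
  intro s hs
  have hs' : b.ExteriorAlgebra.repr w s ≠ 0 := by simpa using hs
  constructor
  · have h1 := mem_span_of_mem_pow b hw
    rw [Basis.mem_span_image] at h1
    exact h1 hs
  · have h1 := repr_map b Φ lam hb w s
    rw [hβ] at h1
    simp only [map_smul, Finsupp.smul_apply, smul_eq_mul] at h1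
    exact (mul_right_cancel₀ hs' h1).symm

lemma basis_mul (s t : Finset I) (h : Disjoint s t) :
    ∃ c : ℂ, c ≠ 0 ∧ b.ExteriorAlgebra s * b.ExteriorAlgebra t = c • b.ExteriorAlgebra (s ∪ t) := by
  have h1 := ExteriorAlgebra.basis_mul_of_disjoint b
    (Set.powersetCard.ofCard (rfl : s.card = s.card))
    (Set.powersetCard.ofCard (rfl : t.card = t.card)) h
  have h2 : (Set.powersetCard.ofCard (rfl : s.card = s.card)).val = s := rfl
  have h3 : (Set.powersetCard.ofCard (rfl : t.card = t.card)).val = t := rfl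
  rw [h2, h3] at h1
  have h4 : (Set.powersetCard.disjUnion (s := Set.powersetCard.ofCard (rfl : s.card = s.card))
      (t := Set.powersetCard.ofCard (rfl : t.card = t.card)) h).val = s ∪ t := by
    ext x
    simp [Set.powersetCard.disjUnion, Set.powersetCard.ofCard]
  rw [h4] at h1
  rcases Int.units_eq_one_or (Set.powersetCard.permOfDisjoint
      (s := Set.powersetCard.ofCard (rfl : s.card = s.card))
      (t := Set.powersetCard.ofCard (rfl : t.card = t.card)) h).sign with h5 | h5
  · rw [h5] at h1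
    exact ⟨1, one_ne_zero, by simpa using h1⟩
  · rw [h5] at h1
    exact ⟨-1, by norm_num, by simpa using h1⟩

lemma basis_mul_zero (s t : Finset I) (h : ¬ Disjoint s t) :
    b.ExteriorAlgebra s * b.ExteriorAlgebra t = 0 := by
  have h1 := ExteriorAlgebra.basis_mul_of_not_disjoint b
    (Set.powersetCard.ofCard (rfl : s.card = s.card))
    (Set.powersetCard.ofCard (rfl : t.card = t.card)) h
  exact h1

end Basis

/-! ### Matchings -/

section Match

variable {W : Type*} [AddCommGroup W] [Module ℂ W] {I : Type*} [LinearOrder I]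
  (b : Basis I ℂ W)

/-- `i`, `j` are the indices of eigenvectors whose product is a divisor class. -/
def Pair (q : ℕ) (lam : I → ℂ) (i j : I) : Prop :=
  i ≠ j ∧ ∃ m : ℕ, 0 < m ∧ (lam i * lam j) ^ m = (q : ℂ) ^ m

/-- `s` contains `ν` disjoint pairs. -/
def Match (q : ℕ) (lam : I → ℂ) : ℕ → Finset I → Prop
  | 0, _ => True
  | ν + 1, s => ∃ i ∈ s, ∃ j ∈ s, Pair q lam i j ∧ Match q lam ν (s \ {i, j})

lemma match_union {q : ℕ} {lam : I → ℂ} {ν : ℕ} {s : Finset I} (hs : Match q lam ν s)
    {i j : I} (hij : Pair q lam i j) (hd : Disjoint {i, j} s) :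
    Match q lam (ν + 1) ({i, j} ∪ s) := by
  refine ⟨i, by simp, j, by simp, hij, ?_⟩
  have : ({i, j} ∪ s) \ {i, j} = s := by
    rw [Finset.union_sdiff_left]
    exact Finset.sdiff_eq_self_of_disjoint hd.symm
  rw [this]
  exact hs

lemma prod_split {lam : I → ℂ} {s : Finset I} {i j : I} (hi : i ∈ s) (hj : j ∈ s)
    (hij : i ≠ j) : ∏ k ∈ s, lam k = lam i * lam j * ∏ k ∈ s \ {i, j}, lam k := by
  have h1 : {i, j} ⊆ s := by
    intro x hx
    simp only [Finset.mem_insert, Finset.mem_singleton] at hx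
    rcases hx with rfl | rfl
    · exact hi
    · exact hj
  rw [← Finset.prod_sdiff h1, Finset.prod_pair hij]
  ring

/-- monomials with `ν` disjoint pairs lie in the divisor coniveau -/
lemma mul_mem_div {q : ℕ} {Φ : Module.End ℂ W} {i ν : ℕ} {d x : ExteriorAlgebra ℂ W}
    (hd : IsDivisorClass q Φ d)
    (hx : x ∈ divisorConiveau q Φ i ν) : d * x ∈ divisorConiveau q Φ (i + 2) (ν + 1) := by
  unfold divisorConiveau at hx
  induction hx using Submodule.span_induction with
  | mem x hx =>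
    obtain ⟨ds, w, hds, hw, rfl⟩ := hx
    refine Submodule.subset_span ⟨Fin.cons d ds, w, ?_, ?_, ?_⟩
    · intro k
      refine Fin.cases ?_ ?_ k
      · exact hd
      · intro k
        simpa using hds k
    · have : i + 2 - 2 * (ν + 1) = i - 2 * ν := by omega
      rw [this]; exact hw
    · rw [List.ofFn_succ, List.prod_cons]
      simp [mul_assoc]
  | zero => rw [mul_zero]; exact Submodule.zero_mem _
  | add x y _ _ hx hy => rw [mul_add]; exact Submodule.add_mem _ hx hy
  | smul c x _ hx => rw [mul_smul_comm]; exact Submodule.smul_mem _ c hx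

omit [LinearOrder I] in
lemma pow_apply_basis {Φ : Module.End ℂ W} {lam : I → ℂ} (hb : ∀ i, Φ (b i) = lam i • b i)
    (m : ℕ) (i : I) : (Φ ^ m) (b i) = lam i ^ m • b i := by
  induction m with
  | zero => simp
  | succ m ih => rw [pow_succ', Module.End.mul_apply, ih, map_smul, hb, smul_smul, ← pow_succ]

lemma pair_isDivisorClass {q : ℕ} {Φ : Module.End ℂ W} {lam : I → ℂ}
    (hb : ∀ i, Φ (b i) = lam i • b i) {i j : I} (hij : Pair q lam i j) :
    IsDivisorClass q Φ (b.ExteriorAlgebra {i, j}) := by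
  obtain ⟨hne, m, hm, hpow⟩ := hij
  refine ⟨?_, m, hm, ?_⟩
  · have := basis_mem b {i, j}
    rwa [Finset.card_pair hne] at this
  · rw [map_basis b (Φ ^ m) (fun i => lam i ^ m) (fun i => pow_apply_basis b hb m i),
      Finset.prod_pair hne, ← mul_pow, hpow]

lemma match_mem_div {q : ℕ} {Φ : Module.End ℂ W} {lam : I → ℂ}
    (hb : ∀ i, Φ (b i) = lam i • b i) (ν : ℕ) :
    ∀ s : Finset I, Match q lam ν s → b.ExteriorAlgebra s ∈ divisorConiveau q Φ s.card ν := by
  induction ν with
  | zero =>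
    intro s _
    refine Submodule.subset_span ⟨Fin.elim0, b.ExteriorAlgebra s, fun k => k.elim0, ?_, ?_⟩
    · simpa using basis_mem b s
    · simp
  | succ ν ih =>
    rintro s ⟨i, hi, j, hj, hij, hm⟩
    have hsub : {i, j} ⊆ s := by
      intro x hx
      simp only [Finset.mem_insert, Finset.mem_singleton] at hx
      rcases hx with rfl | rfl
      · exact hi
      · exact hj
    have hcard : (s \ {i, j}).card + 2 = s.card := by
      have := Finset.card_sdiff_add_card_eq_card hsub
      rwa [Finset.card_pair hij.1] at this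
    have h1 := mul_mem_div (pair_isDivisorClass b hb hij) (ih _ hm)
    rw [hcard] at h1
    obtain ⟨c, hc, h2⟩ := basis_mul b {i, j} (s \ {i, j}) Finset.disjoint_sdiff
    rw [h2, Finset.union_sdiff_of_subset hsub] at h1
    have h3 := Submodule.smul_mem _ c⁻¹ h1
    rwa [smul_smul, inv_mul_cancel₀ hc, one_smul] at h3

/-- the divisor coniveau is spanned by monomials with `ν` disjoint pairs -/
lemma div_le_match {q : ℕ} {Φ : Module.End ℂ W} {lam : I → ℂ}
    (hb : ∀ i, Φ (b i) = lam i • b i) (i ν : ℕ) (h2 : 2 * ν ≤ i) :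
    divisorConiveau q Φ i ν ≤
      Submodule.span ℂ (b.ExteriorAlgebra '' {s | s.card = i ∧ Match q lam ν s}) := by
  have hmul : ∀ (i ν : ℕ) (d x : ExteriorAlgebra ℂ W), IsDivisorClass q Φ d →
      x ∈ Submodule.span ℂ (b.ExteriorAlgebra '' {s | s.card = i ∧ Match q lam ν s}) →
      d * x ∈ Submodule.span ℂ
        (b.ExteriorAlgebra '' {s | s.card = i + 2 ∧ Match q lam (ν + 1) s}) := by
    intro i ν d x hd hx
    obtain ⟨hd2, m, hm, hdm⟩ := hd
    have hd3 := eigen_mem b (Φ ^ m) (fun i => lam i ^ m) (fun i => pow_apply_basis b hb m i)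
      hd2 hdm
    clear hd2 hdm
    induction hd3 using Submodule.span_induction with
    | mem d hd =>
      obtain ⟨t, ⟨ht, htm⟩, rfl⟩ := hd
      obtain ⟨a, c, hac, rfl⟩ := Finset.card_eq_two.1 ht
      have hp : Pair q lam a c := by
        refine ⟨hac, m, hm, ?_⟩
        rw [Finset.prod_pair hac, ← mul_pow] at htm
        exact htm
      induction hx using Submodule.span_induction with
      | mem x hx =>
        obtain ⟨s, ⟨hs, hsm⟩, rfl⟩ := hx
        by_cases hdis : Disjoint {a, c} s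
        · obtain ⟨e, he, h3⟩ := basis_mul b {a, c} s hdis
          rw [h3]
          refine Submodule.smul_mem _ _ (Submodule.subset_span ⟨_, ⟨?_, ?_⟩, rfl⟩)
          · rw [Finset.card_union_of_disjoint hdis, ht, hs, add_comm]
          · exact match_union hsm hp hdis
        · rw [basis_mul_zero b _ _ hdis]
          exact Submodule.zero_mem _
      | zero => rw [mul_zero]; exact Submodule.zero_mem _
      | add x y _ _ hx hy => rw [mul_add]; exact Submodule.add_mem _ hx hy
      | smul c x _ hx => rw [mul_smul_comm]; exact Submodule.smul_mem _ c hx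
    | zero => rw [zero_mul]; exact Submodule.zero_mem _
    | add x y _ _ hx hy => rw [add_mul]; exact Submodule.add_mem _ hx hy
    | smul c x _ hx => rw [smul_mul_assoc]; exact Submodule.smul_mem _ c hx
  refine Submodule.span_le.2 ?_
  rintro _ ⟨d, w, hd, hw, rfl⟩
  obtain ⟨k, rfl⟩ : ∃ k, i = k + 2 * ν := ⟨i - 2 * ν, by omega⟩
  rw [Nat.add_sub_cancel] at hw
  clear h2
  have hw2 : w ∈ Submodule.span ℂ (b.ExteriorAlgebra '' {s | s.card = k ∧ Match q lam 0 s}) := by
    refine Submodule.span_mono ?_ (mem_span_of_mem_pow b hw)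
    rintro _ ⟨s, hs, rfl⟩
    exact ⟨s, ⟨hs, trivial⟩, rfl⟩
  induction ν with
  | zero => simpa using hw2
  | succ ν ih =>
    rw [List.ofFn_succ, List.prod_cons, mul_assoc]
    have h3 := hmul (k + 2 * ν) ν (d 0) _ (hd 0) (ih (fun k => d k.succ) (fun k => hd k.succ))
    have h4 : k + 2 * (ν + 1) = k + 2 * ν + 2 := by ring
    rw [h4]
    exact h3

end Match

/-! ### Arithmetic -/

section Arith

lemma pow_quot {I : Type*} [LinearOrder I] {q : ℕ} (hq : (q : ℂ) ≠ 0) {lam : I → ℂ} {ν : ℕ}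
    {s : Finset I} {i j : I} (hi : i ∈ s) (hj : j ∈ s) (hij : i ≠ j) {m : ℕ}
    (hm : (lam i * lam j) ^ m = (q : ℂ) ^ m) :
    ((∏ k ∈ s, lam k) / (q : ℂ) ^ (ν + 1)) ^ m =
      ((∏ k ∈ s \ {i, j}, lam k) / (q : ℂ) ^ ν) ^ m := by
  rw [prod_split hi hj hij, div_pow, div_pow, mul_pow, hm]
  field_simp
  ring

lemma integral_of_match {I : Type*} [LinearOrder I] {q : ℕ} (hq : (q : ℂ) ≠ 0) (lam : I → ℂ)
    (hlam : ∀ i, IsIntegral ℤ (lam i)) (ν : ℕ) : ∀ s : Finset I, Match q lam ν s →
      IsIntegral ℤ ((∏ i ∈ s, lam i) / (q : ℂ) ^ ν) := by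
  induction ν with
  | zero =>
    intro s _
    rw [pow_zero, div_one]
    exact IsIntegral.prod _ fun i _ => hlam i
  | succ ν ih =>
    rintro s ⟨i, hi, j, hj, ⟨hne, m, hm, hmq⟩, hM⟩
    refine IsIntegral.of_pow hm ?_
    rw [pow_quot hq hi hj hne hmq]
    exact (ih _ hM).pow m

lemma dual_eq {I : Type*} {q : ℕ} (hq : (q : ℂ) ≠ 0) {lam : I → ℂ}
    (hlam : ∀ i, lam i * (starRingEnd ℂ) (lam i) = q) {ν : ℕ} {s : Finset I}
    (hν : ν ≤ s.card) :
    (q : ℂ) ^ (s.card - ν) / (∏ i ∈ s, lam i) =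
      (starRingEnd ℂ) ((∏ i ∈ s, lam i) / (q : ℂ) ^ ν) := by
  have h1 : (∏ i ∈ s, lam i) * (starRingEnd ℂ) (∏ i ∈ s, lam i) = (q : ℂ) ^ s.card := by
    rw [map_prod, ← Finset.prod_mul_distrib, Finset.prod_congr rfl (fun i _ => hlam i),
      Finset.prod_const]
  have h0 : (∏ i ∈ s, lam i) ≠ 0 := by
    intro h
    rw [h, zero_mul] at h1
    exact pow_ne_zero _ hq h1.symm
  have h2 : (starRingEnd ℂ) ((q : ℂ) ^ ν) = (q : ℂ) ^ ν := by simp
  rw [map_div₀, h2, div_eq_div_iff h0 (pow_ne_zero _ hq), ← pow_add, Nat.sub_add_cancel hν,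
    ← h1]
  ring

lemma integral_conj {z : ℂ} (hz : IsIntegral ℤ z) : IsIntegral ℤ ((starRingEnd ℂ) z) :=
  hz.map (starRingEnd ℂ).toIntAlgHom

end Arith

section Galois

variable {W : Type*} [AddCommGroup W] [Module ℂ W] {I : Type*} [LinearOrder I] [Finite I]
  (b : Basis I ℂ W)

lemma galois_eq {q : ℕ} (hq : (q : ℂ) ≠ 0) {Φ : Module.End ℂ W} {lam : I → ℂ}
    (hb : ∀ i, Φ (b i) = lam i • b i)
    (hlam : ∀ i, lam i * (starRingEnd ℂ) (lam i) = q) (i ν : ℕ) (hν : 2 * ν ≤ i) :
    galoisConiveau q Φ i ν = Submodule.span ℂ (b.ExteriorAlgebra ''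
      {s | s.card = i ∧ IsIntegral ℤ ((∏ j ∈ s, lam j) / (q : ℂ) ^ ν)}) := by
  classical
  have : Fintype I := Fintype.ofFinite I
  have hfin : FiniteDimensional ℂ (ExteriorAlgebra ℂ W) :=
    Module.Finite.of_basis b.ExteriorAlgebra
  apply le_antisymm
  · refine sSup_le fun M hM => ?_
    let f : Module.End ℂ (ExteriorAlgebra ℂ W) := (ExteriorAlgebra.map Φ).toLinearMap
    have hf : ∀ x ∈ M, f x ∈ M := hM.stable
    have htop : ⨆ μ, f.genEigenspace μ 1 = ⊤ := by
      rw [eq_top_iff, ← b.ExteriorAlgebra.span_eq]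
      refine Submodule.span_le.2 ?_
      rintro _ ⟨s, rfl⟩
      refine Submodule.mem_iSup_of_mem (∏ j ∈ s, lam j) ?_
      rw [Module.End.mem_genEigenspace_one]
      exact map_basis b Φ lam hb s
    rw [Submodule.eq_iSup_inf_genEigenspace 1 hf htop]
    refine iSup_le fun μ => ?_
    rintro x ⟨hxM, hxμ⟩
    rcases eq_or_ne x 0 with rfl | hx0
    · exact Submodule.zero_mem _
    have hx2 : ExteriorAlgebra.map Φ x = μ • x := Module.End.mem_genEigenspace_one.1 hxμ
    have h3 := (hM.integral x hxM hx0 μ hx2).1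
    refine Submodule.span_mono ?_ (eigen_mem b Φ lam hb (hM.le hxM) hx2)
    rintro _ ⟨s, ⟨hs, hsμ⟩, rfl⟩
    exact ⟨s, ⟨hs, by rw [hsμ]; exact h3⟩, rfl⟩
  · refine Submodule.span_le.2 ?_
    rintro _ ⟨s, ⟨hs, hint⟩, rfl⟩
    subst hs
    refine Submodule.mem_sSup_of_mem (S := {M | IsEffective q Φ s.card ν M})
      (s := Submodule.span ℂ {b.ExteriorAlgebra s}) ?_ (Submodule.mem_span_singleton_self _)
    refine ⟨?_, ?_, ?_⟩
    · rw [Submodule.span_singleton_le_iff_mem]
      exact basis_mem b s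
    · intro x hx
      obtain ⟨c, rfl⟩ := Submodule.mem_span_singleton.1 hx
      rw [map_smul, map_basis b Φ lam hb, smul_comm]
      exact Submodule.smul_mem _ _ hx
    · intro x hx hx0 β hβ
      obtain ⟨c, rfl⟩ := Submodule.mem_span_singleton.1 hx
      rw [map_smul, map_basis b Φ lam hb, smul_comm] at hβ
      have h1 : (∏ i ∈ s, lam i) = β := smul_left_injective ℂ hx0 hβ
      rw [← h1]
      refine ⟨hint, ?_⟩
      rw [dual_eq hq hlam (by omega)]
      exact integral_conj hint

end Galois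

/-! ### Combinatorics of the partners -/

section Comb

variable {I : Type*} [LinearOrder I] {q : ℕ} {lam : I → ℂ}

/-- a subset with more than `g` elements of a set of `g` partner pairs contains many pairs -/
lemma match_many (m : I → I) (hm1 : ∀ i, m (m i) = i) (hm2 : ∀ i, m i ≠ i)
    (hpair : ∀ i, Pair q lam i (m i)) (g : ℕ) :
    ∀ U s : Finset I, (∀ i ∈ U, m i ∈ U) → U.card = 2 * g → s ⊆ U →
      Match q lam (s.card - g) s := by
  induction g with
  | zero =>
    intro U s _ hU hs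
    have h1 : U = ∅ := Finset.card_eq_zero.1 (by omega)
    have h2 : s = ∅ := Finset.subset_empty.1 (h1 ▸ hs)
    rw [h2]; trivial
  | succ g ih =>
    intro U s hmU hU hs
    by_cases hcard : s.card ≤ g + 1
    · rw [Nat.sub_eq_zero_of_le hcard]; trivial
    · push Not at hcard
      have hex : ∃ i ∈ s, m i ∈ s := by
        by_contra hcon
        push Not at hcon
        have hinj : Function.Injective m := fun i j h => by rw [← hm1 i, h, hm1]
        have h1 : Disjoint s (s.image m) := by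
          rw [Finset.disjoint_left]
          intro x hx hx2
          obtain ⟨y, hy, rfl⟩ := Finset.mem_image.1 hx2
          exact hcon y hy hx
        have h2 : s ∪ s.image m ⊆ U := by
          refine Finset.union_subset hs ?_
          intro x hx
          obtain ⟨y, hy, rfl⟩ := Finset.mem_image.1 hx
          exact hmU y (hs hy)
        have h3 := Finset.card_le_card h2
        rw [Finset.card_union_of_disjoint h1, Finset.card_image_of_injective _ hinj, hU] at h3
        omega
      obtain ⟨i, hi, hmi⟩ := hex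
      have hne : i ≠ m i := (hm2 i).symm
      have hsub : {i, m i} ⊆ s := by
        intro x hx
        simp only [Finset.mem_insert, Finset.mem_singleton] at hx
        rcases hx with rfl | rfl
        · exact hi
        · exact hmi
      have hc1 : (s \ {i, m i}).card + 2 = s.card := by
        have := Finset.card_sdiff_add_card_eq_card hsub
        rwa [Finset.card_pair hne] at this
      have hc2 : (U \ {i, m i}).card + 2 = U.card := by
        have := Finset.card_sdiff_add_card_eq_card (hsub.trans hs)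
        rwa [Finset.card_pair hne] at this
      have h4 := ih (U \ {i, m i}) (s \ {i, m i}) (by
        intro j hj
        simp only [Finset.mem_sdiff, Finset.mem_insert, Finset.mem_singleton, not_or] at hj ⊢
        refine ⟨hmU j hj.1, fun h => hj.2.2 ?_, fun h => hj.2.1 ?_⟩
        · rw [← h, hm1]
        · rw [← hm1 j, h, hm1]) (by omega) (Finset.sdiff_subset_sdiff hs (le_refl _))
      have h5 : s.card - (g + 1) = (s \ {i, m i}).card - g + 1 := by omega
      rw [h5]
      exact ⟨i, hi, m i, hmi, hpair i, h4⟩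

lemma match_or [Fintype I] (hI : Fintype.card I = 6) (hq : (q : ℂ) ≠ 0) (m : I → I)
    (hm1 : ∀ i, m (m i) = i) (hm2 : ∀ i, m i ≠ i) (hpair : ∀ i, Pair q lam i (m i))
    (hkron : ∀ i j, i ≠ j → IsIntegral ℤ (lam i * lam j / q) → Pair q lam i j) (ν : ℕ) :
    ∀ s : Finset I, 2 * ν ≤ s.card → IsIntegral ℤ ((∏ i ∈ s, lam i) / (q : ℂ) ^ ν) →
      Match q lam ν s ∨ (s.card = 3 ∧ ν = 1 ∧ ∀ i ∈ s, ∀ j ∈ s, ¬ Pair q lam i j) := by
  induction ν with
  | zero => intro s _ _; left; trivial
  | succ ν ih =>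
    intro s hcard hint
    have hmany := match_many m hm1 hm2 hpair 3 Finset.univ s (fun _ _ => Finset.mem_univ _)
      (by rw [Finset.card_univ, hI]) (Finset.subset_univ _)
    by_cases h : ∀ i ∈ s, ∀ j ∈ s, ¬ Pair q lam i j
    · have h3 : s.card ≤ 3 := by
        by_contra h4
        push Not at h4
        obtain ⟨k, hk⟩ : ∃ k, s.card - 3 = k + 1 := ⟨s.card - 4, by omega⟩
        rw [hk] at hmany
        obtain ⟨i, hi, j, hj, hij, -⟩ := hmany
        exact h i hi j hj hij
      have hν : ν = 0 := by omega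
      subst hν
      rcases Nat.lt_or_ge s.card 3 with h2 | h2
      · exfalso
        have h2' : s.card = 2 := by omega
        obtain ⟨i, j, hij, rfl⟩ := Finset.card_eq_two.1 h2'
        rw [Finset.prod_pair hij, zero_add, pow_one] at hint
        exact h i (by simp) j (by simp) (hkron i j hij hint)
      · right
        exact ⟨by omega, rfl, h⟩
    · push Not at h
      obtain ⟨i, hi, j, hj, hij⟩ := h
      obtain ⟨hne, n, hn, hnq⟩ := hij
      have hsub : {i, j} ⊆ s := by
        intro x hx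
        simp only [Finset.mem_insert, Finset.mem_singleton] at hx
        rcases hx with rfl | rfl
        · exact hi
        · exact hj
      have hc : (s \ {i, j}).card + 2 = s.card := by
        have := Finset.card_sdiff_add_card_eq_card hsub
        rwa [Finset.card_pair hne] at this
      have hint' : IsIntegral ℤ ((∏ k ∈ s \ {i, j}, lam k) / (q : ℂ) ^ ν) := by
        refine IsIntegral.of_pow hn ?_
        rw [← pow_quot hq hi hj hne hnq]
        exact hint.pow n
      left
      rcases ih _ (by omega) hint' with h1 | ⟨h1, h2, -⟩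
      · exact ⟨i, hi, j, hj, ⟨hne, n, hn, hnq⟩, h1⟩
      · have h3 : s.card - 3 = ν + 1 := by omega
        rwa [h3] at hmany

end Comb

section Elliptic

variable {W : Type*} [AddCommGroup W] [Module ℂ W] {I : Type*} [LinearOrder I]
  (b : Basis I ℂ W)

lemma mem_ellipticPart {q : ℕ} {Φ : Module.End ℂ W} {lam : I → ℂ}
    (hb : ∀ i, Φ (b i) = lam i • b i) {t : ℤ} {s : Finset I} (hs : s.card = 3)
    (h : (∏ i ∈ s, lam i) ^ 2 - t * q * (∏ i ∈ s, lam i) + (q : ℂ) ^ 3 = 0) :
    b.ExteriorAlgebra s ∈ ellipticPart q Φ t := by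
  refine ⟨?_, ?_⟩
  · have := basis_mem b s
    rwa [hs] at this
  · rw [SetLike.mem_coe, LinearMap.mem_ker]
    simp only [LinearMap.add_apply, LinearMap.sub_apply, LinearMap.comp_apply,
      LinearMap.smul_apply, AlgHom.toLinearMap_apply, LinearMap.id_apply,
      map_basis b Φ lam hb, map_smul, smul_smul]
    rw [← sub_smul, ← add_smul]
    rw [show (∏ i ∈ s, lam i) * (∏ i ∈ s, lam i) - ↑t * ↑q * ∏ i ∈ s, lam i + (q : ℂ) ^ 3 = 0 by
      rw [← h]; ring]
    rw [zero_smul]

lemma ellipticPart_le {q : ℕ} (hq : (q : ℂ) ≠ 0) {Φ : Module.End ℂ W} {lam : I → ℂ}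
    (hb : ∀ i, Φ (b i) = lam i • b i) (t : ℤ) :
    ellipticPart q Φ t ≤ Submodule.span ℂ (b.ExteriorAlgebra ''
      {s | s.card = 3 ∧ IsIntegral ℤ ((∏ j ∈ s, lam j) / (q : ℂ) ^ 1)}) := by
  rintro x ⟨hx1, hx2⟩
  rw [Basis.mem_span_image]
  intro s hs
  have hs' : b.ExteriorAlgebra.repr x s ≠ 0 := by simpa using hs
  constructor
  · have h1 := mem_span_of_mem_pow b hx1
    rw [Basis.mem_span_image] at h1
    exact h1 hs
  · have hx3 : ExteriorAlgebra.map Φ (ExteriorAlgebra.map Φ x) -
        ((t : ℂ) * q) • ExteriorAlgebra.map Φ x + (q : ℂ) ^ 3 • x = 0 := by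
      have := LinearMap.mem_ker.1 hx2
      simpa using this
    have h1 := congrArg (fun z => b.ExteriorAlgebra.repr z s) hx3
    simp only [map_add, map_sub, map_smul, Finsupp.add_apply, Finsupp.sub_apply,
      Finsupp.smul_apply, repr_map b Φ lam hb, smul_eq_mul, map_zero, Finsupp.zero_apply] at h1
    set μ := ∏ i ∈ s, lam i with hμ
    have h2 : μ ^ 2 - t * q * μ + (q : ℂ) ^ 3 = 0 := by
      have h3 : (μ ^ 2 - t * q * μ + (q : ℂ) ^ 3) * b.ExteriorAlgebra.repr x s = 0 := by
        rw [← h1]; ring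
      exact (mul_eq_zero.1 h3).resolve_right hs'
    change IsIntegral ℤ (μ / (q : ℂ) ^ 1)
    rw [pow_one]
    have h4 : (μ / q) ^ 2 - t * (μ / q) + q = 0 := by
      have : (μ / q) ^ 2 - t * (μ / q) + q = (μ ^ 2 - t * q * μ + (q : ℂ) ^ 3) / q ^ 2 := by
        field_simp
      rw [this, h2, zero_div]
    refine ⟨X ^ 2 - C t * X + C (q : ℤ), ?_, ?_⟩
    · have : (X ^ 2 - C t * X + C (q : ℤ) : ℤ[X]) = X ^ 2 + (- (C t * X) + C (q : ℤ)) := by ring
      rw [this]
      refine Polynomial.monic_X_pow_add ?_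
      refine lt_of_le_of_lt (Polynomial.degree_add_le _ _) ?_
      refine max_lt ?_ ?_
      · rw [Polynomial.degree_neg]
        exact lt_of_le_of_lt (Polynomial.degree_C_mul_X_le _) (by norm_num)
      · exact lt_of_le_of_lt Polynomial.degree_C_le (by norm_num)
    · simp only [Polynomial.eval₂_add, Polynomial.eval₂_sub, Polynomial.eval₂_mul,
        Polynomial.eval₂_pow, Polynomial.eval₂_X, Polynomial.eval₂_C]
      simpa using h4

end Elliptic

section Main

variable {V : Type*} [AddCommGroup V] [Module ℂ V] [FiniteDimensional ℂ V]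

lemma eigenbasis (F : Module.End ℂ V) (hF : F.IsSemisimple) :
    ∃ (d : ℕ) (b : Basis (Fin d) ℂ V) (lam : Fin d → ℂ), ∀ i, F (b i) = lam i • b i := by
  classical
  let D := DirectSum.isInternal_submodule_of_iSupIndep_of_iSup_eq_top
    F.eigenspaces_iSupIndep hF.iSup_eigenspace_eq_top
  let J := (ν : ℂ) × Fin (finrank ℂ (F.eigenspace ν))
  let v : Basis J ℂ V := D.collectedBasis fun μ ↦ finBasis ℂ (F.eigenspace μ)
  have : Fintype J := FiniteDimensional.fintypeBasisIndex v
  let e := Fintype.equivFin J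
  refine ⟨Fintype.card J, v.reindex e, fun i => (e.symm i).1, fun i => ?_⟩
  rw [Basis.reindex_apply]
  exact Module.End.mem_eigenspace_iff.1 (D.collectedBasis_mem _ (e.symm i))

omit [FiniteDimensional ℂ V] in
lemma hasEigenvalue_of_basis (F : Module.End ℂ V) {d : ℕ} (b : Basis (Fin d) ℂ V)
    (lam : Fin d → ℂ) (hb : ∀ i, F (b i) = lam i • b i) (i : Fin d) :
    F.HasEigenvalue (lam i) :=
  Module.End.hasEigenvalue_of_hasEigenvector
    ⟨Module.End.mem_eigenspace_iff.2 (hb i), b.ne_zero i⟩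

lemma charpoly_eigenbasis {d : ℕ} (b : Basis (Fin d) ℂ V) (F : Module.End ℂ V)
    (lam : Fin d → ℂ) (hb : ∀ i, F (b i) = lam i • b i) :
    F.charpoly = ∏ i, (X - C (lam i)) := by
  classical
  have h1 : LinearMap.toMatrix b b F = Matrix.diagonal lam := by
    ext i j
    rw [LinearMap.toMatrix_apply, hb, map_smul, Basis.repr_self, Matrix.diagonal_apply]
    by_cases hij : i = j
    · subst hij; simp
    · rw [if_neg hij]
      simp [Finsupp.single_eq_of_ne hij]
  rw [← LinearMap.charpoly_toMatrix F b, h1, Matrix.charpoly_diagonal]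

end Main

/-- **Theorem.** Let `A` be an abelian threefold over `𝔽_q`, `q = p ^ a`, of `p`-rank at least
two, in terms of `V = H¹(A)`: a complex vector space of dimension six with a semisimple
endomorphism `F`, whose characteristic polynomial `P` has integer coefficients, whose
eigenvalues have absolute value `√q`, and such that `p` does not divide both the coefficients of
`T⁴` and of `T³` in `P`. Then there is an integer `t` with `t² ≤ 4 q` such that the Galois
coniveau `N^ν Hⁱ(A)`, `2 ν ≤ i`, is spanned by the products of `ν` divisor classes with classes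
in `H^(i-2ν)(A)`, except for `i = 3`, `ν = 1`, where it is the sum of that space and of the
kernel of `F² - t q F + q³` on `H³(A)`. -/
theorem result (p a : ℕ) (hp : p.Prime) {V : Type*} [AddCommGroup V] [Module ℂ V]
    [FiniteDimensional ℂ V] (hV : finrank ℂ V = 6) (F : Module.End ℂ V) (hF : F.IsSemisimple)
    (P : ℤ[X]) (hP : F.charpoly = P.map (Int.castRingHom ℂ))
    (hW : ∀ α : ℂ, F.HasEigenvalue α → ‖α‖ ^ 2 = (p : ℝ) ^ a)
    (hrank : ¬ ((p : ℤ) ∣ P.coeff 4 ∧ (p : ℤ) ∣ P.coeff 3)) :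
    ∃ t : ℤ, t ^ 2 ≤ 4 * (p : ℤ) ^ a ∧ ∀ i ν : ℕ, 2 * ν ≤ i →
      galoisConiveau (p ^ a) F i ν = divisorConiveau (p ^ a) F i ν ⊔
        (if i = 3 ∧ ν = 1 then ellipticPart (p ^ a) F t else ⊥) := by
  classical
  obtain ⟨d, b, lam, hb⟩ := eigenbasis F hF
  have hd : d = 6 := by
    have := finrank_eq_card_basis b
    rw [hV, Fintype.card_fin] at this
    exact this.symm
  subst hd
  have hI : Fintype.card (Fin 6) = 6 := by simp
  have hPlam : ∏ i, (X - C (lam i)) = P.map (Int.castRingHom ℂ) := by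
    rw [← hP, charpoly_eigenbasis b F lam hb]
  set q : ℕ := p ^ a with hqdef
  have hq0 : (q : ℂ) ≠ 0 := by
    rw [hqdef]
    exact_mod_cast pow_ne_zero a hp.ne_zero
  have hn : ∀ i, ‖lam i‖ ^ 2 = (q : ℝ) := by
    intro i
    rw [hW _ (hasEigenvalue_of_basis F b lam hb i), hqdef]
    push_cast
    rfl
  have hlam : ∀ i, IsIntegral ℤ (lam i) := Pool.Agent.Helper71.TfField.isIntegral_lam hPlam
  have hconj : ∀ i, lam i * (starRingEnd ℂ) (lam i) = q := by
    intro i
    rw [Complex.mul_conj, Complex.normSq_eq_norm_sq, hn]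
    simp
  obtain ⟨c, hc⟩ := Pool.Agent.Helper71.TfMatch.exists_conj lam P hPlam
  obtain ⟨m, hm1, hm2, hm3⟩ := Pool.Agent.Helper71.TfMatch.exists_matching
    (by rw [hI]; decide) lam q hn c hc
  have hpair : ∀ i, Pair q lam i (m i) := by
    intro i
    refine ⟨(hm2 i).symm, ?_⟩
    rcases hm3 i with h | ⟨h1, h2⟩
    · exact ⟨1, one_pos, by rw [h]⟩
    · exact ⟨2, two_pos, by rw [mul_pow, h1, h2]; ring⟩
  have hkron : ∀ i j, i ≠ j → IsIntegral ℤ (lam i * lam j / q) → Pair q lam i j := by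
    intro i j hij hint
    obtain ⟨L, hfin, hgal, hL⟩ := Pool.Agent.Helper71.TfField.exists_field hPlam
    have hq : q ≠ 0 := by exact_mod_cast hq0
    refine ⟨hij, Pool.Agent.Helper71.TfField.kronecker hPlam hL hq hn i j ?_⟩
    rw [← isIntegral_algebraMap_iff (algebraMap L ℂ).injective, map_div₀, map_mul, map_natCast]
    exact hint
  obtain ⟨t, ht1, ht2⟩ := Pool.Agent.Helper71.TfExotic.exotic (a := a) hI hPlam hp hrank hn m
    hm1 hm2 hm3
  refine ⟨t, by exact_mod_cast ht1, fun i ν hν => ?_⟩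
  have hgal := galois_eq b hq0 hb hconj i ν hν
  apply le_antisymm
  · rw [hgal]
    refine Submodule.span_le.2 ?_
    rintro _ ⟨s, ⟨rfl, hs⟩, rfl⟩
    rcases match_or hI hq0 m hm1 hm2 hpair hkron ν s hν hs with h | ⟨h3, h1, hnp⟩
    · exact Submodule.mem_sup_left (match_mem_div b hb ν s h)
    · refine Submodule.mem_sup_right ?_
      rw [if_pos ⟨h3, h1⟩]
      refine mem_ellipticPart b hb h3 ?_
      subst h1
      obtain ⟨x, y, z, hxy, hxz, hyz, rfl⟩ := Finset.card_eq_three.1 h3
      have hprod : ∏ l, lam (![x, y, z] l) = ∏ j ∈ ({x, y, z} : Finset (Fin 6)), lam j := by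
        rw [Fin.prod_univ_three, Finset.prod_insert (by simp [hxy, hxz]), Finset.prod_pair hyz]
        simp [mul_assoc]
      have h5 := ht2 ![x, y, z] ?_ ?_
      · rw [hprod] at h5
        exact h5
      · have hnp' : ∀ u ∈ ({x, y, z} : Finset (Fin 6)), ∀ v ∈ ({x, y, z} : Finset (Fin 6)),
            u ≠ v → u ≠ v ∧ ∀ n : ℕ, 0 < n → (lam u * lam v) ^ n ≠ (q : ℂ) ^ n := by
          intro u hu v hv huv
          exact ⟨huv, fun n hn0 hn1 => hnp u hu v hv ⟨huv, n, hn0, hn1⟩⟩
        intro l l' hll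
        fin_cases l <;> fin_cases l' <;> simp only [ne_eq, not_true_eq_false] at hll
        · exact hnp' x (by simp) y (by simp) hxy
        · exact hnp' x (by simp) z (by simp) hxz
        · exact hnp' y (by simp) x (by simp) hxy.symm
        · exact hnp' y (by simp) z (by simp) hyz
        · exact hnp' z (by simp) x (by simp) hxz.symm
        · exact hnp' z (by simp) y (by simp) hyz.symm
      · rw [hprod]
        rw [pow_one] at hs
        exact hs
  · refine sup_le ?_ ?_
    · rw [hgal]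
      refine (div_le_match b hb i ν hν).trans (Submodule.span_mono ?_)
      rintro _ ⟨s, ⟨hs, hm⟩, rfl⟩
      exact ⟨s, ⟨hs, integral_of_match hq0 lam hlam ν s hm⟩, rfl⟩
    · split_ifs with h
      · obtain ⟨rfl, rfl⟩ := h
        rw [hgal]
        exact ellipticPart_le b hq0 hb t
      · exact bot_le

end Pool.Agent.Results.MP_8abef2_ag.AbelianThreefolds
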