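import Pool.Agent.Helper71.AA.Final

/-!
# The generalized Tate conjecture for all powers of almost all abelian varieties over finite fields

`IsWeil q g P`: the `q`-Weil polynomials of degree `2g` (among them the characteristic polynomials
of Frobenius of the abelian varieties of dimension `g` over `𝔽_q`, one for each isogeny class).
`DivisorsSuffice q P`: for every semisimple `F` on `V` with characteristic polynomial `P` the
Galois coniveau filtration of `Λⁱ(Vⁿ)`, the cohomology of `Aⁿ`, is generated by divisor classes.
-/

set_option autoImplicit false

namespace Pool.Agent.Results.MP_8abef2_ag.AlmostAllIsogenyClasses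

open Polynomial Pool.Agent.Helper71.AA

/-- **For almost all isogeny classes of abelian varieties over finite fields the Galois coniveau
of all powers is generated by divisor classes.**  For every dimension `g` there is a constant `K`
such that for all prime powers `q` the number of `q`-Weil polynomials `P` of degree `2g` which are
ordinary or satisfy `q ∣ a_g ^ 2` (this contains all characteristic polynomials of Frobenius of
abelian varieties) and for which divisors do not suffice is at most `K q ^ (-1/7)` times the
number of the ordinary isogeny classes. -/
theorem result (g : ℕ) (hg : 0 < g) : ∃ K : ℝ, ∀ q : ℕ, IsPrimePow q →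
    ({P : ℤ[X] | IsWeil q g P ∧ (IsCoprime (P.coeff g) (q : ℤ) ∨ (q : ℤ) ∣ P.coeff g ^ 2) ∧
      ¬ DivisorsSuffice q P}.ncard : ℝ) ≤
      K * (q : ℝ) ^ (-(1 / 7) : ℝ) * ({P : ℤ[X] | IsOrdinary q g P}.ncard : ℝ) :=
  almost_all g hg

end Pool.Agent.Results.MP_8abef2_ag.AlmostAllIsogenyClasses
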