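import Mathlib

/-!
# The Galois coniveau filtration of the powers of an abelian variety over a finite field

`V` is the first cohomology of an abelian variety `A` over `𝔽_q` with its Frobenius `F`
(coefficients extended to `ℂ`); the cohomology of the power `Aⁿ` is the exterior algebra
of `Vⁿ`.
-/

set_option autoImplicit false

namespace Pool.Agent.Results.MP_8abef2_ag.DivisorConiveau

open Module

section Defs

variable {W : Type*} [AddCommGroup W] [Module ℂ W]

/-- `M ⊆ Λⁱ W` is a subrepresentation such that `M(ν)` is effective of weight `i - 2ν`: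
`M` is stable under the algebra map induced by `Φ`, and for every eigenvalue `β` of it on
`M` both `β / q ^ ν` and `q ^ (i - ν) / β = q ^ (i - 2ν) / (β / q ^ ν)` are algebraic
integers. -/
structure IsEffective (q : ℕ) (Φ : W →ₗ[ℂ] W) (i ν : ℕ)
    (M : Submodule ℂ (ExteriorAlgebra ℂ W)) : Prop where
  le : M ≤ ⋀[ℂ]^i W
  stable : ∀ x ∈ M, ExteriorAlgebra.map Φ x ∈ M
  integral : ∀ x ∈ M, x ≠ 0 → ∀ β : ℂ, ExteriorAlgebra.map Φ x = β • x →
    IsIntegral ℤ (β / (q : ℂ) ^ ν) ∧ IsIntegral ℤ ((q : ℂ) ^ (i - ν) / β)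

/-- The Galois coniveau: the span of all subrepresentations `M` of `Λⁱ W` such that `M(ν)` is
effective of weight `i - 2ν`. -/
noncomputable def galoisConiveau (q : ℕ) (Φ : W →ₗ[ℂ] W) (i ν : ℕ) :
    Submodule ℂ (ExteriorAlgebra ℂ W) :=
  sSup {M | IsEffective q Φ i ν M}

/-- A Tate class of degree two: for some `m > 0` the `m`-th power of the Frobenius
multiplies it by `q ^ m`. -/
def IsDivisorClass (q : ℕ) (Φ : Module.End ℂ W) (d : ExteriorAlgebra ℂ W) : Prop :=
  d ∈ ⋀[ℂ]^2 W ∧ ∃ m : ℕ, 0 < m ∧ ExteriorAlgebra.map (Φ ^ m) d = (q : ℂ) ^ m • d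

/-- The span of all products `d₁ ⋯ d_ν w` with divisor classes `d_k` and
`w ∈ Λ^(i-2ν) W`. -/
noncomputable def divisorConiveau (q : ℕ) (Φ : Module.End ℂ W) (i ν : ℕ) :
    Submodule ℂ (ExteriorAlgebra ℂ W) :=
  Submodule.span ℂ {x | ∃ (d : Fin ν → ExteriorAlgebra ℂ W) (w : ExteriorAlgebra ℂ W),
    (∀ k, IsDivisorClass q Φ (d k)) ∧ w ∈ ⋀[ℂ]^(i - 2 * ν) W ∧ x = (List.ofFn d).prod * w}

end Defs

/-! ### Eigenbases -/

section Basis

variable {W : Type*} [AddCommGroup W] [Module ℂ W] {I : Type*} [LinearOrder I]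
  (b : Basis I ℂ W)

lemma basis_mem (s : Finset I) : b.ExteriorAlgebra s ∈ ⋀[ℂ]^s.card W := by
  have h := ExteriorAlgebra.basis_eq_coe_basis b (Set.powersetCard.ofCard (rfl : s.card = s.card))
  have h2 : (Set.powersetCard.ofCard (rfl : s.card = s.card)).val = s := rfl
  rw [h2] at h
  rw [h]
  exact Subtype.property _

lemma map_basis (Φ : W →ₗ[ℂ] W) (lam : I → ℂ) (hb : ∀ i, Φ (b i) = lam i • b i)
    (s : Finset I) :
    ExteriorAlgebra.map Φ (b.ExteriorAlgebra s) = (∏ i ∈ s, lam i) • b.ExteriorAlgebra s := by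
  rw [ExteriorAlgebra.basis_apply_ofCard b (rfl : s.card = s.card)]
  unfold ExteriorAlgebra.ιMulti_family
  rw [ExteriorAlgebra.map_apply_ιMulti]
  have h1 : (⇑Φ ∘ ⇑b ∘ ⇑(Set.powersetCard.ofFinEmbEquiv.symm (Set.powersetCard.ofCard
      (rfl : s.card = s.card)))) =
      fun j => lam (Set.powersetCard.ofFinEmbEquiv.symm (Set.powersetCard.ofCard
      (rfl : s.card = s.card)) j) • (⇑b ∘ ⇑(Set.powersetCard.ofFinEmbEquiv.symm
      (Set.powersetCard.ofCard (rfl : s.card = s.card)))) j := by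
    funext j
    simp [hb]
  rw [h1]
  have h2 := (ExteriorAlgebra.ιMulti ℂ s.card (M := W)).toMultilinearMap.map_smul_univ
    (fun j => lam (Set.powersetCard.ofFinEmbEquiv.symm (Set.powersetCard.ofCard
      (rfl : s.card = s.card)) j)) (⇑b ∘ ⇑(Set.powersetCard.ofFinEmbEquiv.symm
      (Set.powersetCard.ofCard (rfl : s.card = s.card))))
  simp only [AlternatingMap.coe_multilinearMap] at h2
  rw [h2]
  congr 1
  have h3 := Finset.prod_map (Finset.univ : Finset (Fin s.card)) (s.orderEmbOfFin rfl).toEmbedding lam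
  rw [Finset.map_orderEmbOfFin_univ] at h3
  rw [h3]
  rfl

lemma mem_span_of_mem_pow {i : ℕ} {w : ExteriorAlgebra ℂ W} (hw : w ∈ ⋀[ℂ]^i W) :
    w ∈ Submodule.span ℂ (b.ExteriorAlgebra '' {s | s.card = i}) := by
  have h1 : (⟨w, hw⟩ : ⋀[ℂ]^i W) ∈ Submodule.span ℂ (Set.range (b.exteriorPower i)) := by
    rw [(b.exteriorPower i).span_eq]; trivial
  have h2 := Submodule.mem_map_of_mem (f := (⋀[ℂ]^i W).subtype) h1
  rw [Submodule.map_span, ← Set.range_comp] at h2
  refine Submodule.span_mono ?_ h2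
  rintro _ ⟨s, rfl⟩
  exact ⟨s.val, s.prop, ExteriorAlgebra.basis_eq_coe_basis b s⟩

lemma repr_map (Φ : W →ₗ[ℂ] W) (lam : I → ℂ) (hb : ∀ i, Φ (b i) = lam i • b i)
    (w : ExteriorAlgebra ℂ W) (s : Finset I) :
    b.ExteriorAlgebra.repr (ExteriorAlgebra.map Φ w) s =
      (∏ i ∈ s, lam i) * b.ExteriorAlgebra.repr w s := by
  have h : (b.ExteriorAlgebra.coord s).comp (ExteriorAlgebra.map Φ).toLinearMap =
      (∏ i ∈ s, lam i) • b.ExteriorAlgebra.coord s := by
    refine b.ExteriorAlgebra.ext fun t => ?_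
    simp only [LinearMap.comp_apply, AlgHom.toLinearMap_apply, map_basis b Φ lam hb, map_smul,
      LinearMap.smul_apply, Basis.coord_apply, Basis.repr_self, smul_eq_mul]
    by_cases hst : t = s
    · rw [hst]
    · rw [Finsupp.single_eq_of_ne (Ne.symm hst)]; simp
  have h2 := LinearMap.congr_fun h w
  simpa using h2

/-- Eigenvectors of degree `i` are combinations of basis monomials of degree `i` with the same
eigenvalue. -/
lemma eigen_mem (Φ : W →ₗ[ℂ] W) (lam : I → ℂ) (hb : ∀ i, Φ (b i) = lam i • b i)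
    {i : ℕ} {w : ExteriorAlgebra ℂ W} (hw : w ∈ ⋀[ℂ]^i W) {β : ℂ}
    (hβ : ExteriorAlgebra.map Φ w = β • w) :
    w ∈ Submodule.span ℂ (b.ExteriorAlgebra '' {s | s.card = i ∧ ∏ j ∈ s, lam j = β}) := by
  rw [Basis.mem_span_image]
  intro s hs
  have hs' : b.ExteriorAlgebra.repr w s ≠ 0 := by simpa using hs
  constructor
  · have h1 := mem_span_of_mem_pow b hw
    rw [Basis.mem_span_image] at h1
    exact h1 hs
  · have h1 := repr_map b Φ lam hb w s
    rw [hβ] at h1
    simp only [map_smul, Finsupp.smul_apply, smul_eq_mul] at h1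
    exact (mul_right_cancel₀ hs' h1).symm

lemma basis_mul (s t : Finset I) (h : Disjoint s t) :
    ∃ c : ℂ, c ≠ 0 ∧ b.ExteriorAlgebra s * b.ExteriorAlgebra t = c • b.ExteriorAlgebra (s ∪ t) := by
  have h1 := ExteriorAlgebra.basis_mul_of_disjoint b
    (Set.powersetCard.ofCard (rfl : s.card = s.card))
    (Set.powersetCard.ofCard (rfl : t.card = t.card)) h
  have h2 : (Set.powersetCard.ofCard (rfl : s.card = s.card)).val = s := rfl
  have h3 : (Set.powersetCard.ofCard (rfl : t.card = t.card)).val = t := rfl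
  rw [h2, h3] at h1
  have h4 : (Set.powersetCard.disjUnion (s := Set.powersetCard.ofCard (rfl : s.card = s.card))
      (t := Set.powersetCard.ofCard (rfl : t.card = t.card)) h).val = s ∪ t := by
    ext x
    simp [Set.powersetCard.disjUnion, Set.powersetCard.ofCard]
  rw [h4] at h1
  rcases Int.units_eq_one_or (Set.powersetCard.permOfDisjoint
      (s := Set.powersetCard.ofCard (rfl : s.card = s.card))
      (t := Set.powersetCard.ofCard (rfl : t.card = t.card)) h).sign with h5 | h5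
  · rw [h5] at h1
    exact ⟨1, one_ne_zero, by simpa using h1⟩
  · rw [h5] at h1
    exact ⟨-1, by norm_num, by simpa using h1⟩

lemma basis_mul_zero (s t : Finset I) (h : ¬ Disjoint s t) :
    b.ExteriorAlgebra s * b.ExteriorAlgebra t = 0 := by
  have h1 := ExteriorAlgebra.basis_mul_of_not_disjoint b
    (Set.powersetCard.ofCard (rfl : s.card = s.card))
    (Set.powersetCard.ofCard (rfl : t.card = t.card)) h
  exact h1

end Basis

/-! ### Matchings -/

section Match

variable {W : Type*} [AddCommGroup W] [Module ℂ W] {I : Type*} [LinearOrder I]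
  (b : Basis I ℂ W)

/-- `i`, `j` are the indices of eigenvectors whose product is a divisor class. -/
def Pair (q : ℕ) (lam : I → ℂ) (i j : I) : Prop :=
  i ≠ j ∧ ∃ m : ℕ, 0 < m ∧ (lam i * lam j) ^ m = (q : ℂ) ^ m

/-- `s` contains `ν` disjoint pairs. -/
def Match (q : ℕ) (lam : I → ℂ) : ℕ → Finset I → Prop
  | 0, _ => True
  | ν + 1, s => ∃ i ∈ s, ∃ j ∈ s, Pair q lam i j ∧ Match q lam ν (s \ {i, j})

lemma match_union {q : ℕ} {lam : I → ℂ} {ν : ℕ} {s : Finset I} (hs : Match q lam ν s)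
    {i j : I} (hij : Pair q lam i j) (hd : Disjoint {i, j} s) :
    Match q lam (ν + 1) ({i, j} ∪ s) := by
  refine ⟨i, by simp, j, by simp, hij, ?_⟩
  have : ({i, j} ∪ s) \ {i, j} = s := by
    rw [Finset.union_sdiff_left]
    exact Finset.sdiff_eq_self_of_disjoint hd.symm
  rw [this]
  exact hs

lemma prod_split {lam : I → ℂ} {s : Finset I} {i j : I} (hi : i ∈ s) (hj : j ∈ s)
    (hij : i ≠ j) : ∏ k ∈ s, lam k = lam i * lam j * ∏ k ∈ s \ {i, j}, lam k := by
  have h1 : {i, j} ⊆ s := by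
    intro x hx
    simp only [Finset.mem_insert, Finset.mem_singleton] at hx
    rcases hx with rfl | rfl
    · exact hi
    · exact hj
  rw [← Finset.prod_sdiff h1, Finset.prod_pair hij]
  ring

/-- monomials with `ν` disjoint pairs lie in the divisor coniveau -/
lemma mul_mem_div {q : ℕ} {Φ : Module.End ℂ W} {i ν : ℕ} {d x : ExteriorAlgebra ℂ W}
    (hd : IsDivisorClass q Φ d)
    (hx : x ∈ divisorConiveau q Φ i ν) : d * x ∈ divisorConiveau q Φ (i + 2) (ν + 1) := by
  unfold divisorConiveau at hx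
  induction hx using Submodule.span_induction with
  | mem x hx =>
    obtain ⟨ds, w, hds, hw, rfl⟩ := hx
    refine Submodule.subset_span ⟨Fin.cons d ds, w, ?_, ?_, ?_⟩
    · intro k
      refine Fin.cases ?_ ?_ k
      · exact hd
      · intro k
        simpa using hds k
    · have : i + 2 - 2 * (ν + 1) = i - 2 * ν := by omega
      rw [this]; exact hw
    · rw [List.ofFn_succ, List.prod_cons]
      simp [mul_assoc]
  | zero => rw [mul_zero]; exact Submodule.zero_mem _
  | add x y _ _ hx hy => rw [mul_add]; exact Submodule.add_mem _ hx hy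
  | smul c x _ hx => rw [mul_smul_comm]; exact Submodule.smul_mem _ c hx

omit [LinearOrder I] in
lemma pow_apply_basis {Φ : Module.End ℂ W} {lam : I → ℂ} (hb : ∀ i, Φ (b i) = lam i • b i)
    (m : ℕ) (i : I) : (Φ ^ m) (b i) = lam i ^ m • b i := by
  induction m with
  | zero => simp
  | succ m ih => rw [pow_succ', Module.End.mul_apply, ih, map_smul, hb, smul_smul, ← pow_succ]

lemma pair_isDivisorClass {q : ℕ} {Φ : Module.End ℂ W} {lam : I → ℂ}
    (hb : ∀ i, Φ (b i) = lam i • b i) {i j : I} (hij : Pair q lam i j) :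
    IsDivisorClass q Φ (b.ExteriorAlgebra {i, j}) := by
  obtain ⟨hne, m, hm, hpow⟩ := hij
  refine ⟨?_, m, hm, ?_⟩
  · have := basis_mem b {i, j}
    rwa [Finset.card_pair hne] at this
  · rw [map_basis b (Φ ^ m) (fun i => lam i ^ m) (fun i => pow_apply_basis b hb m i),
      Finset.prod_pair hne, ← mul_pow, hpow]

lemma match_mem_div {q : ℕ} {Φ : Module.End ℂ W} {lam : I → ℂ}
    (hb : ∀ i, Φ (b i) = lam i • b i) (ν : ℕ) :
    ∀ s : Finset I, Match q lam ν s → b.ExteriorAlgebra s ∈ divisorConiveau q Φ s.card ν := by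
  induction ν with
  | zero =>
    intro s _
    refine Submodule.subset_span ⟨Fin.elim0, b.ExteriorAlgebra s, fun k => k.elim0, ?_, ?_⟩
    · simpa using basis_mem b s
    · simp
  | succ ν ih =>
    rintro s ⟨i, hi, j, hj, hij, hm⟩
    have hsub : {i, j} ⊆ s := by
      intro x hx
      simp only [Finset.mem_insert, Finset.mem_singleton] at hx
      rcases hx with rfl | rfl
      · exact hi
      · exact hj
    have hcard : (s \ {i, j}).card + 2 = s.card := by
      have := Finset.card_sdiff_add_card_eq_card hsub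
      rwa [Finset.card_pair hij.1] at this
    have h1 := mul_mem_div (pair_isDivisorClass b hb hij) (ih _ hm)
    rw [hcard] at h1
    obtain ⟨c, hc, h2⟩ := basis_mul b {i, j} (s \ {i, j}) Finset.disjoint_sdiff
    rw [h2, Finset.union_sdiff_of_subset hsub] at h1
    have h3 := Submodule.smul_mem _ c⁻¹ h1
    rwa [smul_smul, inv_mul_cancel₀ hc, one_smul] at h3

/-- the divisor coniveau is spanned by monomials with `ν` disjoint pairs -/
lemma div_le_match {q : ℕ} {Φ : Module.End ℂ W} {lam : I → ℂ}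
    (hb : ∀ i, Φ (b i) = lam i • b i) (i ν : ℕ) (h2 : 2 * ν ≤ i) :
    divisorConiveau q Φ i ν ≤
      Submodule.span ℂ (b.ExteriorAlgebra '' {s | s.card = i ∧ Match q lam ν s}) := by
  have hmul : ∀ (i ν : ℕ) (d x : ExteriorAlgebra ℂ W), IsDivisorClass q Φ d →
      x ∈ Submodule.span ℂ (b.ExteriorAlgebra '' {s | s.card = i ∧ Match q lam ν s}) →
      d * x ∈ Submodule.span ℂ
        (b.ExteriorAlgebra '' {s | s.card = i + 2 ∧ Match q lam (ν + 1) s}) := by
    intro i ν d x hd hx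
    obtain ⟨hd2, m, hm, hdm⟩ := hd
    have hd3 := eigen_mem b (Φ ^ m) (fun i => lam i ^ m) (fun i => pow_apply_basis b hb m i)
      hd2 hdm
    clear hd2 hdm
    induction hd3 using Submodule.span_induction with
    | mem d hd =>
      obtain ⟨t, ⟨ht, htm⟩, rfl⟩ := hd
      obtain ⟨a, c, hac, rfl⟩ := Finset.card_eq_two.1 ht
      have hp : Pair q lam a c := by
        refine ⟨hac, m, hm, ?_⟩
        rw [Finset.prod_pair hac, ← mul_pow] at htm
        exact htm
      induction hx using Submodule.span_induction with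
      | mem x hx =>
        obtain ⟨s, ⟨hs, hsm⟩, rfl⟩ := hx
        by_cases hdis : Disjoint {a, c} s
        · obtain ⟨e, he, h3⟩ := basis_mul b {a, c} s hdis
          rw [h3]
          refine Submodule.smul_mem _ _ (Submodule.subset_span ⟨_, ⟨?_, ?_⟩, rfl⟩)
          · rw [Finset.card_union_of_disjoint hdis, ht, hs, add_comm]
          · exact match_union hsm hp hdis
        · rw [basis_mul_zero b _ _ hdis]
          exact Submodule.zero_mem _
      | zero => rw [mul_zero]; exact Submodule.zero_mem _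
      | add x y _ _ hx hy => rw [mul_add]; exact Submodule.add_mem _ hx hy
      | smul c x _ hx => rw [mul_smul_comm]; exact Submodule.smul_mem _ c hx
    | zero => rw [zero_mul]; exact Submodule.zero_mem _
    | add x y _ _ hx hy => rw [add_mul]; exact Submodule.add_mem _ hx hy
    | smul c x _ hx => rw [smul_mul_assoc]; exact Submodule.smul_mem _ c hx
  refine Submodule.span_le.2 ?_
  rintro _ ⟨d, w, hd, hw, rfl⟩
  obtain ⟨k, rfl⟩ : ∃ k, i = k + 2 * ν := ⟨i - 2 * ν, by omega⟩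
  rw [Nat.add_sub_cancel] at hw
  clear h2
  have hw2 : w ∈ Submodule.span ℂ (b.ExteriorAlgebra '' {s | s.card = k ∧ Match q lam 0 s}) := by
    refine Submodule.span_mono ?_ (mem_span_of_mem_pow b hw)
    rintro _ ⟨s, hs, rfl⟩
    exact ⟨s, ⟨hs, trivial⟩, rfl⟩
  induction ν with
  | zero => simpa using hw2
  | succ ν ih =>
    rw [List.ofFn_succ, List.prod_cons, mul_assoc]
    have h3 := hmul (k + 2 * ν) ν (d 0) _ (hd 0) (ih (fun k => d k.succ) (fun k => hd k.succ))
    have h4 : k + 2 * (ν + 1) = k + 2 * ν + 2 := by ring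
    rw [h4]
    exact h3

end Match

/-! ### Arithmetic -/

section Arith

open scoped Classical in
/-- products of algebraic integers without a pair are not divisible by `q` -/
lemma not_integral {I : Type*} {q : ℕ} (hq : (q : ℂ) ≠ 0) (lam : I → ℂ)
    (hlam : ∀ i, IsIntegral ℤ (lam i))
    (hS : ∀ S : Set ℂ, (∀ α ∈ S, ∃ i, lam i = α) →
      (∀ α ∈ S, ∀ β ∈ S, ∀ m : ℕ, 0 < m → (α * β) ^ m ≠ (q : ℂ) ^ m) →
      ∃ P : Ideal (integralClosure ℤ ℂ), P.IsPrime ∧ (q : integralClosure ℤ ℂ) ∈ P ∧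
        ∀ x ∈ P, (x : ℂ) ∉ S)
    (ν : ℕ) (s : Finset I) (hs : ∀ i ∈ s, ∀ j ∈ s, ¬ Pair q lam i j)
    (hint : IsIntegral ℤ ((∏ i ∈ s, lam i) / (q : ℂ) ^ (ν + 1))) : False := by
  let sq : I → Prop := fun i => ∃ m : ℕ, 0 < m ∧ (lam i * lam i) ^ m = (q : ℂ) ^ m
  obtain ⟨P, hP, hqP, hPS⟩ := hS {α | ∃ i ∈ s, lam i = α ∧ ¬ sq i}
    (by rintro α ⟨i, -, hi, -⟩; exact ⟨i, hi⟩)
    (by
      rintro α ⟨i, hi, rfl, hi2⟩ β ⟨j, hj, rfl, hj2⟩ m hm
      by_cases hij : i = j
      · intro h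
        rw [hij] at h
        exact hj2 ⟨m, hm, h⟩
      · exact fun h => hs i hi j hj ⟨hij, m, hm, h⟩)
  let lamO : I → integralClosure ℤ ℂ := fun i => ⟨lam i, hlam i⟩
  let z : integralClosure ℤ ℂ := ⟨_, hint⟩
  set T := s.filter (fun i => ¬ sq i) with hT
  set R := s.filter (fun i => ¬ ¬ sq i) with hR
  have hy : ∏ i ∈ T, lamO i ∉ P := by
    intro h
    rw [hP.prod_mem_iff] at h
    obtain ⟨i, hi, hiP⟩ := h
    rw [hT, Finset.mem_filter] at hi
    exact hPS _ hiP ⟨i, hi.1, rfl, hi.2⟩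
  have hprod : (∏ i ∈ T, lam i) * ∏ i ∈ R, lam i = ∏ i ∈ s, lam i :=
    Finset.prod_filter_mul_prod_filter_not s _ _
  have hz : (∏ i ∈ T, lam i) * ∏ i ∈ R, lam i = (q : ℂ) ^ (ν + 1) * (z : ℂ) := by
    rw [hprod]
    change _ = (q : ℂ) ^ (ν + 1) * ((∏ i ∈ s, lam i) / (q : ℂ) ^ (ν + 1))
    field_simp
  have hR1 : R.card ≤ 1 := by
    rw [Finset.card_le_one]
    intro i hi j hj
    rw [hR, Finset.mem_filter, not_not] at hi hj
    by_contra hij
    obtain ⟨m, hm, hmi⟩ := hi.2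
    obtain ⟨n, hn, hnj⟩ := hj.2
    refine hs i hi.1 j hj.1 ⟨hij, 2 * (m * n), by positivity, ?_⟩
    calc (lam i * lam j) ^ (2 * (m * n)) = ((lam i * lam i) ^ m) ^ n * ((lam j * lam j) ^ n) ^ m := by
          ring
      _ = (q : ℂ) ^ (2 * (m * n)) := by rw [hmi, hnj]; ring
  have hcast : ((∏ i ∈ T, lamO i : integralClosure ℤ ℂ) : ℂ) = ∏ i ∈ T, lam i := by
    push_cast
    rfl
  rcases Nat.eq_zero_or_pos R.card with hR0 | hR0
  · rw [Finset.card_eq_zero] at hR0
    rw [hR0, Finset.prod_empty, mul_one] at hz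
    have h1 : ∏ i ∈ T, lamO i = (q : integralClosure ℤ ℂ) ^ (ν + 1) * z := by
      apply Subtype.ext
      rw [hcast, hz]
      push_cast
      rfl
    apply hy
    rw [h1]
    exact P.mul_mem_right _ (P.pow_mem_of_mem hqP _ (Nat.succ_pos _))
  · obtain ⟨k, hk⟩ := Finset.card_eq_one.1 (le_antisymm hR1 hR0)
    have hkR : k ∈ R := by rw [hk]; simp
    rw [hR, Finset.mem_filter, not_not] at hkR
    obtain ⟨m, hm, hkm⟩ := hkR.2
    rw [hk, Finset.prod_singleton] at hz
    have h1 : (∏ i ∈ T, lamO i) ^ (2 * m) =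
        (q : integralClosure ℤ ℂ) ^ (2 * m * ν + m) * z ^ (2 * m) := by
      apply Subtype.ext
      push_cast
      have h2 : (∏ i ∈ T, lam i) ^ (2 * m) * (q : ℂ) ^ m =
          ((q : ℂ) ^ (2 * m * ν + m) * (z : ℂ) ^ (2 * m)) * (q : ℂ) ^ m := by
        calc (∏ i ∈ T, lam i) ^ (2 * m) * (q : ℂ) ^ m
            = ((∏ i ∈ T, lam i) * lam k) ^ (2 * m) := by rw [← hkm]; ring
          _ = ((q : ℂ) ^ (ν + 1) * (z : ℂ)) ^ (2 * m) := by rw [hz]
          _ = _ := by ring
      exact mul_right_cancel₀ (pow_ne_zero _ hq) h2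
    apply hy
    refine hP.mem_of_pow_mem (2 * m) ?_
    rw [h1]
    exact P.mul_mem_right _ (P.pow_mem_of_mem hqP _ (by omega))

lemma pow_quot {I : Type*} [LinearOrder I] {q : ℕ} (hq : (q : ℂ) ≠ 0) {lam : I → ℂ} {ν : ℕ}
    {s : Finset I} {i j : I} (hi : i ∈ s) (hj : j ∈ s) (hij : i ≠ j) {m : ℕ}
    (hm : (lam i * lam j) ^ m = (q : ℂ) ^ m) :
    ((∏ k ∈ s, lam k) / (q : ℂ) ^ (ν + 1)) ^ m =
      ((∏ k ∈ s \ {i, j}, lam k) / (q : ℂ) ^ ν) ^ m := by
  rw [prod_split hi hj hij, div_pow, div_pow, mul_pow, hm]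
  field_simp
  ring

lemma match_of_integral {I : Type*} [LinearOrder I] {q : ℕ} (hq : (q : ℂ) ≠ 0) (lam : I → ℂ)
    (hlam : ∀ i, IsIntegral ℤ (lam i))
    (hS : ∀ S : Set ℂ, (∀ α ∈ S, ∃ i, lam i = α) →
      (∀ α ∈ S, ∀ β ∈ S, ∀ m : ℕ, 0 < m → (α * β) ^ m ≠ (q : ℂ) ^ m) →
      ∃ P : Ideal (integralClosure ℤ ℂ), P.IsPrime ∧ (q : integralClosure ℤ ℂ) ∈ P ∧
        ∀ x ∈ P, (x : ℂ) ∉ S)
    (ν : ℕ) : ∀ s : Finset I, IsIntegral ℤ ((∏ i ∈ s, lam i) / (q : ℂ) ^ ν) →
      Match q lam ν s := by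
  induction ν with
  | zero => intro s _; trivial
  | succ ν ih =>
    intro s hs
    by_cases h : ∀ i ∈ s, ∀ j ∈ s, ¬ Pair q lam i j
    · exact (not_integral hq lam hlam hS ν s h hs).elim
    · push Not at h
      obtain ⟨i, hi, j, hj, hij⟩ := h
      refine ⟨i, hi, j, hj, hij, ih _ ?_⟩
      obtain ⟨hne, m, hm, hmq⟩ := hij
      refine IsIntegral.of_pow hm ?_
      rw [← pow_quot hq hi hj hne hmq]
      exact hs.pow m

lemma integral_of_match {I : Type*} [LinearOrder I] {q : ℕ} (hq : (q : ℂ) ≠ 0) (lam : I → ℂ)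
    (hlam : ∀ i, IsIntegral ℤ (lam i)) (ν : ℕ) : ∀ s : Finset I, Match q lam ν s →
      IsIntegral ℤ ((∏ i ∈ s, lam i) / (q : ℂ) ^ ν) := by
  induction ν with
  | zero =>
    intro s _
    rw [pow_zero, div_one]
    exact IsIntegral.prod _ fun i _ => hlam i
  | succ ν ih =>
    rintro s ⟨i, hi, j, hj, ⟨hne, m, hm, hmq⟩, hM⟩
    refine IsIntegral.of_pow hm ?_
    rw [pow_quot hq hi hj hne hmq]
    exact (ih _ hM).pow m

lemma dual_eq {I : Type*} {q : ℕ} (hq : (q : ℂ) ≠ 0) {lam : I → ℂ}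
    (hlam : ∀ i, lam i * (starRingEnd ℂ) (lam i) = q) {ν : ℕ} {s : Finset I}
    (hν : ν ≤ s.card) :
    (q : ℂ) ^ (s.card - ν) / (∏ i ∈ s, lam i) =
      (starRingEnd ℂ) ((∏ i ∈ s, lam i) / (q : ℂ) ^ ν) := by
  have h1 : (∏ i ∈ s, lam i) * (starRingEnd ℂ) (∏ i ∈ s, lam i) = (q : ℂ) ^ s.card := by
    rw [map_prod, ← Finset.prod_mul_distrib, Finset.prod_congr rfl (fun i _ => hlam i),
      Finset.prod_const]
  have h0 : (∏ i ∈ s, lam i) ≠ 0 := by
    intro h
    rw [h, zero_mul] at h1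
    exact pow_ne_zero _ hq h1.symm
  have h2 : (starRingEnd ℂ) ((q : ℂ) ^ ν) = (q : ℂ) ^ ν := by simp
  rw [map_div₀, h2, div_eq_div_iff h0 (pow_ne_zero _ hq), ← pow_add, Nat.sub_add_cancel hν,
    ← h1]
  ring

lemma integral_conj {z : ℂ} (hz : IsIntegral ℤ z) : IsIntegral ℤ ((starRingEnd ℂ) z) :=
  hz.map (starRingEnd ℂ).toIntAlgHom

end Arith

section Galois

variable {W : Type*} [AddCommGroup W] [Module ℂ W] {I : Type*} [LinearOrder I] [Finite I]
  (b : Basis I ℂ W)

lemma galois_eq {q : ℕ} (hq : (q : ℂ) ≠ 0) {Φ : Module.End ℂ W} {lam : I → ℂ}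
    (hb : ∀ i, Φ (b i) = lam i • b i)
    (hlam : ∀ i, lam i * (starRingEnd ℂ) (lam i) = q) (i ν : ℕ) (hν : 2 * ν ≤ i) :
    galoisConiveau q Φ i ν = Submodule.span ℂ (b.ExteriorAlgebra ''
      {s | s.card = i ∧ IsIntegral ℤ ((∏ j ∈ s, lam j) / (q : ℂ) ^ ν)}) := by
  classical
  have : Fintype I := Fintype.ofFinite I
  have hfin : FiniteDimensional ℂ (ExteriorAlgebra ℂ W) :=
    Module.Finite.of_basis b.ExteriorAlgebra
  apply le_antisymm
  · refine sSup_le fun M hM => ?_
    let f : Module.End ℂ (ExteriorAlgebra ℂ W) := (ExteriorAlgebra.map Φ).toLinearMap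
    have hf : ∀ x ∈ M, f x ∈ M := hM.stable
    have htop : ⨆ μ, f.genEigenspace μ 1 = ⊤ := by
      rw [eq_top_iff, ← b.ExteriorAlgebra.span_eq]
      refine Submodule.span_le.2 ?_
      rintro _ ⟨s, rfl⟩
      refine Submodule.mem_iSup_of_mem (∏ j ∈ s, lam j) ?_
      rw [Module.End.mem_genEigenspace_one]
      exact map_basis b Φ lam hb s
    rw [Submodule.eq_iSup_inf_genEigenspace 1 hf htop]
    refine iSup_le fun μ => ?_
    rintro x ⟨hxM, hxμ⟩
    rcases eq_or_ne x 0 with rfl | hx0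
    · exact Submodule.zero_mem _
    have hx2 : ExteriorAlgebra.map Φ x = μ • x := Module.End.mem_genEigenspace_one.1 hxμ
    have h3 := (hM.integral x hxM hx0 μ hx2).1
    refine Submodule.span_mono ?_ (eigen_mem b Φ lam hb (hM.le hxM) hx2)
    rintro _ ⟨s, ⟨hs, hsμ⟩, rfl⟩
    exact ⟨s, ⟨hs, by rw [hsμ]; exact h3⟩, rfl⟩
  · refine Submodule.span_le.2 ?_
    rintro _ ⟨s, ⟨hs, hint⟩, rfl⟩
    subst hs
    refine Submodule.mem_sSup_of_mem (S := {M | IsEffective q Φ s.card ν M})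
      (s := Submodule.span ℂ {b.ExteriorAlgebra s}) ?_ (Submodule.mem_span_singleton_self _)
    refine ⟨?_, ?_, ?_⟩
    · rw [Submodule.span_singleton_le_iff_mem]
      exact basis_mem b s
    · intro x hx
      obtain ⟨c, rfl⟩ := Submodule.mem_span_singleton.1 hx
      rw [map_smul, map_basis b Φ lam hb, smul_comm]
      exact Submodule.smul_mem _ _ hx
    · intro x hx hx0 β hβ
      obtain ⟨c, rfl⟩ := Submodule.mem_span_singleton.1 hx
      rw [map_smul, map_basis b Φ lam hb, smul_comm] at hβ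
      have h1 : (∏ i ∈ s, lam i) = β := smul_left_injective ℂ hx0 hβ
      rw [← h1]
      refine ⟨hint, ?_⟩
      rw [dual_eq hq hlam (by omega)]
      exact integral_conj hint

end Galois

section Power

variable {V : Type*} [AddCommGroup V] [Module ℂ V] [FiniteDimensional ℂ V]

lemma eigenbasis (F : Module.End ℂ V) (hF : F.IsSemisimple) :
    ∃ (d : ℕ) (b : Basis (Fin d) ℂ V) (lam : Fin d → ℂ), ∀ i, F (b i) = lam i • b i := by
  classical
  let D := DirectSum.isInternal_submodule_of_iSupIndep_of_iSup_eq_top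
    F.eigenspaces_iSupIndep hF.iSup_eigenspace_eq_top
  let J := (ν : ℂ) × Fin (finrank ℂ (F.eigenspace ν))
  let v : Basis J ℂ V := D.collectedBasis fun μ ↦ finBasis ℂ (F.eigenspace μ)
  have : Fintype J := FiniteDimensional.fintypeBasisIndex v
  let e := Fintype.equivFin J
  refine ⟨Fintype.card J, v.reindex e, fun i => (e.symm i).1, fun i => ?_⟩
  rw [Basis.reindex_apply]
  exact Module.End.mem_eigenspace_iff.1 (D.collectedBasis_mem _ (e.symm i))

omit [FiniteDimensional ℂ V] in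
/-- an eigenbasis of the powers, with explicit indices -/
lemma power_basis (F : Module.End ℂ V) {d : ℕ} (b : Basis (Fin d) ℂ V) (lam : Fin d → ℂ)
    (hb : ∀ i, F (b i) = lam i • b i) (n : ℕ) :
    ∃ (N : ℕ) (e : (Σ _ : Fin n, Fin d) ≃ Fin N) (B : Basis (Fin N) ℂ (Fin n → V)),
      ∀ i, (F.compLeft (Fin n)) (B i) = lam (e.symm i).2 • B i := by
  classical
  let e := Fintype.equivFin (Σ _ : Fin n, Fin d)
  refine ⟨_, e, (Pi.basis fun _ : Fin n => b).reindex e, fun i => ?_⟩
  rw [Basis.reindex_apply, Pi.basis_apply]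
  funext k
  rw [LinearMap.compLeft_apply]
  simp only [Function.comp_apply, Pi.smul_apply]
  rcases eq_or_ne k (e.symm i).1 with hk | hk
  · rw [hk, Pi.single_eq_same, hb]
  · rw [Pi.single_eq_of_ne hk, map_zero, smul_zero]

omit [FiniteDimensional ℂ V] in
lemma hasEigenvalue_of_basis (F : Module.End ℂ V) {d : ℕ} (b : Basis (Fin d) ℂ V)
    (lam : Fin d → ℂ) (hb : ∀ i, F (b i) = lam i • b i) (i : Fin d) :
    F.HasEigenvalue (lam i) :=
  Module.End.hasEigenvalue_of_hasEigenvector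
    ⟨Module.End.mem_eigenspace_iff.2 (hb i), b.ne_zero i⟩

omit [FiniteDimensional ℂ V] in
lemma exists_index (F : Module.End ℂ V) {d : ℕ} (b : Basis (Fin d) ℂ V)
    (lam : Fin d → ℂ) (hb : ∀ i, F (b i) = lam i • b i) {α : ℂ} (hα : F.HasEigenvalue α) :
    ∃ i, lam i = α := by
  obtain ⟨v, hv⟩ := hα.exists_hasEigenvector
  have h1 : F v = α • v := hv.apply_eq_smul
  have h0 : b.repr v ≠ 0 := by simpa using hv.2
  obtain ⟨i, hi⟩ := Finsupp.ne_iff.1 h0
  refine ⟨i, ?_⟩
  have h2 : (b.coord i).comp F = lam i • b.coord i := by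
    refine b.ext fun j => ?_
    simp only [LinearMap.comp_apply, hb, map_smul, LinearMap.smul_apply, Basis.coord_apply,
      Basis.repr_self, smul_eq_mul]
    by_cases hij : j = i
    · rw [hij]
    · rw [Finsupp.single_eq_of_ne (Ne.symm hij)]; simp
  have h3 := LinearMap.congr_fun h2 v
  simp only [LinearMap.comp_apply, h1, map_smul, LinearMap.smul_apply, Basis.coord_apply,
    smul_eq_mul] at h3
  exact (mul_right_cancel₀ (by simpa using hi) h3).symm

lemma not_integral_inv {q : ℕ} (hq : 2 ≤ q) (z : integralClosure ℤ ℂ)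
    (hz : (q : ℂ) * (z : ℂ) = 1) : False := by
  have h1 : (z : ℂ) = algebraMap ℚ ℂ (1 / (q : ℚ)) := by
    have : (q : ℂ) ≠ 0 := by
      have : q ≠ 0 := by omega
      exact_mod_cast this
    have h2 : (z : ℂ) = 1 / (q : ℂ) := by
      rw [eq_div_iff this, mul_comm]; exact hz
    rw [h2]
    simp
  have h2 : IsIntegral ℤ (1 / (q : ℚ)) := by
    have h3 : IsIntegral ℤ (z : ℂ) := z.2
    rw [h1] at h3
    exact (isIntegral_algebraMap_iff (algebraMap ℚ ℂ).injective).1 h3
  obtain ⟨y, hy⟩ := IsIntegrallyClosed.isIntegral_iff.1 h2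
  have hq0 : (0 : ℚ) < q := by exact_mod_cast (by omega : 0 < q)
  have h4 : ((y * q : ℤ) : ℚ) = 1 := by
    push_cast
    rw [show (y : ℚ) = 1 / (q : ℚ) from by simpa using hy]
    field_simp
  have h5 : y * (q : ℤ) = 1 := by exact_mod_cast h4
  have h6 := Int.isUnit_iff.1 (IsUnit.of_mul_eq_one_right y h5)
  omega

end Power

/-- **Theorem.** Let `V` be a finite dimensional complex vector space with a semisimple
endomorphism `F` all of whose eigenvalues are algebraic integers of absolute value `√q`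
(`V = H¹(A)` of an abelian variety `A` over `𝔽_q` with its Frobenius).
The Galois coniveau filtration of `H^*(Aⁿ) = Λ (Vⁿ)` is, for all `n`, in all degrees and
levels, spanned by the products of `ν` divisor classes with arbitrary classes, if and
only if every set of eigenvalues containing no `α, β` with `α β / q` a root of unity is
disjoint from some prime ideal of the algebraic integers that contains `q`. -/
theorem result (q : ℕ) (hq : 2 ≤ q) {V : Type*} [AddCommGroup V] [Module ℂ V]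
    [FiniteDimensional ℂ V] (F : Module.End ℂ V) (hF : F.IsSemisimple)
    (hW : ∀ α : ℂ, F.HasEigenvalue α → IsIntegral ℤ α ∧ ‖α‖ ^ 2 = q) :
    (∀ n i ν : ℕ, 2 * ν ≤ i →
      galoisConiveau q (F.compLeft (Fin n)) i ν = divisorConiveau q (F.compLeft (Fin n)) i ν) ↔
    ∀ S : Set ℂ, (∀ α ∈ S, F.HasEigenvalue α) →
      (∀ α ∈ S, ∀ β ∈ S, ∀ m : ℕ, 0 < m → (α * β) ^ m ≠ (q : ℂ) ^ m) →
      ∃ P : Ideal (integralClosure ℤ ℂ), P.IsPrime ∧ (q : integralClosure ℤ ℂ) ∈ P ∧
        ∀ x ∈ P, (x : ℂ) ∉ S := by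
  classical
  have hq0 : (q : ℂ) ≠ 0 := by
    have : q ≠ 0 := by omega
    exact_mod_cast this
  obtain ⟨d, b, lam, hb⟩ := eigenbasis F hF
  have hlam : ∀ i, IsIntegral ℤ (lam i) := fun i => (hW _ (hasEigenvalue_of_basis F b lam hb i)).1
  have hconj : ∀ i, lam i * (starRingEnd ℂ) (lam i) = q := by
    intro i
    rw [Complex.mul_conj, Complex.normSq_eq_norm_sq,
      (hW _ (hasEigenvalue_of_basis F b lam hb i)).2]
    simp
  constructor
  · intro hall S hS hpair
    by_contra hcon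
    push Not at hcon
    -- choose one index for every element of `S`
    have hch : ∀ α : S, ∃ i, lam i = (α : ℂ) := fun α => exists_index F b lam hb (hS α α.2)
    choose c hc using hch
    have hSfin : S.Finite := (Set.finite_range lam).subset (by
      intro α hα
      exact ⟨c ⟨α, hα⟩, hc _⟩)
    have : Fintype S := hSfin.fintype
    let J : Finset (Fin d) := Finset.univ.image c
    have hJ : ∀ j ∈ J, lam j ∈ S := by
      intro j hj
      obtain ⟨α, -, rfl⟩ := Finset.mem_image.1 hj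
      rw [hc]; exact α.2
    let lamO : Fin d → integralClosure ℤ ℂ := fun i => ⟨lam i, hlam i⟩
    have hrad : ∏ j ∈ J, lamO j ∈ (Ideal.span {(q : integralClosure ℤ ℂ)}).radical := by
      rw [Ideal.radical_eq_sInf, Submodule.mem_sInf]
      rintro P ⟨hP1, hP2⟩
      obtain ⟨x, hxP, hxS⟩ := hcon P hP2 (hP1 (Ideal.mem_span_singleton_self _))
      have h1 : lamO (c ⟨x, hxS⟩) = x := Subtype.ext (hc ⟨x, hxS⟩)
      rw [hP2.prod_mem_iff]
      refine ⟨c ⟨x, hxS⟩, Finset.mem_image_of_mem _ (Finset.mem_univ _), ?_⟩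
      rw [h1]; exact hxP
    obtain ⟨N, hN⟩ := hrad
    rw [Ideal.mem_span_singleton'] at hN
    obtain ⟨z, hz⟩ := hN
    have hz' : (∏ j ∈ J, lam j) ^ N = (q : ℂ) * (z : ℂ) := by
      have h1 := congrArg (fun x : integralClosure ℤ ℂ => (x : ℂ)) hz
      push_cast at h1
      rw [mul_comm, h1]
    rcases J.eq_empty_or_nonempty with hJ0 | hJ0
    · rw [hJ0, Finset.prod_empty, one_pow] at hz'
      exact not_integral_inv hq z hz'.symm
    obtain ⟨M, e, B, hB⟩ := power_basis F b lam hb (N + 2)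
    let s : Finset (Fin M) :=
      ((Finset.univ : Finset (Fin (N + 2))).sigma (fun _ => J)).map e.toEmbedding
    have hsmem : ∀ i ∈ s, (e.symm i).2 ∈ J := by
      intro i hi
      obtain ⟨x, hx, rfl⟩ := Finset.mem_map.1 hi
      have := (Finset.mem_sigma.1 hx).2
      simpa using this
    have hscard : s.card = (N + 2) * J.card := by
      simp [s, Finset.card_map, Finset.card_sigma]
    have hsprod : ∏ i ∈ s, lam (e.symm i).2 = (∏ j ∈ J, lam j) ^ (N + 2) := by
      simp only [s]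
      rw [Finset.prod_map, Finset.prod_sigma]
      simp
    have hJpos : 1 ≤ J.card := hJ0.card_pos
    have h2s : 2 * 1 ≤ s.card := by
      rw [hscard]
      nlinarith
    have hmem : B.ExteriorAlgebra s ∈
        galoisConiveau q (F.compLeft (Fin (N + 2))) s.card 1 := by
      rw [galois_eq B hq0 hB (fun i => hconj _) s.card 1 h2s]
      refine Submodule.subset_span ⟨s, ⟨rfl, ?_⟩, rfl⟩
      have h1 : (∏ i ∈ s, lam (e.symm i).2) / (q : ℂ) ^ 1 = (∏ j ∈ J, lam j) ^ 2 * (z : ℂ) := by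
        rw [hsprod, pow_add, hz', pow_one]
        field_simp
      rw [h1]
      exact ((IsIntegral.prod _ fun i _ => hlam i).pow 2).mul z.2
    rw [hall (N + 2) s.card 1 h2s] at hmem
    have h3 := div_le_match B hB s.card 1 h2s hmem
    rw [Basis.mem_span_image] at h3
    have h4 : s ∈ ({t | t.card = s.card ∧ Match q (fun i => lam (e.symm i).2) 1 t} :
        Set (Finset (Fin M))) := by
      apply h3
      rw [Basis.repr_self]
      simp
    obtain ⟨-, i, hi, j, hj, ⟨-, m, hm, hmq⟩, -⟩ := h4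
    exact hpair _ (hJ _ (hsmem i hi)) _ (hJ _ (hsmem j hj)) m hm hmq
  · intro hC n i ν hν
    obtain ⟨N, e, B, hB⟩ := power_basis F b lam hb n
    have hS : ∀ S : Set ℂ, (∀ α ∈ S, ∃ i, lam (e.symm i).2 = α) →
      (∀ α ∈ S, ∀ β ∈ S, ∀ m : ℕ, 0 < m → (α * β) ^ m ≠ (q : ℂ) ^ m) →
      ∃ P : Ideal (integralClosure ℤ ℂ), P.IsPrime ∧ (q : integralClosure ℤ ℂ) ∈ P ∧
        ∀ x ∈ P, (x : ℂ) ∉ S := by
      intro S h1 h2
      refine hC S (fun α hα => ?_) h2
      obtain ⟨i, rfl⟩ := h1 α hα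
      exact hasEigenvalue_of_basis F b lam hb _
    rw [galois_eq B hq0 hB (fun i => hconj _) i ν hν]
    apply le_antisymm
    · refine Submodule.span_le.2 ?_
      rintro _ ⟨s, ⟨rfl, hs⟩, rfl⟩
      exact match_mem_div B hB ν s
        (match_of_integral hq0 (fun i => lam (e.symm i).2) (fun i => hlam _) hS ν s hs)
    · refine (div_le_match B hB i ν hν).trans (Submodule.span_mono ?_)
      rintro _ ⟨s, ⟨hs, hm⟩, rfl⟩
      exact ⟨s, ⟨hs, integral_of_match hq0 _ (fun i => hlam _) ν s hm⟩, rfl⟩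

end Pool.Agent.Results.MP_8abef2_ag.DivisorConiveau
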