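import Mathlib
import Pool.Agent.Helper71.RotDefs
import Pool.Agent.Helper71.HypBraid

/-!
Double branched covers of closed rational 3-braids in the hyperbolic class zero: if the braid
obtained by rounding all exponents down moves some direction up and the braid obtained by rounding
all exponents up moves some direction down, and the rounded braids agree on which way the
directions of the curves of the non-integral letters are moved, then the fundamental group is not
left-orderable.
-/

set_option autoImplicit false

namespace Pool.Agent.Results.MP_9ae2f3_gt.HyperbolicRationalBraids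

open Pool.Agent.Helper71.Rot (turn)

/-- The action of the `k`-th power of the twist along the curve `a` (`false`) or `b` (`true`) on
the line of directions: it is `τ ^ k` for the curve `a`, and the conjugate of `τ ^ k` by the
shift by one for the curve `b`. -/
noncomputable def twist (second : Bool) (k : ℤ) (x : ℝ) : ℝ :=
  if second then turn k (x + 1) - 1 else turn k x

/-- The action of a word, with all exponents rounded down. -/
noncomputable def floorMap (w : List (Bool × ℚ)) (x : ℝ) : ℝ :=
  w.foldl (fun y l => twist l.1 ⌊l.2⌋ y) x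

/-- The action of a word, with all exponents rounded up. -/
noncomputable def ceilMap (w : List (Bool × ℚ)) (x : ℝ) : ℝ :=
  w.foldl (fun y l => twist l.1 ⌈l.2⌉ y) x

/-- The direction of the curve `a` (`false`) or `b` (`true`). -/
noncomputable def dir (second : Bool) : ℝ := if second then -1 else 0

/-- Elements of a group which satisfy the relations of the fundamental group of the following
closed manifold.  Let `F` be a once-punctured torus with standard curves `a`, `b`.  In `F × S¹`,
with the boundary torus filled along the circle factor, do surgery for each letter of `w` on a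
copy of the curve of the letter, at increasing heights, with the exponent as twist coefficient.

The elements `a i`, `b i` are the standard generators of the fibre group between the heights of
the letters number `i - 1` and `i`, and `m i` is the meridian of the curve number `i`.  In the
fundamental group the surgery relations `m i ^ v = a i ^ u`, with the exponent `u / v` in lowest
terms, hold; it is only required that they hold for some positive multiples of `v` and `u`. -/
structure Rep (G : Type*) [Group G] (w : List (Bool × ℚ)) where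
  a : Fin (w.length + 1) → G
  b : Fin (w.length + 1) → G
  m : Fin w.length → G
  /-- Passing a curve `a` multiplies `b` by the meridian, which is a fractional power of `a`. -/
  passA : ∀ i, (w.get i).1 = false →
    a i.succ = a i.castSucc ∧ b i.succ = b i.castSucc * m i ∧
      m i * a i.castSucc = a i.castSucc * m i ∧
      ∃ k : ℕ, 0 < k ∧ m i ^ (k * (w.get i).2.den) = a i.castSucc ^ (k * (w.get i).2.num)
  /-- Passing a curve `b` multiplies `a` by the inverse of the meridian, which is a fractional
  power of `b`. -/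
  passB : ∀ i, (w.get i).1 = true →
    b i.succ = b i.castSucc ∧ a i.succ = a i.castSucc * (m i)⁻¹ ∧
      m i * b i.castSucc = b i.castSucc * m i ∧
      ∃ k : ℕ, 0 < k ∧ m i ^ (k * (w.get i).2.den) = b i.castSucc ^ (k * (w.get i).2.num)
  closeA : a (Fin.last w.length) = a 0
  closeB : b (Fin.last w.length) = b 0

/-- A group is left-orderable if it is nontrivial and carries a total order which is invariant
under left multiplication. -/
def LeftOrderable (G : Type*) [Group G] : Prop :=
  Nontrivial G ∧ ∃ _ : LinearOrder G, ∀ f g h : G, g ≤ h → f * g ≤ f * h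

section Aux

open Pool.Agent.Helper71.Rot

/-- The sequence of letters of a word, with the two roundings of the exponents. -/
noncomputable def seq (w : List (Bool × ℚ)) (i : ℕ) : Bool × ℤ × ℤ :=
  ((w.getD i (false, 0)).1, ⌊(w.getD i (false, 0)).2⌋, ⌈(w.getD i (false, 0)).2⌉)

lemma seq_take (w : List (Bool × ℚ)) : ∀ k, k ≤ w.length → ∀ x,
    LW (seq w) k x = floorMap (w.take k) x ∧ HW (seq w) k x = ceilMap (w.take k) x := by
  intro k hk x
  induction k with
  | zero => exact ⟨rfl, rfl⟩
  | succ k ih =>
    have hk' : k < w.length := by omega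
    obtain ⟨i1, i2⟩ := ih (by omega)
    have e1 : seq w k = ((w.get ⟨k, hk'⟩).1, ⌊(w.get ⟨k, hk'⟩).2⌋, ⌈(w.get ⟨k, hk'⟩).2⌉) := by
      simp [seq, hk']
    unfold floorMap at i1 ⊢
    unfold ceilMap at i2 ⊢
    rw [LW_succ, HW_succ, List.take_succ_eq_append_getElem hk', List.foldl_append,
      List.foldl_append, ← i1, ← i2, e1]
    exact ⟨rfl, rfl⟩

lemma seq_map (w : List (Bool × ℚ)) (x : ℝ) :
    LW (seq w) w.length x = floorMap w x ∧ HW (seq w) w.length x = ceilMap w x := by
  have := seq_take w w.length le_rfl x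
  rwa [List.take_length] at this

lemma seq_rotate (w : List (Bool × ℚ)) (i : ℕ) {j : ℕ} (hj : j < w.length) :
    seq w ((i + j) % w.length) = seq (w.rotate i) j := by
  have h1 : (i + j) % w.length < w.length := Nat.mod_lt _ (by omega)
  have h2 : j < (w.rotate i).length := by rw [List.length_rotate]; exact hj
  unfold seq
  rw [List.getD_eq_getElem w (false, 0) h1, List.getD_eq_getElem _ (false, 0) h2,
    List.getElem_rotate]
  simp only [add_comm]

lemma seq_rot_map (w : List (Bool × ℚ)) (i : ℕ) (x : ℝ) :
    LW (fun j => seq w ((i + j) % w.length)) w.length x = floorMap (w.rotate i) x ∧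
      HW (fun j => seq w ((i + j) % w.length)) w.length x = ceilMap (w.rotate i) x := by
  have h1 := LW_congr (W := fun j => seq w ((i + j) % w.length)) (W' := seq (w.rotate i))
    (n := w.length) (fun j hj => seq_rotate w i hj) x
  have h2 := seq_map (w.rotate i) x
  rw [List.length_rotate] at h2
  rw [h1.1, h1.2]
  exact h2

end Aux

open Pool.Agent.Helper71.Rot Pool.Agent.Helper31.OrderAct in
/-- If the word with rounded up exponents moves some point of the line down, the word with rounded
down exponents moves some point up, and for each letter with a non-integral exponent the cyclic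
rotation of the word starting with this letter moves the direction of the curve of the letter
up when rounded down, or down when rounded up, then a group generated by elements satisfying the
relations is not left-orderable. -/
theorem result (w : List (Bool × ℚ))
    (hdown : ∃ x : ℝ, ceilMap w x < x) (hup : ∃ x : ℝ, x < floorMap w x)
    (hdir : ∀ i : Fin w.length, (w.get i).2.den ≠ 1 →
      dir (w.get i).1 < floorMap (w.rotate i) (dir (w.get i).1) ∨
        ceilMap (w.rotate i) (dir (w.get i).1) < dir (w.get i).1)
    (G : Type*) [Group G] (r : Rep G w)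
    (hG : Subgroup.closure (Set.range r.a ∪ Set.range r.b ∪ Set.range r.m) = ⊤) :
    ¬ LeftOrderable G := by
  rintro ⟨hnt, ⟨ho, hmul⟩⟩
  have hn : 0 < w.length := by
    rcases Nat.eq_zero_or_pos w.length with h | h
    · obtain ⟨x, hx⟩ := hup
      rw [List.length_eq_zero_iff] at h
      subst h
      exact absurd hx (lt_irrefl _)
    · exact h
  have hseq : ∀ i (hi : i < w.length), seq w i =
      ((w.get ⟨i, hi⟩).1, ⌊(w.get ⟨i, hi⟩).2⌋, ⌈(w.get ⟨i, hi⟩).2⌉) := by
    intro i hi
    simp [seq, hi]
  -- the action on the lower sets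
  set ρ := cutHom hmul with hρ
  let A : ℕ → G := fun i => r.a ⟨min i w.length, by omega⟩
  let B : ℕ → G := fun i => r.b ⟨min i w.length, by omega⟩
  let M : ℕ → G := fun i => if hi : i < w.length then r.m ⟨i, hi⟩ else 1
  have hcast : ∀ i (hi : i < w.length),
      (⟨min i w.length, by omega⟩ : Fin (w.length + 1)) = (⟨i, hi⟩ : Fin w.length).castSucc := by
    intro i hi
    apply Fin.ext
    simp only [Fin.val_castSucc]
    omega
  have hsucc : ∀ i (hi : i < w.length),
      (⟨min (i + 1) w.length, by omega⟩ : Fin (w.length + 1)) =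
        (⟨i, hi⟩ : Fin w.length).succ := by
    intro i hi
    apply Fin.ext
    simp only [Fin.val_succ]
    omega
  have hlast : (⟨min w.length w.length, by omega⟩ : Fin (w.length + 1)) =
      Fin.last w.length := by
    apply Fin.ext
    simp
  have hzero : (⟨min 0 w.length, by omega⟩ : Fin (w.length + 1)) = 0 := by
    apply Fin.ext
    simp
  have hA0 : ∀ i (hi : i < w.length), A i = r.a (⟨i, hi⟩ : Fin w.length).castSucc ∧
      A (i + 1) = r.a (⟨i, hi⟩ : Fin w.length).succ ∧
      B i = r.b (⟨i, hi⟩ : Fin w.length).castSucc ∧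
      B (i + 1) = r.b (⟨i, hi⟩ : Fin w.length).succ ∧ M i = r.m ⟨i, hi⟩ := by
    intro i hi
    refine ⟨?_, ?_, ?_, ?_, ?_⟩
    · change r.a ⟨min i w.length, _⟩ = _
      rw [hcast i hi]
    · change r.a ⟨min (i + 1) w.length, _⟩ = _
      rw [hsucc i hi]
    · change r.b ⟨min i w.length, _⟩ = _
      rw [hcast i hi]
    · change r.b ⟨min (i + 1) w.length, _⟩ = _
      rw [hsucc i hi]
    · change (if hi : i < w.length then r.m ⟨i, hi⟩ else 1) = _
      rw [dif_pos hi]
  -- the meridians
  have bndA : ∀ i : Fin w.length, (w.get i).1 = false →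
      SB ⌊(w.get i).2⌋ ⌈(w.get i).2⌉ (ρ (r.m i)) (ρ (r.a i.castSucc)) ∧
      SB (-⌈(w.get i).2⌉) (-⌊(w.get i).2⌋) (ρ (r.m i))⁻¹ (ρ (r.a i.castSucc)) := by
    intro i hs
    obtain ⟨p1, p2, p3, k, hk, p4⟩ := r.passA i hs
    have c1 : ρ (r.m i) * ρ (r.a i.castSucc) = ρ (r.a i.castSucc) * ρ (r.m i) := by
      rw [← map_mul, p3, map_mul]
    have c2 : ∃ k : ℕ, 0 < k ∧ ρ (r.m i) ^ (k * (w.get i).2.den) =
        ρ (r.a i.castSucc) ^ (k * (w.get i).2.num) :=
      ⟨k, hk, by rw [← map_pow, p4, map_zpow]⟩
    exact ⟨SB_of_rat c1 _ c2, SB_neg_of_rat c1 _ c2⟩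
  have bndB : ∀ i : Fin w.length, (w.get i).1 = true →
      SB ⌊(w.get i).2⌋ ⌈(w.get i).2⌉ (ρ (r.m i)) (ρ (r.b i.castSucc)) ∧
      SB (-⌈(w.get i).2⌉) (-⌊(w.get i).2⌋) (ρ (r.m i))⁻¹ (ρ (r.b i.castSucc)) := by
    intro i hs
    obtain ⟨p1, p2, p3, k, hk, p4⟩ := r.passB i hs
    have c1 : ρ (r.m i) * ρ (r.b i.castSucc) = ρ (r.b i.castSucc) * ρ (r.m i) := by
      rw [← map_mul, p3, map_mul]
    have c2 : ∃ k : ℕ, 0 < k ∧ ρ (r.m i) ^ (k * (w.get i).2.den) =
        ρ (r.b i.castSucc) ^ (k * (w.get i).2.num) :=
      ⟨k, hk, by rw [← map_pow, p4, map_zpow]⟩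
    exact ⟨SB_of_rat c1 _ c2, SB_neg_of_rat c1 _ c2⟩
  have hfix : ∀ s, ρ (A 0) s = s ∧ ρ (B 0) s = s := by
    intro s
    refine hyp_word_fix (n := w.length) (W := seq w) (a := fun i => ρ (A i))
      (b := fun i => ρ (B i)) (m := fun i => ρ (M i)) hn ?_ ?_ ?_ ?_ ?_ ?_ ?_ ?_ s
    · intro i _
      exact (Int.floor_le_ceil _)
    · intro i hi hs
      obtain ⟨a1, a2, b1, b2, m1⟩ := hA0 i hi
      rw [hseq i hi] at hs ⊢
      obtain ⟨p1, p2, -, -⟩ := r.passA ⟨i, hi⟩ hs
      rw [a1, a2, b1, b2, m1]
      exact ⟨by rw [p1], by rw [p2, map_mul], bndA ⟨i, hi⟩ hs⟩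
    · intro i hi hs
      obtain ⟨a1, a2, b1, b2, m1⟩ := hA0 i hi
      rw [hseq i hi] at hs ⊢
      obtain ⟨p1, p2, -, -⟩ := r.passB ⟨i, hi⟩ hs
      rw [a1, a2, b1, b2, m1]
      exact ⟨by rw [p1], by rw [p2, map_mul, map_inv], bndB ⟨i, hi⟩ hs⟩
    · change ρ (r.a ⟨min w.length w.length, _⟩) = ρ (r.a ⟨min 0 w.length, _⟩)
      rw [hlast, hzero, r.closeA]
    · change ρ (r.b ⟨min w.length w.length, _⟩) = ρ (r.b ⟨min 0 w.length, _⟩)
      rw [hlast, hzero, r.closeB]
    · obtain ⟨x, hx⟩ := hdown
      exact ⟨x, by rw [(seq_map w x).2]; exact hx⟩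
    · obtain ⟨x, hx⟩ := hup
      exact ⟨x, by rw [(seq_map w x).1]; exact hx⟩
    · intro i hi hne
      rw [hseq i hi] at hne ⊢
      rw [(seq_rot_map w i _).1, (seq_rot_map w i _).2]
      have hden : (w.get ⟨i, hi⟩).2.den ≠ 1 := by
        intro h
        apply hne
        have h1 : (w.get ⟨i, hi⟩).2 = ((w.get ⟨i, hi⟩).2.num : ℚ) :=
          (Rat.den_eq_one_iff _).mp h ▸ rfl
        change ⌊(w.get ⟨i, hi⟩).2⌋ = ⌈(w.get ⟨i, hi⟩).2⌉
        rw [h1, Int.floor_intCast, Int.ceil_intCast]
      have h2 := hdir ⟨i, hi⟩ hden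
      have h3 : dir (w.get ⟨i, hi⟩).1 = -cs (w.get ⟨i, hi⟩).1 := by
        unfold dir cs
        cases (w.get ⟨i, hi⟩).1 <;> simp
      rw [h3] at h2
      exact h2
  -- all generators fix every point
  have hab : ∀ (i : Fin (w.length + 1)) (s : LowerSet G), ρ (r.a i) s = s ∧ ρ (r.b i) s = s := by
    intro i s
    induction i using Fin.induction with
    | zero =>
      have h1 := hfix s
      change ρ (r.a ⟨min 0 w.length, _⟩) s = s ∧ ρ (r.b ⟨min 0 w.length, _⟩) s = s at h1
      rw [hzero] at h1
      exact h1
    | succ i ih =>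
      cases hs : (w.get i).1 with
      | false =>
        obtain ⟨p1, p2, -, -⟩ := r.passA i hs
        have hm : ρ (r.m i) s = s := (bndA i hs).1.1.fix ih.1
        rw [p1, p2, map_mul, RelIso.mul_apply, hm]
        exact ih
      | true =>
        obtain ⟨p1, p2, -, -⟩ := r.passB i hs
        have hm : ρ (r.m i) s = s := (bndB i hs).1.1.fix ih.2
        rw [p1, p2, map_mul, map_inv, RelIso.mul_apply, inv_fix hm]
        exact ih
  have hmm : ∀ (i : Fin w.length) (s : LowerSet G), ρ (r.m i) s = s := by
    intro i s
    have ih := hab i.castSucc s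
    cases hs : (w.get i).1 with
    | false => exact (bndA i hs).1.1.fix ih.1
    | true => exact (bndB i hs).1.1.fix ih.2
  have hall : ∀ (g : G) (s : LowerSet G), ρ g s = s := by
    intro g s
    have hg : g ∈ Subgroup.closure (Set.range r.a ∪ Set.range r.b ∪ Set.range r.m) := by
      rw [hG]; trivial
    induction hg using Subgroup.closure_induction with
    | mem y hy =>
      rcases hy with (⟨i, rfl⟩ | ⟨i, rfl⟩) | ⟨i, rfl⟩
      · exact (hab i s).1
      · exact (hab i s).2
      · exact hmm i s
    | one => simp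
    | mul a b _ _ ha hb => rw [map_mul, RelIso.mul_apply, hb, ha]
    | inv a _ ha => rw [map_inv]; exact inv_fix ha
  obtain ⟨x, y, hxy⟩ := exists_pair_ne G
  have key : ∀ x y : G, y ≤ x := by
    intro x y
    have h1 := hall (y * x⁻¹) (LowerSet.Iic x)
    have h2 : y ∈ LowerSet.Iic x := by
      rw [← h1, hρ, mem_cutHom]
      simp
    exact h2
  exact hxy (le_antisymm (key y x) (key x y))

end Pool.Agent.Results.MP_9ae2f3_gt.HyperbolicRationalBraids
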