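import Mathlib
import Pool.Agent.Helper71.LA.Mean

/-!
# An exact formula for the extreme values of L(x)/√x, with recurrence

Let `L(x) = ∑_{n ≤ x} λ(n)` be the summatory function of the Liouville function, let
`U(z) = ∫_0^z (cos(πt²/2) + sin(πt²/2)) dt - 1` and let
`L*(x) = L(x) - 1 - 2 ∑_{m,k ≥ 1} μ(k)/(mk) U(m √(kx))` for `x > 0` (for `x < 1` this is an explicit
analytic function, and `L*(x) - L(x)` tends to `-1` at infinity). Unconditionally, the upper limit
of `L(x)/√x` is the supremum of `L*(x)/√x` over all `x > 0`, the lower limit is the infimum, and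
every level below the upper limit (above the lower limit) is passed in every window
`[X, C X log X]`. The same holds for all combinations `L(x) + ∑ c_j L(x/l_j)` with `l_j > 1` and
`∑ |c_j| ≤ 1`. Moreover a one-sided bound for `M(x)`, or for `L(x) - √x/ζ(1/2)`, on the window
`[X/√(log X), 2X√(log X)]` bounds the mean of its absolute value over `[X, 2X]`.
-/

namespace Pool.Agent.Results.MP_a499ba_nt.LiouvilleExtremes

open Filter Set

/-- The Mertens function `M(x) = ∑_{1 ≤ n ≤ x} μ(n)`. -/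
noncomputable def mertens (x : ℝ) : ℝ :=
  ∑ n ∈ Finset.Icc 1 ⌊x⌋₊, ((ArithmeticFunction.moebius n : ℤ) : ℝ)

/-- The Liouville sum `L(x) = ∑_{1 ≤ n ≤ x} λ(n)`. -/
noncomputable def liouvilleSum (x : ℝ) : ℝ :=
  ∑ n ∈ Finset.Icc 1 ⌊x⌋₊, ((ArithmeticFunction.liouville n : ℤ) : ℝ)

/-- The Fresnel tail `U(z) = ∫_0^z (cos(πt²/2) + sin(πt²/2)) dt - 1`. -/
noncomputable def fresnel (z : ℝ) : ℝ :=
  (∫ t in (0:ℝ)..z, (Real.cos (Real.pi * t ^ 2 / 2) + Real.sin (Real.pi * t ^ 2 / 2))) - 1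

/-- The terms `μ(k)/(mk) U(m √(kx))`, `p = (m, k)` (the terms with `m = 0` or `k = 0` are zero). -/
noncomputable def dualTerm (x : ℝ) (p : ℕ × ℕ) : ℝ :=
  ((ArithmeticFunction.moebius p.2 : ℤ) : ℝ) / (p.1 * p.2) * fresnel (p.1 * √(p.2 * x))

/-- The completed Liouville sum `L*(x) = L(x) - 1 - 2 ∑_{m,k ≥ 1} μ(k)/(mk) U(m √(kx))`, `x > 0`. -/
noncomputable def lstar (x : ℝ) : ℝ := liouvilleSum x - 1 - 2 * ∑' p : ℕ × ℕ, dualTerm x p

/-- The combination `A(x) + ∑_j c_j A(x/l_j)`. -/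
noncomputable def comb (A : ℝ → ℝ) {n : ℕ} (c l : Fin n → ℝ) (x : ℝ) : ℝ :=
  A x + ∑ j, c j * A (x / l j)

open Pool.Agent.Helper71.LA in
theorem fresnel_eq (z : ℝ) : fresnel z = U z := rfl

open Pool.Agent.Helper71.LA Pool.Agent.Helper18.ES in
theorem dual_bd {x : ℝ} (hx : 0 < x) (p : ℕ × ℕ) : ‖dualTerm x p‖ ≤
    3 * x ^ (-(1 / 4) : ℝ) * ((1 / (p.1 : ℝ) ^ (3 / 2 : ℝ)) * (1 / (p.2 : ℝ) ^ (5 / 4 : ℝ))) := by
  obtain ⟨m, k⟩ := p
  simp only
  have hr : 0 ≤ 3 * x ^ (-(1 / 4) : ℝ) * ((1 / (m : ℝ) ^ (3 / 2 : ℝ)) * (1 / (k : ℝ) ^ (5 / 4 : ℝ))) := by positivity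
  rcases Nat.eq_zero_or_pos m with h | h
  · have e : dualTerm x (m, k) = 0 := by simp [dualTerm, h]
    rw [e, norm_zero]; exact hr
  rcases Nat.eq_zero_or_pos k with h' | h'
  · have e : dualTerm x (m, k) = 0 := by simp [dualTerm, h']
    rw [e, norm_zero]; exact hr
  have hm : (0:ℝ) < m := by exact_mod_cast h
  have hk : (0:ℝ) < k := by exact_mod_cast h'
  unfold dualTerm
  simp only
  rw [fresnel_eq, Real.norm_eq_abs, abs_mul, abs_div, abs_of_pos (by positivity : 0 < (m : ℝ) * k)]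
  have h1 := U_le_rt (z := m * √(k * x)) (by positivity)
  have e1 : (m * √(k * x)) ^ (-(1 / 2) : ℝ) = (m : ℝ) ^ (-(1 / 2) : ℝ) * ((k : ℝ) ^ (-(1 / 4) : ℝ) * x ^ (-(1 / 4) : ℝ)) := by
    rw [Real.mul_rpow hm.le (Real.sqrt_nonneg _), Real.sqrt_eq_rpow, ← Real.rpow_mul (by positivity),
      Real.mul_rpow hk.le hx.le]
    norm_num
  rw [e1] at h1
  have h2 : |((ArithmeticFunction.moebius k : ℤ) : ℝ)| ≤ 1 := mu_le k
  calc |((ArithmeticFunction.moebius k : ℤ) : ℝ)| / (m * k) * |U (m * √(k * x))|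
      ≤ 1 / (m * k) * (3 * ((m : ℝ) ^ (-(1 / 2) : ℝ) * ((k : ℝ) ^ (-(1 / 4) : ℝ) * x ^ (-(1 / 4) : ℝ)))) := by
        apply mul_le_mul _ h1 (abs_nonneg _) (by positivity)
        exact div_le_div_of_nonneg_right h2 (by positivity)
    _ = _ := by
        rw [show (5 / 4 : ℝ) = 1 + 1 / 4 by norm_num, show (3 / 2 : ℝ) = 1 + 1 / 2 by norm_num, Real.rpow_add hk,
          Real.rpow_add hm, Real.rpow_one, Real.rpow_one, Real.rpow_neg hk.le, Real.rpow_neg hm.le]
        field_simp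

open Pool.Agent.Helper71.LA Pool.Agent.Helper71.MR in
theorem dual_summable {x : ℝ} (hx : 0 < x) : Summable (dualTerm x) := by
  apply Summable.of_norm_bounded _ (dual_bd hx)
  apply Summable.mul_left
  exact summable_32.mul_of_nonneg summable_54 (fun _ => by positivity) (fun _ => by positivity)

open Pool.Agent.Helper71.LA Pool.Agent.Helper18.ES in
theorem dual_eq {x : ℝ} (hx : 0 < x) : 2 * ∑' p : ℕ × ℕ, dualTerm x p = II x := by
  unfold II
  congr 1
  rw [(dual_summable hx).tsum_prod]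
  apply tsum_congr
  intro m
  unfold q
  rw [← tsum_mul_left]
  apply tsum_congr
  intro k
  unfold dualTerm
  simp only
  rw [fresnel_eq]
  have e : √((k : ℝ) * ((m : ℝ) ^ 2 * x)) = m * √(k * x) := by
    rw [show (k : ℝ) * ((m : ℝ) ^ 2 * x) = (m : ℝ) ^ 2 * (k * x) by ring, Real.sqrt_mul (by positivity),
      Real.sqrt_sq (Nat.cast_nonneg m)]
  rw [e]
  have : ((ArithmeticFunction.moebius k : ℤ) : ℝ) = mu k := rfl
  rw [this, ← mul_assoc, div_mul_div_comm, one_mul]

theorem exp_half_neg (t : ℝ) : √(Real.exp t) * Real.exp (-t / 2) = 1 := by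
  rw [← Real.exp_half, ← Real.exp_add, show t / 2 + -t / 2 = 0 by ring, Real.exp_zero]

open Pool.Agent.Helper71.LA Pool.Agent.Helper18.ES in
theorem lstar_exp (t : ℝ) : lstar (Real.exp t) * Real.exp (-t / 2) = Lf t + bb := by
  unfold lstar Lf
  rw [dual_eq (Real.exp_pos t)]
  have : liouvilleSum (Real.exp t) = S lam (Real.exp t) := rfl
  rw [this]; ring

/-- normalised combination of completed sums -/
noncomputable def g {n : ℕ} (c l : Fin n → ℝ) (x : ℝ) : ℝ := comb lstar c l x / √x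

/-- normalised combination of sums -/
noncomputable def f {n : ℕ} (c l : Fin n → ℝ) (x : ℝ) : ℝ := comb liouvilleSum c l x / √x

open Pool.Agent.Helper71.LA Pool.Agent.Helper18.ES in
theorem g_exp {n : ℕ} (c l : Fin n → ℝ) (hl : ∀ j, 1 < l j) (t : ℝ) : g c l (Real.exp t) =
    (Lf t + ∑ j, (c j / √(l j)) * Lf (t - Real.log (l j))) + bb * (1 + ∑ j, c j / √(l j)) := by
  have h0 : ∀ y : ℝ, y / √(Real.exp t) = y * Real.exp (-t / 2) := by
    intro y
    have h1 := exp_half_neg t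
    have h2 : 0 < √(Real.exp t) := Real.sqrt_pos.mpr (Real.exp_pos t)
    rw [div_eq_iff h2.ne']
    linear_combination (-y) * h1
  unfold g comb
  rw [h0, add_mul, lstar_exp, Finset.sum_mul]
  have h3 : ∀ j, c j * lstar (Real.exp t / l j) * Real.exp (-t / 2) =
      (c j / √(l j)) * Lf (t - Real.log (l j)) + bb * (c j / √(l j)) := by
    intro j
    have hj : 0 < l j := by linarith [hl j]
    have hs : 0 < √(l j) := Real.sqrt_pos.mpr hj
    have e1 : Real.exp t / l j = Real.exp (t - Real.log (l j)) := by rw [Real.exp_sub, Real.exp_log hj]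
    have e2 : Real.exp (-t / 2) = Real.exp (-(t - Real.log (l j)) / 2) / √(l j) := by
      rw [eq_div_iff hs.ne']
      have : √(l j) = Real.exp (Real.log (l j) / 2) := by
        rw [Real.exp_half, Real.exp_log hj]
      rw [this, ← Real.exp_add]; congr 1; ring
    have e3 := lstar_exp (t - Real.log (l j))
    rw [e1, e2]
    calc _ = (c j / √(l j)) * (lstar (Real.exp (t - Real.log (l j))) * Real.exp (-(t - Real.log (l j)) / 2)) := by ring
      _ = _ := by rw [e3]; ring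
  simp_rw [h3]
  rw [Finset.sum_add_distrib, ← Finset.mul_sum]
  ring

open Pool.Agent.Helper71.LA Pool.Agent.Helper18.ES in
theorem lstar_sub {x : ℝ} (hx : 1 ≤ x) : |lstar x - liouvilleSum x| ≤ 1 + CI := by
  have hx0 : 0 < x := by linarith
  have h1 : lstar x - liouvilleSum x = -1 - II x := by
    unfold lstar
    rw [dual_eq hx0]; ring
  have h2 := II_le hx0
  have h3 : x ^ (-(1 / 4) : ℝ) ≤ 1 := Real.rpow_le_one_of_one_le_of_nonpos hx (by norm_num)
  have h4 := mul_le_mul_of_nonneg_left h3 CI_nonneg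
  rw [mul_one] at h4
  have h5 := abs_le.mp (h2.trans h4)
  rw [h1, abs_le]
  constructor <;> linarith [h5.1, h5.2]

open Pool.Agent.Helper71.LA in
theorem diff_small {n : ℕ} (c l : Fin n → ℝ) (hl : ∀ j, 1 < l j) {η : ℝ} (hη : 0 < η) :
    ∀ᶠ x in atTop, |g c l x - f c l x| ≤ η := by
  have hC := CI_nonneg
  set D : ℝ := (1 + CI) * (1 + ∑ j, |c j|) with hD
  have hD0 : 0 < D := by
    have : 0 ≤ ∑ j, |c j| := Finset.sum_nonneg (fun j _ => abs_nonneg _)
    positivity
  have h1 : ∀ᶠ x : ℝ in atTop, ∀ j, l j ≤ x := eventually_all.mpr (fun j => eventually_ge_atTop (l j))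
  filter_upwards [h1, eventually_ge_atTop (1:ℝ), eventually_ge_atTop ((D / η) ^ 2)] with x hx1 hx2 hx3
  have hx0 : 0 < x := by linarith
  have hr : 0 < √x := Real.sqrt_pos.mpr hx0
  have h2 : D / η ≤ √x := by
    rw [← Real.sqrt_sq (by positivity : 0 ≤ D / η)]
    exact Real.sqrt_le_sqrt hx3
  have h3 : g c l x - f c l x = ((lstar x - liouvilleSum x) +
      ∑ j, c j * (lstar (x / l j) - liouvilleSum (x / l j))) / √x := by
    unfold g f comb
    rw [← sub_div]
    congr 1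
    simp_rw [mul_sub]
    rw [Finset.sum_sub_distrib]
    ring
  have h4 : |(lstar x - liouvilleSum x) + ∑ j, c j * (lstar (x / l j) - liouvilleSum (x / l j))| ≤ D := by
    refine (abs_add_le _ _).trans ?_
    rw [hD, mul_add, mul_one]
    apply add_le_add (lstar_sub hx2)
    refine (Finset.abs_sum_le_sum_abs _ _).trans ?_
    rw [Finset.mul_sum]
    apply Finset.sum_le_sum
    intro j _
    have hj : 0 < l j := by linarith [hl j]
    rw [abs_mul, mul_comm]
    apply mul_le_mul_of_nonneg_right _ (abs_nonneg _)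
    apply lstar_sub
    rw [one_le_div hj]
    exact hx1 j
  rw [h3, abs_div, abs_of_pos hr, div_le_iff₀ hr]
  rw [div_le_iff₀ hη] at h2
  linarith

open Pool.Agent.Helper71.LA Pool.Agent.Helper71.MA Pool.Agent.Helper18.ES in
/-- recurrence in multiplicative form, for a sign `σ` -/
theorem windows {n : ℕ} (c l : Fin n → ℝ) (hc : ∑ j, |c j| ≤ 1) (hl : ∀ j, 1 < l j) {σ K : ℝ} (hσ : |σ| = 1)
    {x₀ : ℝ} (hx₀ : 0 < x₀) (h : K < σ * g c l x₀) :
    ∃ C : ℝ, 0 < C ∧ ∀ X : ℝ, C ≤ X → ∃ x ∈ Icc X (C * X * Real.log X), K < σ * f c l x := by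
  set K' : ℝ := (K + σ * g c l x₀) / 2 with hK'
  have hK1 : K < K' := by rw [hK']; linarith
  have hK2 : K' < σ * g c l x₀ := by rw [hK']; linarith
  set β : ℝ := bb * (1 + ∑ j, c j / √(l j)) with hβ
  obtain ⟨A, hS⟩ := sys
  obtain ⟨A', hS'⟩ := hS.comb Finset.univ (fun j => c j / √(l j)) (fun j => Real.log (l j))
  have hls : ∀ j, 0 < Real.log (l j) := fun j => Real.log_pos (hl j)
  have hne : Pool.Agent.Helper71.MA.Ne (fun w => cf el w * (1 + ∑ j, ((c j / √(l j) : ℝ) : ℂ) *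
      Complex.exp (-(w * (Real.log (l j) : ℝ))))) 1 := by
    intro w hw h0
    have h1 := ne_el w hw h0
    refine mul_ne_zero h1 (comb_ne Finset.univ (fun j _ => hls j) ?_ (by linarith))
    refine le_trans (le_of_eq ?_) hc
    apply Finset.sum_congr rfl
    intro j _
    have hj : 0 < l j := by linarith [hl j]
    have hs : 0 < √(l j) := Real.sqrt_pos.mpr hj
    rw [Real.exp_half, Real.exp_log hj, abs_div, abs_of_pos hs]
    field_simp
  have h2 : K' - σ * β < σ * (Lf (Real.log x₀) + ∑ j, (c j / √(l j)) * Lf (Real.log x₀ - Real.log (l j))) := by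
    have e := g_exp c l hl (Real.log x₀)
    rw [Real.exp_log hx₀] at e
    rw [e] at hK2
    linarith
  obtain ⟨C1, h3⟩ := recur hS' hσ (Or.inl rfl) hne h2
  obtain ⟨T1, hT1⟩ := eventually_atTop.mp (diff_small c l hl (η := K' - K) (by linarith))
  set D : ℝ := max (max C1 (max T1 0)) 1 with hD
  have hD1 : C1 ≤ D := (le_max_left _ _).trans (le_max_left _ _)
  have hD2 : T1 ≤ D := (le_max_left _ _).trans ((le_max_right _ _).trans (le_max_left _ _))
  have hD3 : 1 ≤ D := le_max_right _ _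
  refine ⟨Real.exp D, Real.exp_pos _, ?_⟩
  intro X hX
  have hX0 : 0 < X := (Real.exp_pos _).trans_le hX
  have hT : D ≤ Real.log X := by
    rw [← Real.log_exp D]
    exact Real.log_le_log (Real.exp_pos _) hX
  have hT0 : 0 < Real.log X := by linarith
  obtain ⟨t, ht, ht2⟩ := h3 (Real.log X) (hD1.trans hT)
  have hlow : X ≤ Real.exp t := by
    calc X = Real.exp (Real.log X) := (Real.exp_log hX0).symm
      _ ≤ _ := Real.exp_le_exp.mpr ht.1
  refine ⟨Real.exp t, ⟨hlow, ?_⟩, ?_⟩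
  · calc Real.exp t ≤ Real.exp (Real.log X + Real.log (Real.log X) + D) :=
          Real.exp_le_exp.mpr (ht.2.trans (by linarith))
      _ = Real.exp D * X * Real.log X := by
          rw [Real.exp_add, Real.exp_add, Real.exp_log hX0, Real.exp_log hT0]; ring
  · have h4 : K' < σ * g c l (Real.exp t) := by
      rw [g_exp c l hl t]
      rw [one_mul] at ht2
      linarith
    have hXT : T1 ≤ Real.exp t := by
      have := Real.add_one_le_exp D
      linarith
    have h5 := hT1 _ hXT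
    have h6 : |σ * (g c l (Real.exp t) - f c l (Real.exp t))| ≤ K' - K := by
      rw [abs_mul, hσ, one_mul]; exact h5
    have h7 := (abs_le.mp h6).2
    have h8 : σ * (g c l (Real.exp t) - f c l (Real.exp t)) = σ * g c l (Real.exp t) - σ * f c l (Real.exp t) := by ring
    linarith

variable {n : ℕ} (c l : Fin n → ℝ)

theorem limsup_le (hl : ∀ j, 1 < l j) :
    limsup (fun x : ℝ => ((f c l x : ℝ) : EReal)) atTop ≤ ⨆ x ∈ Ioi (0:ℝ), ((g c l x : ℝ) : EReal) := by
  by_contra hcon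
  push Not at hcon
  obtain ⟨q, hq1, hq2⟩ := EReal.lt_iff_exists_real_btwn.mp hcon
  obtain ⟨q', hq3, hq4⟩ := EReal.lt_iff_exists_real_btwn.mp hq2
  have hqq : q < q' := by exact_mod_cast hq3
  have h1 : ∃ᶠ x in atTop, ((q' : ℝ) : EReal) < ((f c l x : ℝ) : EReal) :=
    frequently_lt_of_lt_limsup (by isBoundedDefault) hq4
  have h2 := diff_small c l hl (η := q' - q) (by linarith)
  obtain ⟨x, hx1, hx2, hx3⟩ := (h1.and_eventually (h2.and (eventually_gt_atTop 0))).exists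
  have h3 : q' < f c l x := by exact_mod_cast hx1
  have h4 := abs_le.mp hx2
  have h5 : q < g c l x := by linarith [h4.1]
  have h6 : ((g c l x : ℝ) : EReal) ≤ ⨆ x ∈ Ioi (0:ℝ), ((g c l x : ℝ) : EReal) :=
    le_iSup₂ (f := fun (x : ℝ) (_ : x ∈ Ioi (0:ℝ)) => ((g c l x : ℝ) : EReal)) x hx3
  have h7 : ((g c l x : ℝ) : EReal) < (q : EReal) := h6.trans_lt hq1
  have h8 : g c l x < q := by exact_mod_cast h7
  linarith

theorem le_liminf (hl : ∀ j, 1 < l j) :
    (⨅ x ∈ Ioi (0:ℝ), ((g c l x : ℝ) : EReal)) ≤ liminf (fun x : ℝ => ((f c l x : ℝ) : EReal)) atTop := by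
  by_contra hcon
  push Not at hcon
  obtain ⟨q, hq1, hq2⟩ := EReal.lt_iff_exists_real_btwn.mp hcon
  obtain ⟨q', hq3, hq4⟩ := EReal.lt_iff_exists_real_btwn.mp hq1
  have hqq : q' < q := by exact_mod_cast hq4
  have h1 : ∃ᶠ x in atTop, ((f c l x : ℝ) : EReal) < ((q' : ℝ) : EReal) :=
    frequently_lt_of_liminf_lt (by isBoundedDefault) hq3
  have h2 := diff_small c l hl (η := q - q') (by linarith)
  obtain ⟨x, hx1, hx2, hx3⟩ := (h1.and_eventually (h2.and (eventually_gt_atTop 0))).exists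
  have h3 : f c l x < q' := by exact_mod_cast hx1
  have h4 := abs_le.mp hx2
  have h5 : g c l x < q := by linarith [h4.2]
  have h6 : (⨅ x ∈ Ioi (0:ℝ), ((g c l x : ℝ) : EReal)) ≤ ((g c l x : ℝ) : EReal) :=
    iInf₂_le (f := fun (x : ℝ) (_ : x ∈ Ioi (0:ℝ)) => ((g c l x : ℝ) : EReal)) x hx3
  have h7 : (q : EReal) < ((g c l x : ℝ) : EReal) := hq2.trans_le h6
  have h8 : q < g c l x := by exact_mod_cast h7
  linarith

theorem sup_le_limsup (hc : ∑ j, |c j| ≤ 1) (hl : ∀ j, 1 < l j) {x₀ : ℝ} (hx₀ : 0 < x₀) :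
    ((g c l x₀ : ℝ) : EReal) ≤ limsup (fun x : ℝ => ((f c l x : ℝ) : EReal)) atTop := by
  by_contra hcon
  push Not at hcon
  obtain ⟨q, hq1, hq2⟩ := EReal.lt_iff_exists_real_btwn.mp hcon
  have h0 : q < 1 * g c l x₀ := by rw [one_mul]; exact_mod_cast hq2
  obtain ⟨C, hC, h⟩ := windows c l hc hl (σ := 1) (by norm_num) hx₀ h0
  have h1 : ∃ᶠ x in atTop, ((q : ℝ) : EReal) ≤ ((f c l x : ℝ) : EReal) := by
    rw [frequently_atTop]
    intro a
    obtain ⟨x, hx, hx2⟩ := h (max a C) (le_max_right _ _)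
    refine ⟨x, (le_max_left _ _).trans hx.1, ?_⟩
    rw [one_mul] at hx2
    exact_mod_cast hx2.le
  have h2 := le_limsup_of_frequently_le h1 (by isBoundedDefault)
  exact absurd (hq1.trans_le h2) (lt_irrefl _)

theorem liminf_le_inf (hc : ∑ j, |c j| ≤ 1) (hl : ∀ j, 1 < l j) {x₀ : ℝ} (hx₀ : 0 < x₀) :
    liminf (fun x : ℝ => ((f c l x : ℝ) : EReal)) atTop ≤ ((g c l x₀ : ℝ) : EReal) := by
  by_contra hcon
  push Not at hcon
  obtain ⟨q, hq1, hq2⟩ := EReal.lt_iff_exists_real_btwn.mp hcon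
  have h0 : -q < -1 * g c l x₀ := by
    have : g c l x₀ < q := by exact_mod_cast hq1
    linarith
  obtain ⟨C, hC, h⟩ := windows c l hc hl (σ := -1) (by norm_num) hx₀ h0
  have h1 : ∃ᶠ x in atTop, ((f c l x : ℝ) : EReal) ≤ ((q : ℝ) : EReal) := by
    rw [frequently_atTop]
    intro a
    obtain ⟨x, hx, hx2⟩ := h (max a C) (le_max_right _ _)
    refine ⟨x, (le_max_left _ _).trans hx.1, ?_⟩
    have : f c l x ≤ q := by linarith
    exact_mod_cast this
  have h2 := liminf_le_of_frequently_le h1 (by isBoundedDefault)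
  exact absurd (hq2.trans_le h2) (lt_irrefl _)

open Pool.Agent.Helper71.LA Pool.Agent.Helper71.MA Pool.Agent.Helper71.MR Pool.Agent.Helper18.ES in
theorem mean_L {σ : ℝ} (hσ : |σ| = 1) : ∃ C : ℝ, 0 < C ∧ ∀ X K : ℝ, C ≤ X → 0 ≤ K →
      (∀ x ∈ Icc (X / √(Real.log X)) (2 * X * √(Real.log X)),
        σ * (liouvilleSum x - √x / (riemannZeta (1 / 2)).re) ≤ K * √x) →
      ∫ x in X..(2 * X), |liouvilleSum x - √x / (riemannZeta (1 / 2)).re| ≤ C * (K + 1) * (X * √X) := by
  obtain ⟨A, hS⟩ := sys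
  have hC := CI_nonneg
  refine mean_A hS (B := fun x => liouvilleSum x - √x / (riemannZeta (1 / 2)).re) (D := 1 + CI) (by positivity) ?_ hσ
  intro t ht
  have h1 := lstar_sub (Real.one_le_exp ht)
  have h2 := lstar_exp t
  have h3 := exp_half_neg t
  have h4 : (liouvilleSum (Real.exp t) - √(Real.exp t) / (riemannZeta (1 / 2)).re) * Real.exp (-t / 2) - Lf t =
      -((lstar (Real.exp t) - liouvilleSum (Real.exp t)) * Real.exp (-t / 2)) := by
    unfold bb at h2
    linear_combination h2 - (1 / (riemannZeta (1 / 2)).re) * h3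
  rw [h4, abs_neg, abs_mul, abs_of_pos (Real.exp_pos _)]
  have h5 : Real.exp (-t / 2) ≤ 1 := Real.exp_le_one_iff.mpr (by linarith)
  have := abs_nonneg (lstar (Real.exp t) - liouvilleSum (Real.exp t))
  nlinarith [Real.exp_pos (-t / 2)]

open Pool.Agent.Helper71.LA Pool.Agent.Helper71.MA Pool.Agent.Helper71.MR Pool.Agent.Helper18.ES in
theorem mean_M {σ : ℝ} (hσ : |σ| = 1) : ∃ C : ℝ, 0 < C ∧ ∀ X K : ℝ, C ≤ X → 0 ≤ K →
      (∀ x ∈ Icc (X / √(Real.log X)) (2 * X * √(Real.log X)), σ * mertens x ≤ K * √x) →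
      ∫ x in X..(2 * X), |mertens x| ≤ C * (K + 1) * (X * √X) := by
  have hC := C54_nonneg
  refine mean_A sys_ms (B := mertens) (D := 2 * (2 + 2 * C54)) (by positivity) ?_ hσ
  intro t ht
  have h1 := rr_small ht
  have h2 : mertens (Real.exp t) * Real.exp (-t / 2) = mm t := rfl
  have h3 : mm t - ms t = -rr t := by unfold ms; ring
  rw [h2, h3, abs_neg]
  exact h1

/-- Exact formula for the upper and lower limits of `L(x)/√x` (and of the combinations
`(L(x) + ∑ c_j L(x/l_j))/√x`, `l_j > 1`, `∑ |c_j| ≤ 1`) by the completed sum `L*`, recurrence of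
every level in every window `[X, C X log X]`, and control of the mean of the absolute value by a
one-sided bound. No hypothesis is assumed. -/
theorem result :
    (∀ x : ℝ, 0 < x → Summable (dualTerm x)) ∧
    (∀ (n : ℕ) (c l : Fin n → ℝ), (∀ j, 1 < l j) → ∑ j, |c j| ≤ 1 →
      limsup (fun x : ℝ => ((comb liouvilleSum c l x / √x : ℝ) : EReal)) atTop =
        ⨆ x ∈ Ioi (0:ℝ), ((comb lstar c l x / √x : ℝ) : EReal) ∧
      liminf (fun x : ℝ => ((comb liouvilleSum c l x / √x : ℝ) : EReal)) atTop =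
        ⨅ x ∈ Ioi (0:ℝ), ((comb lstar c l x / √x : ℝ) : EReal) ∧
      (∀ K : ℝ, (K : EReal) < limsup (fun x : ℝ => ((comb liouvilleSum c l x / √x : ℝ) : EReal)) atTop →
        ∃ C : ℝ, 0 < C ∧ ∀ X : ℝ, C ≤ X →
          ∃ x ∈ Icc X (C * X * Real.log X), K < comb liouvilleSum c l x / √x) ∧
      (∀ K : ℝ, liminf (fun x : ℝ => ((comb liouvilleSum c l x / √x : ℝ) : EReal)) atTop < (K : EReal) →
        ∃ C : ℝ, 0 < C ∧ ∀ X : ℝ, C ≤ X →
          ∃ x ∈ Icc X (C * X * Real.log X), comb liouvilleSum c l x / √x < K)) ∧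
    (∀ A : ℝ → ℝ, (A = mertens ∨ A = fun x => liouvilleSum x - √x / (riemannZeta (1 / 2)).re) →
      ∀ σ : ℝ, (σ = 1 ∨ σ = -1) → ∃ C : ℝ, 0 < C ∧ ∀ X K : ℝ, C ≤ X → 0 ≤ K →
        (∀ x ∈ Icc (X / √(Real.log X)) (2 * X * √(Real.log X)), σ * A x ≤ K * √x) →
        ∫ x in X..(2 * X), |A x| ≤ C * (K + 1) * (X * √X)) := by
  refine ⟨fun x hx => dual_summable hx, ?_, ?_⟩
  · intro n c l hl hc
    refine ⟨?_, ?_, ?_, ?_⟩
    · exact le_antisymm (limsup_le c l hl) (iSup₂_le fun _ hx => sup_le_limsup c l hc hl hx)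
    · exact le_antisymm (le_iInf₂ fun _ hx => liminf_le_inf c l hc hl hx) (le_liminf c l hl)
    · intro K hK
      have h1 : (K : EReal) < ⨆ x ∈ Ioi (0:ℝ), ((g c l x : ℝ) : EReal) := hK.trans_le (limsup_le c l hl)
      simp only [lt_iSup_iff] at h1
      obtain ⟨x₀, hx₀, h2⟩ := h1
      have h3 : K < 1 * g c l x₀ := by rw [one_mul]; exact_mod_cast h2
      obtain ⟨C, hC, h⟩ := windows c l hc hl (σ := 1) (by norm_num) hx₀ h3
      refine ⟨C, hC, fun X hX => ?_⟩
      obtain ⟨x, hx, hx2⟩ := h X hX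
      rw [one_mul] at hx2
      exact ⟨x, hx, hx2⟩
    · intro K hK
      have h1 : (⨅ x ∈ Ioi (0:ℝ), ((g c l x : ℝ) : EReal)) < (K : EReal) := (le_liminf c l hl).trans_lt hK
      simp only [iInf_lt_iff] at h1
      obtain ⟨x₀, hx₀, h2⟩ := h1
      have h3 : -K < -1 * g c l x₀ := by
        have : g c l x₀ < K := by exact_mod_cast h2
        linarith
      obtain ⟨C, hC, h⟩ := windows c l hc hl (σ := -1) (by norm_num) hx₀ h3
      refine ⟨C, hC, fun X hX => ?_⟩
      obtain ⟨x, hx, hx2⟩ := h X hX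
      refine ⟨x, hx, ?_⟩
      have : f c l x < K := by linarith
      exact this
  · intro A hA σ hσ
    have hσ1 : |σ| = 1 := by rcases hσ with h | h <;> rw [h] <;> norm_num
    rcases hA with h | h
    · subst h; exact mean_M hσ1
    · subst h; exact mean_L hσ1

end Pool.Agent.Results.MP_a499ba_nt.LiouvilleExtremes
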