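import Pool.Agent.Helper60.GTC.Link
import Pool.Agent.Helper60.GTC.DivEff
import Pool.Agent.Helper60.GC9.ArithT
import Pool.Agent.Helper71.OP.Stab2

/-!
# The Galois coniveau filtration of powers of abelian varieties: one place is enough

`V = ℂ^{2g}` is the first `ℓ`-adic cohomology of an abelian variety `A` over a number field
(coefficients extended to `ℚ̄_ℓ ≅ ℂ`), a sum of blocks `V_c` orthogonal for a Weil pairing;
the cohomology of the power `Aⁿ` is the exterior algebra of `Vⁿ`.  `𝓕` is the set of the pairs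
(number of elements of the residue field, Frobenius) for the places of good reduction prime to
`ℓ`.  Main assumptions: the blocks other than the torus blocks (the planes belonging to elliptic
curves with complex multiplication) are strongly irreducible (Faltings, if the endomorphism
algebras over the algebraic closure are totally real fields), and at one place there are no
exceptional relations `α β = ζ γ δ` (`ζ` a root of unity) between the eigenvalues of the Frobenius.
-/

set_option autoImplicit false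

namespace Pool.Agent.Results.MP_8abef2_ag.OnePlaceMonodromy

open Module Polynomial

section Coniveau

/-! ### The coniveau filtrations, for any set `Fr` of pairs (`q`, Frobenius on `W`) -/

variable {W : Type} [AddCommGroup W] [Module ℂ W]

/-- `U ⊆ Λⁱ W` is a subrepresentation such that `U(ν)` is effective of weight `i - 2ν`:
`U` is stable under all Frobenii, and for every eigenvalue `β` of a Frobenius `(q, Φ)` on `U`
both `β / q ^ ν` and `q ^ (i - ν) / β = q ^ (i - 2ν) / (β / q ^ ν)` are algebraic integers. -/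
structure IsEffective (Fr : Set (ℕ × (W →ₗ[ℂ] W))) (i ν : ℕ)
    (U : Submodule ℂ (ExteriorAlgebra ℂ W)) : Prop where
  le : U ≤ ⋀[ℂ]^i W
  stable : ∀ z ∈ Fr, ∀ x ∈ U, ExteriorAlgebra.map z.2 x ∈ U
  integral : ∀ z ∈ Fr, ∀ x ∈ U, x ≠ 0 → ∀ β : ℂ, ExteriorAlgebra.map z.2 x = β • x →
    IsIntegral ℤ (β / (z.1 : ℂ) ^ ν) ∧ IsIntegral ℤ ((z.1 : ℂ) ^ (i - ν) / β)

/-- The Galois coniveau: the span of all subrepresentations `U` of `Λⁱ W` such that `U(ν)` is
effective of weight `i - 2ν`. -/
noncomputable def galoisConiveau (Fr : Set (ℕ × (W →ₗ[ℂ] W))) (i ν : ℕ) :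
    Submodule ℂ (ExteriorAlgebra ℂ W) :=
  sSup {U | IsEffective Fr i ν U}

/-- A Tate class of degree two: all Frobenii `(q, Φ)` multiply it by `q`. -/
def IsDivisorClass (Fr : Set (ℕ × (W →ₗ[ℂ] W))) (d : ExteriorAlgebra ℂ W) : Prop :=
  d ∈ ⋀[ℂ]^2 W ∧ ∀ z ∈ Fr, ExteriorAlgebra.map z.2 d = (z.1 : ℂ) • d

/-- The span of all products `d₁ ⋯ d_ν w` with divisor classes `d_k` and `w ∈ Λ^(i-2ν) W`. -/
noncomputable def divisorConiveau (Fr : Set (ℕ × (W →ₗ[ℂ] W))) (i ν : ℕ) :
    Submodule ℂ (ExteriorAlgebra ℂ W) :=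
  Submodule.span ℂ {x | ∃ (d : Fin ν → ExteriorAlgebra ℂ W) (w : ExteriorAlgebra ℂ W),
    (∀ k, IsDivisorClass Fr (d k)) ∧ w ∈ ⋀[ℂ]^(i - 2 * ν) W ∧ x = (List.ofFn d).prod * w}

end Coniveau

section Defs

/-! ### Systems of Frobenii with big monodromy -/

variable {g m : ℕ}

/-- Index set of the standard basis of `V = ℂ^{2g}`: `inl i` for `e_i`, `inr i` for `f_i`. -/
abbrev Ind (g : ℕ) : Type := Fin g ⊕ Fin g

/-- The index `i` of the two basis vectors `e_i` and `f_i`. -/
def idx (r : Ind g) : Fin g := Sum.elim id id r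

/-- `X` is a similitude with multiplier `c` of the standard symplectic form `Matrix.J`, maps
each block `V_c = ⟨e_i, f_i : col i = c⟩` to itself, and is diagonal on the blocks `V_c`, `c ∈ tor`
(the torus blocks). -/
structure IsSimilitude (col : Fin g → Fin m) (tor : Finset (Fin m)) (c : ℂ)
    (X : Matrix (Ind g) (Ind g) ℂ) : Prop where
  form : X.transpose * Matrix.J (Fin g) ℂ * X = c • Matrix.J (Fin g) ℂ
  blocks : ∀ r s, col (idx r) ≠ col (idx s) → X r s = 0
  torus : ∀ r s, r ≠ s → col (idx r) ∈ tor → X r s = 0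

/-- Half of the dimension of the block `V_c`. -/
def halfDim (col : Fin g → Fin m) (c : Fin m) : ℕ :=
  (Finset.univ.filter (fun i => col i = c)).card

/-- The characteristic polynomial of `M` on the block `V_c`. -/
noncomputable def blockPoly (col : Fin g → Fin m) (c : Fin m) (M : Matrix (Ind g) (Ind g) ℂ) :
    ℂ[X] :=
  Matrix.charpoly (M.submatrix (Subtype.val : {r : Ind g // col (idx r) = c} → Ind g)
    (Subtype.val : {r : Ind g // col (idx r) = c} → Ind g))

/-- `M` is semisimple with characteristic polynomial in `ℤ[T]` and eigenvalues of absolute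
value `√q` (a Weil `q`-matrix of weight one). -/
structure IsWeil (q : ℕ) (M : Matrix (Ind g) (Ind g) ℂ) : Prop where
  two_le : 2 ≤ q
  semisimple : Module.End.IsSemisimple (Matrix.toLin' M)
  integral : ∃ P : ℤ[X], P.map (Int.castRingHom ℂ) = M.charpoly
  norm : ∀ β : ℂ, M.charpoly.IsRoot β → ‖β‖ = Real.sqrt q

/-- A system of Frobenii `(q, M)`: `M` is a Weil `q`-matrix and a similitude with multiplier `q`
which respects the blocks; moreover (Chebotarev) the `M` with `(p, M) ∈ 𝓕`, `p` prime, are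
Zariski dense in the monoid generated by all Frobenii: every polynomial in the entries which
vanishes at all these `M` vanishes on this monoid. -/
structure IsSystem (col : Fin g → Fin m) (tor : Finset (Fin m))
    (𝓕 : Set (ℕ × Matrix (Ind g) (Ind g) ℂ)) : Prop where
  weil : ∀ z ∈ 𝓕, IsWeil z.1 z.2
  similitude : ∀ z ∈ 𝓕, IsSimilitude col tor (z.1 : ℂ) z.2
  chebotarev : ∀ f : MvPolynomial (Ind g × Ind g) ℂ,
    (∀ z ∈ 𝓕, z.1.Prime → MvPolynomial.eval (fun p => z.2 p.1 p.2) f = 0) →
    ∀ X ∈ Submonoid.closure (Prod.snd '' 𝓕), MvPolynomial.eval (fun p => X p.1 p.2) f = 0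

/-- The block `V_c`. -/
def blockSpace (col : Fin g → Fin m) (c : Fin m) : Submodule ℂ (Ind g → ℂ) where
  carrier := {v | ∀ r, col (idx r) ≠ c → v r = 0}
  add_mem' := by
    intro v w hv hw r hr
    rw [Pi.add_apply, hv r hr, hw r hr, add_zero]
  zero_mem' := fun _ _ => rfl
  smul_mem' := by
    intro a v hv r hr
    rw [Pi.smul_apply, hv r hr, smul_zero]

/-- The block `V_c` is strongly irreducible: no nonempty finite set of proper nonzero subspaces
of `V_c` is permuted by the Frobenii.  (So `V_c` is irreducible for all subgroups of finite index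
of the group generated by the Frobenii.) -/
def IsStronglyIrreducible (col : Fin g → Fin m) (𝓕 : Set (ℕ × Matrix (Ind g) (Ind g) ℂ))
    (c : Fin m) : Prop :=
  ∀ S : Set (Submodule ℂ (Ind g → ℂ)), S.Finite → (∀ Q ∈ S, Q ≠ ⊥ ∧ Q < blockSpace col c) →
    (∀ z ∈ 𝓕, ∀ Q ∈ S, Q.map (Matrix.toLin' z.2) ∈ S) → S = ∅

/-- The Frobenius `(q, M)` has no exceptional relations with four terms: its `2g` eigenvalues are
different; if `α`, `γ` are eigenvalues on a block `V_c` and `β`, `δ` are eigenvalues on a block `V_d`,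
`c, d ∉ tor`, and `α β / (γ δ)` is a root of unity, then `{α, β} = {γ, δ}` or `α β = γ δ = q`;
moreover the eigenvalues at the `e_i` in the torus blocks and `q` are multiplicatively
independent. -/
structure IsGeneric (col : Fin g → Fin m) (tor : Finset (Fin m))
    (z : ℕ × Matrix (Ind g) (Ind g) ℂ) : Prop where
  distinct : z.2.charpoly.roots.Nodup
  fourTerm : ∀ c ∉ tor, ∀ d ∉ tor, ∀ α ∈ (blockPoly col c z.2).roots,
    ∀ γ ∈ (blockPoly col c z.2).roots, ∀ β ∈ (blockPoly col d z.2).roots,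
    ∀ δ ∈ (blockPoly col d z.2).roots, ∀ k : ℕ, 0 < k → (α * β) ^ k = (γ * δ) ^ k →
      (α = γ ∧ β = δ) ∨ (α = δ ∧ β = γ) ∨ (α * β = z.1 ∧ γ * δ = z.1)
  torus : ∀ (n : Fin g → ℤ) (m : ℤ),
    (∏ i, if col i ∈ tor then z.2 (Sum.inl i) (Sum.inl i) ^ n i else 1) * (z.1 : ℂ) ^ m = 1 →
      ∀ i, col i ∈ tor → n i = 0

/-- The Frobenii on `W = Vⁿ`: `M` acts on each summand. -/
def power (n : ℕ) (𝓕 : Set (ℕ × Matrix (Ind g) (Ind g) ℂ)) :
    Set (ℕ × ((Fin n → Ind g → ℂ) →ₗ[ℂ] (Fin n → Ind g → ℂ))) :=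
  {y | ∃ z ∈ 𝓕, y.1 = z.1 ∧ y.2 = (Matrix.toLin' z.2).compLeft (Fin n)}

/-- `s` is a set of eigenvalues of `M` on `V_c` (with multiplicities) outside of `P`. -/
def IsUnitSet (col : Fin g → Fin m) (M : Matrix (Ind g) (Ind g) ℂ)
    (P : Ideal (integralClosure ℤ ℂ)) (c : Fin m) (s : Multiset ℂ) : Prop :=
  s ≤ (blockPoly col c M).roots ∧ ∀ β ∈ s, ∀ x ∈ P, (x : ℂ) ≠ β

/-- The index of `f_i` if `i ∈ A` and of `e_i` otherwise. -/
def choice (A : Finset (Fin g)) (i : Fin g) : Ind g := if i ∈ A then Sum.inr i else Sum.inl i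

/-- For every choice `A` of one of the vectors `e_i`, `f_i` for each `i`, there are a Frobenius
`(q, M)` and a prime ideal `P` over `q` of the ring of algebraic integers such that `M` has on
every block `V_c` at least `r c` eigenvalues outside of `P` (counted with multiplicities), and on
every torus block the eigenvalue at the chosen vector is outside of `P`. -/
def HasUnits (col : Fin g → Fin m) (tor : Finset (Fin m))
    (𝓕 : Set (ℕ × Matrix (Ind g) (Ind g) ℂ)) (r : Fin m → ℕ) : Prop :=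
  ∀ A : Finset (Fin g), ∃ z ∈ 𝓕, ∃ P : Ideal (integralClosure ℤ ℂ), P.IsPrime ∧
    (z.1 : integralClosure ℤ ℂ) ∈ P ∧
    (∀ c, ∃ s, IsUnitSet col z.2 P c s ∧ r c ≤ Multiset.card s) ∧
    ∀ i, col i ∈ tor → ∀ x ∈ P, (x : ℂ) ≠ z.2 (choice A i) (choice A i)

/-- The characteristic polynomials of all Frobenii on all blocks have integer coefficients. -/
def IntegralBlocks (col : Fin g → Fin m) (𝓕 : Set (ℕ × Matrix (Ind g) (Ind g) ℂ)) : Prop :=
  ∀ z ∈ 𝓕, ∀ c, ∃ P : ℤ[X], P.map (Int.castRingHom ℂ) = blockPoly col c z.2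

/-- The blocks are grouped into factors with integral characteristic polynomials, and
`r c + (half of the total dimension of the other blocks in the factor of c) ≤ 2`. -/
def SmallFactors (col : Fin g → Fin m) (𝓕 : Set (ℕ × Matrix (Ind g) (Ind g) ℂ))
    (r : Fin m → ℕ) : Prop :=
  ∃ (k : ℕ) (fac : Fin m → Fin k), IntegralBlocks (fun i => fac (col i)) 𝓕 ∧
    ∀ c, r c + (halfDim (fun i => fac (col i)) (fac c) - halfDim col c) ≤ 2

/-- For every set `A` some field automorphism of `ℂ` exchanges, for all Frobenii, the eigenvalues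
at `e_i` and `f_i` in the torus blocks with `i ∈ A` and fixes them in the other torus blocks
(this is so if the CM fields are linearly disjoint). -/
def IsDisjoint (col : Fin g → Fin m) (tor : Finset (Fin m))
    (𝓕 : Set (ℕ × Matrix (Ind g) (Ind g) ℂ)) : Prop :=
  ∀ A : Finset (Fin g), ∃ σ : ℂ ≃+* ℂ, ∀ z ∈ 𝓕, ∀ i, col i ∈ tor →
    σ (z.2 (Sum.inl i) (Sum.inl i)) = z.2 (choice A i) (choice A i) ∧
    σ (z.2 (Sum.inr i) (Sum.inr i)) = z.2 (choice A i).swap (choice A i).swap

end Defs

section Aux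

open Pool.Agent.Helper48.GC8 Pool.Agent.Helper60.GTC Pool.Agent.Helper60.GC9
  Pool.Agent.Helper71.OP

variable {g m : ℕ} {col : Fin g → Fin m} {tor : Finset (Fin m)}
  {𝓕 : Set (ℕ × Matrix (Ind g) (Ind g) ℂ)}

/-- The matrices `M`, `(p, M) ∈ 𝓕` with `p` prime, are Zariski dense in the group of all
similitudes (used in the proof only). -/
def IsDense (col : Fin g → Fin m) (tor : Finset (Fin m))
    (𝓕 : Set (ℕ × Matrix (Ind g) (Ind g) ℂ)) : Prop :=
  ∀ f : MvPolynomial (Ind g × Ind g) ℂ,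
    (∀ z ∈ 𝓕, z.1.Prime → MvPolynomial.eval (fun p => z.2 p.1 p.2) f = 0) →
    ∀ (c : ℂ) (X : Matrix (Ind g) (Ind g) ℂ), c ≠ 0 → IsSimilitude col tor c X →
      MvPolynomial.eval (fun p => X p.1 p.2) f = 0

/-- A system of Frobenii `(q, M)` with big monodromy (used in the proof only). -/
structure IsBig (col : Fin g → Fin m) (tor : Finset (Fin m))
    (𝓕 : Set (ℕ × Matrix (Ind g) (Ind g) ℂ)) : Prop where
  weil : ∀ z ∈ 𝓕, IsWeil z.1 z.2
  similitude : ∀ z ∈ 𝓕, IsSimilitude col tor (z.1 : ℂ) z.2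
  dense : IsDense col tor 𝓕

lemma toSim {c : ℂ} {X : Matrix (Ind g) (Ind g) ℂ} (h : IsSimilitude col tor c X) :
    SimT col tor c X :=
  ⟨⟨h.form, h.blocks⟩, h.torus⟩

lemma ofSim {c : ℂ} {X : Matrix (Ind g) (Ind g) ℂ} (h : SimT col tor c X) :
    IsSimilitude col tor c X :=
  ⟨h.sim.form, h.sim.blk, h.diag⟩

/-- Every Frobenius has an adapted symplectic eigenbasis with Weil numbers as eigenvalues. -/
lemma exists_eig' {z : ℕ × Matrix (Ind g) (Ind g) ℂ} (hw : IsWeil z.1 z.2)
    (hs : IsSimilitude col tor (z.1 : ℂ) z.2) :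
    ∃ b lam, SET col tor z.2 b lam ∧ (∀ a, IsIntegral ℤ (lam a)) ∧
      (∀ a, ‖lam a‖ = Real.sqrt z.1) ∧ ∀ r, col (pr r) ∈ tor → lam r = z.2 r r := by
  have hq0 : (z.1 : ℂ) ≠ 0 := by
    have := hw.two_le
    have : z.1 ≠ 0 := by omega
    exact_mod_cast this
  obtain ⟨d, b0, l0, hb0⟩ := eigenbasis _ (hw.semisimple)
  obtain ⟨b, lam, hSE, hlt⟩ := exists_SET hq0 (toSim hs) b0 l0
    (fun i => by rw [← Matrix.toLin'_apply]; exact hb0 i)
  have hroot : ∀ a, z.2.charpoly.IsRoot (lam a) := by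
    intro a
    have hb : b a ≠ 0 := by
      intro h0
      have h1 := hSE.se.form a a.swap
      rw [h0, map_zero, LinearMap.zero_apply] at h1
      rcases a with i | i
      · rw [Sum.swap_inl, J_lr, if_pos rfl] at h1
        norm_num at h1
      · rw [Sum.swap_inr, J_rl, if_pos rfl] at h1
        norm_num at h1
    have h1 : Module.End.HasEigenvalue (Matrix.toLin' z.2) (lam a) :=
      Module.End.hasEigenvalue_of_hasEigenvector
        ⟨Module.End.mem_eigenspace_iff.2 (by rw [Matrix.toLin'_apply]; exact hSE.se.eig a), hb⟩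
    have h2 := (Module.End.hasEigenvalue_iff_isRoot_charpoly _ _).1 h1
    rwa [Matrix.charpoly_toLin'] at h2
  obtain ⟨P, hP⟩ := hw.integral
  have hmonic : P.Monic := by
    refine Polynomial.monic_of_injective (f := Int.castRingHom ℂ)
      (RingHom.injective_int (Int.castRingHom ℂ)) ?_
    rw [hP]
    exact z.2.charpoly_monic
  refine ⟨b, lam, hSE, fun a => ⟨P, hmonic, ?_⟩, fun a => hw.norm _ (hroot a), hlt⟩
  have h1 := hroot a
  rw [← hP, Polynomial.IsRoot, Polynomial.eval_map] at h1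
  exact h1

/-- Every Frobenius has an adapted symplectic eigenbasis with Weil numbers as eigenvalues. -/
lemma exists_eig (h : IsBig col tor 𝓕) {z : ℕ × Matrix (Ind g) (Ind g) ℂ} (hz : z ∈ 𝓕) :
    ∃ b lam, SET col tor z.2 b lam ∧ (∀ a, IsIntegral ℤ (lam a)) ∧
      (∀ a, ‖lam a‖ = Real.sqrt z.1) ∧ ∀ r, col (pr r) ∈ tor → lam r = z.2 r r :=
  exists_eig' (h.weil z hz) (h.similitude z hz)

/-- **One place is enough.**  Strong irreducibility and one Frobenius without exceptional
relations imply big monodromy. -/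
lemma isBig_of_onePlace (h : IsSystem col tor 𝓕)
    (hirr : ∀ c ∉ tor, IsStronglyIrreducible col 𝓕 c) (hgen : ∃ z ∈ 𝓕, IsGeneric col tor z) :
    IsBig col tor 𝓕 := by
  classical
  refine ⟨h.weil, h.similitude, ?_⟩
  intro f hf c X hc hX
  obtain ⟨z, hz, hnd, h4, ht⟩ := hgen
  have hq2 := (h.weil z hz).two_le
  have hq0 : (z.1 : ℂ) ≠ 0 := by
    have : z.1 ≠ 0 := by omega
    exact_mod_cast this
  obtain ⟨b, lam, hSE, -, hnorm, hlt⟩ := exists_eig' (h.weil z hz) (h.similitude z hz)
  have hmul : ∀ r, lam r * lam r.swap = z.1 := by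
    intro r
    rcases r with i | i
    · exact hSE.se.mul_eq (toSim (h.similitude z hz)).sim i
    · rw [mul_comm]; exact hSE.se.mul_eq (toSim (h.similitude z hz)).sim i
  have hne : ∀ r, lam r ≠ 0 := by
    intro r h0
    exact hq0 (by rw [← hmul r, h0, zero_mul])
  -- the roots of the characteristic polynomial
  have hroots : z.2.charpoly.roots = (Finset.univ : Finset (Ind g)).val.map lam := by
    obtain ⟨S', hS'⟩ := hSE.se.exists_inv
    have h3 : SE.mat b * S' = 1 := mul_eq_one_comm.1 hS'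
    have h4 : z.2 = SE.mat b * Matrix.diagonal lam * S' := by
      rw [← hSE.se.mul_mat, Matrix.mul_assoc, h3, Matrix.mul_one]
    have h5 : z.2.charpoly = ∏ r, (Polynomial.X - C (lam r)) := by
      rw [h4, Matrix.charpoly_mul_comm, ← Matrix.mul_assoc, hS', Matrix.one_mul,
        Matrix.charpoly_diagonal]
    have h6 : z.2.charpoly =
        (((Finset.univ : Finset (Ind g)).val.map lam).map (fun t => Polynomial.X - C t)).prod := by
      rw [h5, Multiset.map_map]
      rfl
    rw [h6, Polynomial.roots_multiset_prod_X_sub_C]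
  have hinj : Function.Injective lam := by
    rw [hroots] at hnd
    intro r s hrs
    exact Multiset.inj_on_of_nodup_map hnd r (Finset.mem_univ_val r) s (Finset.mem_univ_val s) hrs
  have hblock : ∀ c, (blockPoly col c z.2).roots =
      (Finset.univ : Finset {r : L2 g // col (pr r) = c}).val.map (fun a => lam a.1) := by
    intro c
    have h2 : blockPoly col c z.2 =
        (((Finset.univ : Finset {r : L2 g // col (pr r) = c}).val.map
          (fun a => lam a.1)).map (fun t => Polynomial.X - C t)).prod := by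
      rw [Multiset.map_map]
      exact hSE.se.charpoly_block c
    rw [h2, Polynomial.roots_multiset_prod_X_sub_C]
  have hmem : ∀ r c, col (pr r) = c → lam r ∈ (blockPoly col c z.2).roots := by
    intro r c hr
    rw [hblock c]
    exact Multiset.mem_map.2 ⟨⟨r, hr⟩, Finset.mem_univ_val _, rfl⟩
  have hswap : ∀ r s, lam r * lam s = z.1 → r = s.swap := by
    intro r s hrs
    apply hinj
    have h1 := hmul s
    have h2 : lam r * lam s = lam s.swap * lam s := by rw [hrs, ← h1]; ring
    exact mul_right_cancel₀ (hne s) h2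
  refine dense_of_sidon (Prod.snd '' 𝓕) ?_ ?_ hq0 ⟨z, hz, rfl⟩
    (toSim (h.similitude z hz)) hSE ?_ ?_ f (h.chebotarev f hf) c X hc (toSim hX)
  · rintro _ ⟨y, hy, rfl⟩
    have := (h.weil y hy).two_le
    have : y.1 ≠ 0 := by omega
    exact ⟨y.1, by exact_mod_cast this, toSim (h.similitude y hy)⟩
  · intro c hc S hS hS1 hS2
    refine hirr c hc S hS hS1 fun y hy Q hQ => ?_
    exact hS2 _ ⟨y, hy, rfl⟩ Q hQ
  · intro r s r' s' hr hr' hrs hrs' hne1 hne2 k hk heq
    rcases h4 _ hr' _ hr (lam r') (hmem r' _ rfl) (lam s') (hmem s' _ hrs'.symm) (lam s)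
      (hmem s _ hrs.symm) (lam r) (hmem r _ rfl) k hk heq with ⟨h5, -⟩ | ⟨h5, h6⟩ | ⟨h5, h6⟩
    · exact absurd (hinj h5) hne2
    · exact Or.inl ⟨hinj h5, (hinj h6).symm⟩
    · exact Or.inr ⟨hswap _ _ h5, hswap _ _ h6⟩
  · intro n m hnm
    have h5 : ∀ i, col i ∈ tor → n i = 0 := by
      refine ht n m (Eq.trans ?_ hnm)
      congr 1
      refine Finset.prod_congr rfl fun i _ => ?_
      by_cases hi : col i ∈ tor
      · rw [if_pos hi, if_pos hi, hlt (Sum.inl i) hi]
      · rw [if_neg hi, if_neg hi]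
    refine ⟨?_, h5⟩
    have h6 : (∏ i, if col i ∈ tor then lam (Sum.inl i) ^ n i else 1) = 1 := by
      refine Finset.prod_eq_one fun i _ => ?_
      by_cases hi : col i ∈ tor
      · rw [if_pos hi, h5 i hi, zpow_zero]
      · rw [if_neg hi]
    rw [h6, one_mul] at hnm
    have h7 : ((z.1 : ℝ)) ^ m = 1 := by
      have h8 := congrArg (fun t : ℂ => ‖t‖) hnm
      simpa using h8
    have h9 : (1 : ℝ) < z.1 := by exact_mod_cast (by omega : 1 < z.1)
    by_contra hm
    rcases lt_or_gt_of_ne hm with hm | hm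
    · exact absurd h7 (zpow_lt_one_of_neg₀ h9 hm).ne
    · exact absurd h7 (one_lt_zpow₀ h9 hm).ne'

/-- Zariski density. -/
lemma stab_of_dense (h : IsBig col tor 𝓕) {ι : Type} [Fintype ι] [DecidableEq ι]
    (U : Submodule ℂ (Ten ι (Ind g)))
    (hU : ∀ z ∈ 𝓕, ∀ u ∈ U, rho Finset.univ z.2 u ∈ U) :
    StabG (SimT col tor) Finset.univ U := by
  classical
  intro c X hc hX u hu
  by_contra hcon
  obtain ⟨f, hf, hfU⟩ := Submodule.exists_dual_map_eq_bot_of_notMem hcon inferInstance
  let F : MvPolynomial (Ind g × Ind g) ℂ := ∑ x : ι → Ind g, MvPolynomial.C (f (Pi.single x 1)) *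
    ∑ y : ι → Ind g, (∏ k, MvPolynomial.X (x k, y k)) * MvPolynomial.C (u y)
  have hF : ∀ Y : Matrix (Ind g) (Ind g) ℂ,
      MvPolynomial.eval (fun p => Y p.1 p.2) F = f (rho Finset.univ Y u) := by
    intro Y
    have h1 : rho Finset.univ Y u =
        ∑ x : ι → Ind g, (rho Finset.univ Y u x) • (Pi.single x (1 : ℂ) : Ten ι (Ind g)) := by
      funext y
      simp [Finset.sum_apply, Pi.single_apply]
    rw [h1, map_sum]
    simp only [map_sum, map_mul, map_prod, MvPolynomial.eval_C, MvPolynomial.eval_X, map_smul,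
      smul_eq_mul, rho_apply, Finset.mem_univ, if_true]
    exact Finset.sum_congr rfl fun x _ => mul_comm _ _
  have h1 := h.dense F (fun z hz _ => by
    rw [hF]
    have h2 : f (rho Finset.univ z.2 u) ∈ U.map f := Submodule.mem_map_of_mem (hU z hz u hu)
    rw [hfU] at h2
    simpa using h2) c X hc (ofSim hX)
  rw [hF] at h1
  exact hf h1

/-- The endomorphism of `Vⁿ` given by `M` on each summand. -/
noncomputable def act (n : ℕ) (M : Matrix (Ind g) (Ind g) ℂ) :
    (Fin n → Ind g → ℂ) →ₗ[ℂ] (Fin n → Ind g → ℂ) :=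
  (Matrix.toLin' M).compLeft (Fin n)

lemma mem_power (n : ℕ) {z : ℕ × Matrix (Ind g) (Ind g) ℂ} (hz : z ∈ 𝓕) :
    (z.1, act n z.2) ∈ power n 𝓕 := ⟨z, hz, rfl, rfl⟩

lemma power_ind (n : ℕ) {p : ℕ × ((Fin n → Ind g → ℂ) →ₗ[ℂ] (Fin n → Ind g → ℂ)) → Prop}
    (hp : ∀ z ∈ 𝓕, p (z.1, act n z.2)) : ∀ y ∈ power n 𝓕, p y := by
  rintro ⟨q, Φ⟩ ⟨z, hz, h1, h2⟩
  simp only at h1 h2
  subst h1 h2
  exact hp z hz

/-- The components of an effective subrepresentation are good. -/
lemma good_of_effective {n i ν : ℕ} {U : Submodule ℂ (ExteriorAlgebra ℂ (Fin n → Ind g → ℂ))}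
    (hU : IsEffective (power n 𝓕) i ν U) (c : Fin i → Fin n) :
    Good 𝓕 Finset.univ ν (U.map (psi c)) := by
  intro z hz
  have hfin : FiniteDimensional ℂ U := Submodule.finiteDimensional_of_le hU.le
  let Φ : Module.End ℂ U :=
    (ExteriorAlgebra.map (act n z.2)).toLinearMap.restrict
      (fun x hx => hU.stable _ (mem_power n hz) x hx)
  refine ⟨minpoly ℂ Φ, ?_, ?_⟩
  · intro β hβ
    obtain ⟨v, hv⟩ := (Module.End.hasEigenvalue_of_isRoot hβ).exists_hasEigenvector
    have h1 : Φ v = β • v := hv.apply_eq_smul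
    have h2 : ExteriorAlgebra.map (act n z.2) v.1 = β • v.1 := congrArg Subtype.val h1
    exact (hU.integral _ (mem_power n hz) v.1 v.2 (fun h0 => hv.2 (Subtype.ext h0)) β h2).1
  · rintro _ ⟨x, hx, rfl⟩
    have h1 := aeval_semiconj ((psi c).comp U.subtype) Φ (rho Finset.univ z.2) (fun v => by
      change psi c (ExteriorAlgebra.map (act n z.2) v.1) = rho Finset.univ z.2 (psi c v.1)
      exact psi_map z.2 c (hU.le v.2)) (minpoly ℂ Φ) ⟨x, hx⟩
    have h0 : aeval Φ (minpoly ℂ Φ) = 0 := minpoly.aeval ℂ Φ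
    rw [h0, LinearMap.zero_apply, map_zero] at h1
    exact h1.symm

/-- A torus block has only one index. -/
lemma tor_inj (htor : ∀ c ∈ tor, halfDim col c = 1) (i j : Fin g) (hij : col i = col j)
    (hi : col i ∈ tor) : i = j := by
  have h1 := htor _ hi
  unfold halfDim at h1
  rw [Finset.card_eq_one] at h1
  obtain ⟨k, hk⟩ := h1
  have h2 : i ∈ Finset.univ.filter (fun l => col l = col i) := by simp
  have h3 : j ∈ Finset.univ.filter (fun l => col l = col i) := by simp [hij]
  rw [hk, Finset.mem_singleton] at h2 h3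
  rw [h2, h3]

lemma choice_eq {s : Fin g → L2 g} (hs : ∀ i, pr (s i) = i) (i : Fin g) :
    choice (Finset.univ.filter (fun i => s i = Sum.inr i)) i = s i := by
  unfold choice
  by_cases h : s i = Sum.inr i
  · rw [if_pos (by simp [h]), h]
  · rw [if_neg (by simp [h])]
    have h1 := hs i
    rcases hsi : s i with j | j
    · rw [hsi] at h1
      exact congrArg Sum.inl h1.symm
    · rw [hsi] at h1 h
      exact absurd (congrArg Sum.inr h1) h

/-- Unit eigenvalues in the blocks and the chosen ones in the torus blocks give `Units`. -/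
lemma units_of {r : Fin m → ℕ} (hrg : ∀ c, r c ≤ halfDim col c)
    (H : ∀ s : Fin g → L2 g, (∀ i, pr (s i) = i) → ∃ z ∈ 𝓕, 2 ≤ z.1 ∧
      SimT col tor (z.1 : ℂ) z.2 ∧
      ∃ (b : L2 g → L2 g → ℂ) (lam : L2 g → ℂ), SET col tor z.2 b lam ∧
      ∃ (hint : ∀ a, IsIntegral ℤ (lam a)) (P : Ideal (integralClosure ℤ ℂ)), P.IsPrime ∧
        (z.1 : integralClosure ℤ ℂ) ∈ P ∧ ∃ T : Fin m → Finset (L2 g),
        (∀ c, c ∉ tor → r c ≤ (T c).card) ∧
        (∀ c, ∀ a ∈ T c, col (pr a) = c) ∧
        (∀ c, ∀ a ∈ T c, (⟨lam a, hint a⟩ : integralClosure ℤ ℂ) ∉ P) ∧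
        ∀ i, col i ∈ tor → (⟨lam (s i), hint (s i)⟩ : integralClosure ℤ ℂ) ∉ P) :
    Units col tor 𝓕 r := by
  classical
  intro s hs
  obtain ⟨z, hz, hq, hM, b, lam, hSE, hint, P, hP, hqP, T, hT, hTc, hTP, hsP⟩ := H s hs
  let T' : Fin m → Finset (L2 g) := fun c =>
    if c ∈ tor then (Finset.univ.filter (fun i => col i = c)).image s else T c
  have hT1 : ∀ c, c ∈ tor → T' c = (Finset.univ.filter (fun i => col i = c)).image s :=
    fun c hc => if_pos hc
  have hT2 : ∀ c, c ∉ tor → T' c = T c := fun c hc => if_neg hc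
  refine ⟨z, hz, hq, hM, b, lam, hSE, hint, P, hP, hqP, T', ?_, ?_, ?_, ?_⟩
  · intro c
    by_cases hc : c ∈ tor
    · rw [hT1 c hc, Finset.card_image_of_injective]
      · exact hrg c
      · intro i j hij
        rw [← hs i, ← hs j, hij]
    · rw [hT2 c hc]; exact hT c hc
  · intro c a ha
    by_cases hc : c ∈ tor
    · rw [hT1 c hc] at ha
      obtain ⟨i, hi, rfl⟩ := Finset.mem_image.1 ha
      rw [hs]
      exact (Finset.mem_filter.1 hi).2
    · rw [hT2 c hc] at ha
      exact hTc c a ha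
  · intro c a ha
    by_cases hc : c ∈ tor
    · rw [hT1 c hc] at ha
      obtain ⟨i, hi, rfl⟩ := Finset.mem_image.1 ha
      exact hsP i ((Finset.mem_filter.1 hi).2 ▸ hc)
    · rw [hT2 c hc] at ha
      exact hTP c a ha
  · intro c hc a ha
    rw [hT1 c hc] at ha
    obtain ⟨i, hi, rfl⟩ := Finset.mem_image.1 ha
    rw [hs]

/-- The unit eigenvalues on a block. -/
lemma units_block {z : ℕ × Matrix (Ind g) (Ind g) ℂ} {b : L2 g → L2 g → ℂ} {lam : L2 g → ℂ}
    (hSE : SE col z.2 b lam) (hint : ∀ a, IsIntegral ℤ (lam a))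
    {P : Ideal (integralClosure ℤ ℂ)} {k : ℕ} {c : Fin m}
    (hs : ∃ s, IsUnitSet col z.2 P c s ∧ k ≤ Multiset.card s) :
    ∃ T : Finset (L2 g), k ≤ T.card ∧ (∀ a ∈ T, col (pr a) = c) ∧
      ∀ a ∈ T, (⟨lam a, hint a⟩ : integralClosure ℤ ℂ) ∉ P := by
  classical
  refine ⟨((Finset.univ : Finset {r : L2 g // col (pr r) = c}).filter
        (fun a => ∀ x ∈ P, (x : ℂ) ≠ lam a.1)).map (Function.Embedding.subtype _), ?_, ?_, ?_⟩
  · obtain ⟨s, ⟨hs1, hs3⟩, hs2⟩ := hs
    have h1 : (blockPoly col c z.2).roots =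
        (Finset.univ : Finset {r : L2 g // col (pr r) = c}).val.map (fun a => lam a.1) := by
      have h2 : blockPoly col c z.2 =
          (((Finset.univ : Finset {r : L2 g // col (pr r) = c}).val.map
            (fun a => lam a.1)).map (fun t => X - C t)).prod := by
        rw [Multiset.map_map]
        exact hSE.charpoly_block c
      rw [h2, Polynomial.roots_multiset_prod_X_sub_C]
    rw [Finset.card_map]
    have h2 : s ≤ (Finset.univ : Finset {r : L2 g // col (pr r) = c}).val.map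
        (fun a => lam a.1) := h1 ▸ hs1
    have h3 := Multiset.filter_le_filter (fun β => ∀ x ∈ P, (x : ℂ) ≠ β) h2
    rw [Multiset.filter_eq_self.2 hs3, Multiset.filter_map] at h3
    have h4 := Multiset.card_le_card h3
    rw [Multiset.card_map] at h4
    exact hs2.trans h4
  · intro a ha
    obtain ⟨a', -, rfl⟩ := Finset.mem_map.1 ha
    exact a'.2
  · intro a ha haP
    obtain ⟨a', ha', rfl⟩ := Finset.mem_map.1 ha
    exact (Finset.mem_filter.1 ha').2 _ haP rfl

/-- For small factors some Frobenius has many unit eigenvalues at every prime over `q`. -/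
lemma small_units (h : IsBig col tor 𝓕) {r : Fin m → ℕ} (hr : ∀ c, 1 ≤ r c)
    (hrg : ∀ c, r c ≤ halfDim col c) (hrank : SmallFactors col 𝓕 r) :
    ∃ z ∈ 𝓕, ∃ (b : Ind g → Ind g → ℂ) (lam : Ind g → ℂ), SET col tor z.2 b lam ∧
      (∀ a, col (pr a) ∈ tor → lam a = z.2 a a) ∧
      ∃ (hint : ∀ a, IsIntegral ℤ (lam a)), ∀ (P : Ideal (integralClosure ℤ ℂ)), P.IsPrime →
        (z.1 : integralClosure ℤ ℂ) ∈ P → ∃ T : Fin m → Finset (Ind g), (∀ c, r c ≤ (T c).card) ∧
        (∀ c, ∀ a ∈ T c, col (pr a) = c) ∧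
        ∀ c, ∀ a ∈ T c, (⟨lam a, hint a⟩ : integralClosure ℤ ℂ) ∉ P := by
  classical
  obtain ⟨k, fac, hblk, hr2⟩ := hrank
  set col' : Fin g → Fin k := fun i => fac (col i) with hcol'
  obtain ⟨z, hz, hz2⟩ := rank_autoT col tor col' (k := fun j => min 2 (gc col' j))
    (fun j => min_le_left _ _) (fun j => min_le_right _ _) (fun z hz => by
    obtain ⟨b, lam, hSE, -, hn, -⟩ := exists_eig h hz
    exact ⟨(h.weil z hz).two_le, fun c => hblk z hz c, b, lam,
      hSE.se.coarsen (fun i j hij => congrArg fac hij), hn⟩)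
    (fun z hz => (toSim (h.similitude z hz)).sim)
    (fun f hf c X hc hX => h.dense f hf c X hc (ofSim hX))
  obtain ⟨b, lam, hSE, hint, -, hlt⟩ := exists_eig h hz
  have hSE' : SE col' z.2 b lam := hSE.se.coarsen (fun i j hij => congrArg fac hij)
  refine ⟨z, hz, b, lam, hSE, hlt, hint, fun P hP hqP => ?_⟩
  have hgle : ∀ c, gc col c ≤ gc col' (fac c) := by
    intro c
    refine Finset.card_le_card fun i hi => ?_
    rw [Finset.mem_filter] at hi ⊢
    exact ⟨hi.1, congrArg fac hi.2⟩
  have hgc : ∀ c, 1 ≤ gc col c := fun c => (hr c).trans (hrg c)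
  have h1 : ∀ c, ∃ T' : Finset {r : L2 g // col' (pr r) = fac c},
      T'.card = min 2 (gc col' (fac c)) ∧
      ∀ a ∈ T', (⟨lam a.1, hint a.1⟩ : integralClosure ℤ ℂ) ∉ P := by
    intro c
    obtain ⟨Pc, hPc, hcop⟩ := hz2 (fac c) (by
      have := hgle c
      have := hgc c
      omega)
    refine units_of_coeff (lam := fun a : {r : L2 g // col' (pr r) = fac c} => lam a.1)
      (fun a => hint a.1) hP hqP ?_ hcop
    have h2 : ((Pc.coeff (2 * gc col' (fac c) - min 2 (gc col' (fac c))) : ℤ) : ℂ) =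
        (block col' (fac c) z.2).charpoly.coeff
          (2 * gc col' (fac c) - min 2 (gc col' (fac c))) := by
      rw [← hPc, coeff_map, eq_intCast]
    rw [h2, hSE'.charpoly_block (fac c), ← card_block col' (fac c)]
    refine coeff_prod _ ?_
    rw [card_block]
    omega
  choose T' hT'1 hT'2 using h1
  let S : Fin m → Finset (L2 g) := fun c => (T' c).map (Function.Embedding.subtype _)
  have hS : ∀ c, ∀ a ∈ S c, (⟨lam a, hint a⟩ : integralClosure ℤ ℂ) ∉ P := by
    intro c a ha
    obtain ⟨a', ha', rfl⟩ := Finset.mem_map.1 ha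
    exact hT'2 c a' ha'
  have hSc : ∀ c, ∀ a ∈ S c, col' (pr a) = fac c := by
    intro c a ha
    obtain ⟨a', ha', rfl⟩ := Finset.mem_map.1 ha
    exact a'.2
  refine ⟨fun c => (S c).filter (fun a => col (pr a) = c), ?_, ?_, ?_⟩
  · intro c
    have h2 : ((S c).filter (fun a => col (pr a) = c)).card +
        ((S c).filter (fun a => ¬ col (pr a) = c)).card = (S c).card :=
      Finset.card_filter_add_card_filter_not _
    have h3 : (S c).card = min 2 (gc col' (fac c)) := by
      rw [Finset.card_map, hT'1]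
    have hinj : Set.InjOn pr ((S c).filter (fun a => ¬ col (pr a) = c) : Set (L2 g)) :=
      pr_injOn hint (fun i => hSE.se.mul_eq (toSim (h.similitude z hz)).sim i) hP hqP
        (fun a ha => hS c a (Finset.mem_of_mem_filter a ha))
    have h4 : ((S c).filter (fun a => ¬ col (pr a) = c)).card ≤
        gc col' (fac c) - gc col c := by
      have h5 : ((S c).filter (fun a => ¬ col (pr a) = c)).image pr ⊆
          (Finset.univ.filter (fun i => col' i = fac c)) \
            (Finset.univ.filter (fun i => col i = c)) := by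
        intro i hi
        obtain ⟨a, ha, rfl⟩ := Finset.mem_image.1 hi
        obtain ⟨ha1, ha2⟩ := Finset.mem_filter.1 ha
        simp only [Finset.mem_sdiff, Finset.mem_filter, Finset.mem_univ, true_and]
        exact ⟨hSc c a ha1, ha2⟩
      have h6 := Finset.card_le_card h5
      rw [Finset.card_image_of_injOn hinj, Finset.card_sdiff_of_subset] at h6
      · exact h6
      · intro i hi
        rw [Finset.mem_filter] at hi ⊢
        exact ⟨hi.1, congrArg fac hi.2⟩
    have h5 : r c + (gc col' (fac c) - gc col c) ≤ 2 := hr2 c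
    have h6 : r c ≤ gc col c := hrg c
    have h7 := hgle c
    change r c ≤ ((S c).filter (fun a => col (pr a) = c)).card
    omega
  · intro c a ha
    exact (Finset.mem_filter.1 ha).2
  · intro c a ha
    exact hS c a (Finset.mem_filter.1 ha).1

/-- A Frobenius with many unit eigenvalues. -/
lemma exists_units (h : IsBig col tor 𝓕) {r : Fin m → ℕ} (hr : ∀ c, 1 ≤ r c)
    (hrg : ∀ c, r c ≤ halfDim col c) (htor : ∀ c ∈ tor, halfDim col c = 1)
    (hrank : HasUnits col tor 𝓕 r ∨ (SmallFactors col 𝓕 r ∧ IsDisjoint col tor 𝓕)) :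
    Units col tor 𝓕 r := by
  classical
  refine units_of hrg fun s hs => ?_
  rcases hrank with hA | ⟨hsmall, hdis⟩
  · obtain ⟨z, hz, P, hP, hqP, hs1, hs2⟩ := hA (Finset.univ.filter (fun i => s i = Sum.inr i))
    obtain ⟨b, lam, hSE, hint, -, hlt⟩ := exists_eig h hz
    have h1 := fun c => units_block hSE.se hint (hs1 c)
    choose T hT hTc hTP using h1
    refine ⟨z, hz, (h.weil z hz).two_le, toSim (h.similitude z hz), b, lam, hSE, hint, P, hP, hqP,
      T, fun c _ => hT c, hTc, hTP, fun i hi hmem => ?_⟩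
    have hi' : col (pr (s i)) ∈ tor := by rw [hs]; exact hi
    refine hs2 i hi _ hmem ?_
    rw [choice_eq hs]
    exact hlt _ hi'
  · obtain ⟨z, hz, b, lam, hSE, hlt, hint, hP⟩ := small_units h hr hrg hsmall
    obtain ⟨P0, hP0, hqP0⟩ := exists_prime (h.weil z hz).two_le
    obtain ⟨T0, hT0, hT0c, hT0P⟩ := hP P0 hP0 hqP0
    have h0 : ∀ i, ∃ a : L2 g, pr a = i ∧ (col i ∈ tor →
        (⟨lam a, hint a⟩ : integralClosure ℤ ℂ) ∉ P0) := by
      intro i
      by_cases hi : col i ∈ tor
      · have h1 : (T0 (col i)).Nonempty := by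
          rw [← Finset.card_pos]
          exact (hr _).trans (hT0 _)
        obtain ⟨a, ha⟩ := h1
        refine ⟨a, ?_, fun _ => hT0P _ a ha⟩
        exact (tor_inj htor i (pr a) (hT0c _ a ha).symm hi).symm
      · exact ⟨Sum.inl i, rfl, fun h => absurd h hi⟩
    choose s0 hs0 hs0P using h0
    obtain ⟨σ, hσ⟩ := hdis (Finset.univ.filter (fun i => s0 i ≠ s i))
    -- the automorphism exchanges the eigenvalues at `s0 i` and `s i`
    have hσs : ∀ i, col i ∈ tor → σ (lam (s0 i)) = lam (s i) := by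
      intro i hi
      have hi0 : col (pr (s0 i)) ∈ tor := by rw [hs0]; exact hi
      have hi1 : col (pr (s i)) ∈ tor := by rw [hs]; exact hi
      rw [hlt _ hi0, hlt _ hi1]
      obtain ⟨h1, h2⟩ := hσ z hz i hi
      have hp0 := hs0 i
      have hp1 := hs i
      unfold choice at h1 h2
      by_cases hne : s0 i ≠ s i
      · have hmem : i ∈ Finset.univ.filter (fun i => s0 i ≠ s i) := by simp [hne]
        rw [if_pos hmem] at h1 h2
        rw [Sum.swap_inr] at h2
        rcases h0 : s0 i with j | j <;> rcases h1' : s i with k | k <;>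
          rw [h0] at hp0 hne <;> rw [h1'] at hp1 hne <;>
          simp only [pr, Sum.elim_inl, Sum.elim_inr, id] at hp0 hp1 <;> subst hp0
        · exact absurd (congrArg Sum.inl hp1.symm) hne
        · rw [hp1]; exact h1
        · rw [hp1]; exact h2
        · exact absurd (congrArg Sum.inr hp1.symm) hne
      · push Not at hne
        have hmem : i ∉ Finset.univ.filter (fun i => s0 i ≠ s i) := by simp [hne]
        rw [if_neg hmem] at h1 h2
        rw [Sum.swap_inl] at h2
        rw [← hne]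
        rcases h0 : s0 i with j | j <;> rw [h0] at hp0 <;>
          simp only [pr, Sum.elim_inl, Sum.elim_inr, id] at hp0 <;> subst hp0
        · exact h1
        · exact h2
    let τ : integralClosure ℤ ℂ ≃ₐ[ℤ] integralClosure ℤ ℂ :=
      (σ.toIntAlgEquiv).mapIntegralClosure
    have hτ : ∀ x : integralClosure ℤ ℂ, ((τ x : integralClosure ℤ ℂ) : ℂ) = σ (x : ℂ) :=
      fun x => rfl
    let P : Ideal (integralClosure ℤ ℂ) := P0.comap (τ.symm : _ →ₐ[ℤ] _)
    have hPmem : ∀ x, τ x ∈ P ↔ x ∈ P0 := by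
      intro x
      simp only [P, Ideal.mem_comap]
      simp
    have hPp : P.IsPrime := Ideal.comap_isPrime _ _
    have hqP : (z.1 : integralClosure ℤ ℂ) ∈ P := by
      have h1 : τ (z.1 : integralClosure ℤ ℂ) = (z.1 : integralClosure ℤ ℂ) := map_natCast τ _
      rw [← h1, hPmem]
      exact hqP0
    obtain ⟨T, hT, hTc, hTP⟩ := hP P hPp hqP
    refine ⟨z, hz, (h.weil z hz).two_le, toSim (h.similitude z hz), b, lam, hSE, hint, P, hPp, hqP,
      T, fun c _ => hT c, hTc, hTP, fun i hi hmem => ?_⟩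
    refine hs0P i hi ?_
    rw [← hPmem]
    have h1 : τ ⟨lam (s0 i), hint (s0 i)⟩ = ⟨lam (s i), hint (s i)⟩ :=
      Subtype.ext (hσs i hi)
    rw [h1]
    exact hmem

lemma Om_isDivisorClass (h : IsBig col tor 𝓕) {n : ℕ} (c : Fin m ⊕ L2 g) (k l : Fin n) :
    IsDivisorClass (power n 𝓕) (Om (FT col tor c) k l) := by
  refine ⟨Om_mem _ _ _, power_ind n fun z hz => ?_⟩
  have hq0 : (z.1 : ℂ) ≠ 0 := by
    have := (h.weil z hz).two_le
    have : z.1 ≠ 0 := by omega
    exact_mod_cast this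
  exact Om_map ((toSim (h.similitude z hz)).ft' hq0 c) k l

end Aux

open Pool.Agent.Helper48.GC8 Pool.Agent.Helper60.GTC Pool.Agent.Helper60.GC9 in
/-- The Galois coniveau is contained in the divisor coniveau. -/
theorem galois_le {g m : ℕ} {col : Fin g → Fin m} {tor : Finset (Fin m)}
    {𝓕 : Set (ℕ × Matrix (Ind g) (Ind g) ℂ)}
    (h : IsBig col tor 𝓕) {r : Fin m → ℕ} (hr : ∀ c, 1 ≤ r c) (hrg : ∀ c, r c ≤ halfDim col c)
    (htor : ∀ c ∈ tor, halfDim col c = 1)
    (hrank : HasUnits col tor 𝓕 r ∨ (SmallFactors col 𝓕 r ∧ IsDisjoint col tor 𝓕))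
    (n i ν : ℕ) (hi : 2 * ν ≤ i)
    (hw : ∀ w : Fin m → ℕ, ∑ c, w c ≤ i - 2 * ν →
      ∑ c, (halfDim col c - r c) * (w c / r c) ≤ 1) :
    galoisConiveau (power n 𝓕) i ν ≤ divisorConiveau (power n 𝓕) i ν := by
  have HU := exists_units h hr hrg htor hrank
  refine sSup_le fun U hU => ?_
  intro x hx
  refine link (FT col tor) (fun ν' i' => divisorConiveau (power n 𝓕) i' ν') ?_ ?_ (hU.le hx) ?_
  · intro k y hy
    refine Submodule.subset_span ⟨Fin.elim0, y, fun k => k.elim0, by simpa using hy, by simp⟩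
  · intro ν' k a p q y hy
    change Om (FT col tor a) p q * y ∈ divisorConiveau (power n 𝓕) (k + 2) (ν' + 1)
    change y ∈ divisorConiveau (power n 𝓕) k ν' at hy
    unfold divisorConiveau at hy
    induction hy using Submodule.span_induction with
    | mem x hx =>
      obtain ⟨ds, w, hds, hw, rfl⟩ := hx
      refine Submodule.subset_span ⟨Fin.cons (Om (FT col tor a) p q) ds, w, ?_, ?_, ?_⟩
      · intro k
        refine Fin.cases ?_ ?_ k
        · exact Om_isDivisorClass h a p q
        · intro k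
          simpa using hds k
      · have : k + 2 - 2 * (ν' + 1) = k - 2 * ν' := by omega
        rw [this]; exact hw
      · rw [List.ofFn_succ, List.prod_cons]
        simp [mul_assoc]
    | zero => rw [mul_zero]; exact Submodule.zero_mem _
    | add x y _ _ hx hy => rw [mul_add]; exact Submodule.add_mem _ hx hy
    | smul c x _ hx => rw [mul_smul_comm]; exact Submodule.smul_mem _ c hx
  · intro c
    have hst : StabG (SimT col tor) Finset.univ (U.map (psi c)) := by
      refine stab_of_dense h _ ?_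
      rintro z hz _ ⟨y, hy, rfl⟩
      rw [← psi_map z.2 c (hU.le hy)]
      exact ⟨_, hU.stable _ (mem_power n hz) y hy, rfl⟩
    refine claimG (J := FT col tor) (fun c X hc hX => hX.conjTranspose hc)
      (fun c X hX a => hX.ft a) (fun c X hc hX a => hX.ft' hc a) (FT_star col tor) 𝓕
      (fun z hz => ⟨by
        have := (h.weil z hz).two_le
        have : z.1 ≠ 0 := by omega
        exact_mod_cast this, toSim (h.similitude z hz)⟩) (i - 2 * ν)
      (fun t R U ht hR hst hgood htr =>
        terminalT (tor_inj htor) HU hr hrg hw t R U ht hR hst hgood htr)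
      ν Finset.univ (U.map (psi c)) ?_ ?_ hst
      (good_of_effective hU c) ⟨x, hx, rfl⟩
    · rw [Finset.card_univ, Fintype.card_fin]; omega
    · intro u _ a ha
      exact absurd (Finset.mem_univ a) ha

section DivisorConiveau

open Pool.Agent.Helper60.GTC

lemma map_mem_ext {W : Type} [AddCommGroup W] [Module ℂ W] (Φ : W →ₗ[ℂ] W) {k : ℕ}
    {w : ExteriorAlgebra ℂ W} (hw : w ∈ ⋀[ℂ]^k W) : ExteriorAlgebra.map Φ w ∈ ⋀[ℂ]^k W := by
  refine ext_induction (p := fun y => ExteriorAlgebra.map Φ y ∈ ⋀[ℂ]^k W) ?_ ?_ ?_ ?_ hw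
  · intro v
    rw [ExteriorAlgebra.map_apply_ιMulti, ← ExteriorAlgebra.ιMulti_span_fixedDegree]
    exact Submodule.subset_span ⟨_, rfl⟩
  · rw [map_zero]; exact Submodule.zero_mem _
  · intro x y hx hy
    rw [map_add]; exact Submodule.add_mem _ hx hy
  · intro r x hx
    rw [map_smul]; exact Submodule.smul_mem _ _ hx

lemma div_stable {W : Type} [AddCommGroup W] [Module ℂ W] (Fr : Set (ℕ × (W →ₗ[ℂ] W)))
    (i ν : ℕ) (z : ℕ × (W →ₗ[ℂ] W)) (hz : z ∈ Fr) (x : ExteriorAlgebra ℂ W)
    (hx : x ∈ divisorConiveau Fr i ν) : ExteriorAlgebra.map z.2 x ∈ divisorConiveau Fr i ν := by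
  have h1 : divisorConiveau Fr i ν ≤
      (divisorConiveau Fr i ν).comap (ExteriorAlgebra.map z.2).toLinearMap := by
    refine Submodule.span_le.2 ?_
    rintro _ ⟨d, w, hd, hw, rfl⟩
    have h2 := div_map z.2 (z.1 : ℂ) ν d (fun k => (hd k).2 z hz) w
    have h3 : (z.1 : ℂ) ^ ν • ((List.ofFn d).prod * ExteriorAlgebra.map z.2 w) ∈
        divisorConiveau Fr i ν :=
      Submodule.smul_mem _ _ (Submodule.subset_span ⟨d, ExteriorAlgebra.map z.2 w, hd,
        map_mem_ext z.2 hw, rfl⟩)
    rw [← h2] at h3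
    exact h3
  exact h1 hx

lemma div_integral {V : Type} [AddCommGroup V] [Module ℂ V] [FiniteDimensional ℂ V] {n : ℕ}
    (Fr : Set (ℕ × ((Fin n → V) →ₗ[ℂ] (Fin n → V)))) {i ν : ℕ} (hi : 2 * ν ≤ i)
    (q : ℕ) (hq : 2 ≤ q) (F : Module.End ℂ V) (hF : F.IsSemisimple)
    (hW : ∀ α, F.HasEigenvalue α → IsIntegral ℤ α ∧ ‖α‖ = Real.sqrt q)
    (hz : (q, F.compLeft (Fin n)) ∈ Fr)
    (x : ExteriorAlgebra ℂ (Fin n → V)) (hx : x ∈ divisorConiveau Fr i ν) (hx0 : x ≠ 0) (β : ℂ)
    (hβ : ExteriorAlgebra.map (F.compLeft (Fin n)) x = β • x) :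
    IsIntegral ℤ (β / (q : ℂ) ^ ν) ∧ IsIntegral ℤ ((q : ℂ) ^ (i - ν) / β) := by
  refine div_eig q hq F hF hW n i ν hi (Submodule.span_mono ?_ hx) hx0 hβ
  rintro _ ⟨d, w, hd, hw, rfl⟩
  exact ⟨d, w, fun k => ⟨(hd k).1, (hd k).2 (q, F.compLeft (Fin n)) hz⟩, hw, rfl⟩

/-- The divisor coniveau is effective. -/
theorem div_effective {g m : ℕ} {col : Fin g → Fin m} {tor : Finset (Fin m)}
    {𝓕 : Set (ℕ × Matrix (Ind g) (Ind g) ℂ)} (h : IsBig col tor 𝓕) (n i ν : ℕ) (hi : 2 * ν ≤ i) :
    IsEffective (power n 𝓕) i ν (divisorConiveau (power n 𝓕) i ν) where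
  le := by
    refine Submodule.span_le.2 ?_
    rintro _ ⟨d, w, hd, hw, rfl⟩
    exact div_le i ν hi d (fun k => (hd k).1) w hw
  stable := div_stable (power n 𝓕) i ν
  integral := by
    refine power_ind n fun z hz => ?_
    refine div_integral (power n 𝓕) hi z.1 (h.weil z hz).two_le (Matrix.toLin' z.2)
      (h.weil z hz).semisimple ?_ (mem_power n hz)
    intro α hα
    have h2 := (Module.End.hasEigenvalue_iff_isRoot_charpoly _ _).1 hα
    rw [Matrix.charpoly_toLin'] at h2
    obtain ⟨P, hP⟩ := (h.weil z hz).integral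
    have hmonic : P.Monic := by
      refine Polynomial.monic_of_injective (f := Int.castRingHom ℂ)
        (RingHom.injective_int (Int.castRingHom ℂ)) ?_
      rw [hP]
      exact z.2.charpoly_monic
    refine ⟨⟨P, hmonic, ?_⟩, (h.weil z hz).norm α h2⟩
    rw [← hP, Polynomial.IsRoot, Polynomial.eval_map] at h2
    exact h2

end DivisorConiveau

/-- **One place is enough for the Galois coniveau filtration of all powers.**
Let `𝓕` be a system of Frobenii on `V = ⨁ V_c` such that the blocks which are not torus blocks are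
strongly irreducible and one Frobenius has no exceptional relations with four terms, where the
torus blocks are planes, and `1 ≤ r c ≤ dim V_c / 2`.  Assume that for each choice of one eigenline
in each torus block some Frobenius has in every block `V_c` at least `r c` eigenvalues which are
units at some prime over `q`, including the chosen ones; or that the blocks are grouped into small
factors and the torus blocks are disjoint (then this follows).
If `∑ (dim V_c / 2 - r c) ⌊w c / r c⌋ ≤ 1` whenever `∑ w c ≤ i - 2ν` (an empty condition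
for `r c = dim V_c / 2`), then for all powers `n` the Galois coniveau `N^ν` of `Λⁱ(Vⁿ)` is spanned
by the products of `ν` divisor classes with elements of `Λ^(i-2ν)(Vⁿ)`. -/
theorem result {g m : ℕ} (col : Fin g → Fin m) (tor : Finset (Fin m))
    (htor : ∀ c ∈ tor, halfDim col c = 1) (𝓕 : Set (ℕ × Matrix (Ind g) (Ind g) ℂ))
    (h : IsSystem col tor 𝓕) (hirr : ∀ c ∉ tor, IsStronglyIrreducible col 𝓕 c)
    (hgen : ∃ z ∈ 𝓕, IsGeneric col tor z)
    (r : Fin m → ℕ) (hr : ∀ c, 1 ≤ r c) (hrg : ∀ c, r c ≤ halfDim col c)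
    (hrank : HasUnits col tor 𝓕 r ∨ (SmallFactors col 𝓕 r ∧ IsDisjoint col tor 𝓕))
    (n i ν : ℕ) (hi : 2 * ν ≤ i)
    (hw : ∀ w : Fin m → ℕ, ∑ c, w c ≤ i - 2 * ν →
      ∑ c, (halfDim col c - r c) * (w c / r c) ≤ 1) :
    galoisConiveau (power n 𝓕) i ν = divisorConiveau (power n 𝓕) i ν :=
  have hB := isBig_of_onePlace h hirr hgen
  le_antisymm (galois_le hB hr hrg htor hrank n i ν hi hw) (le_sSup (div_effective hB n i ν hi))

end Pool.Agent.Results.MP_8abef2_ag.OnePlaceMonodromy
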