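import Mathlib
import Pool.Agent.Helper71.RotDefs
import Pool.Agent.Helper71.RotBraid

/-!
Double branched covers of closed rational 3-braids: if the braid obtained by rounding all
exponents down moves no direction down, and the braid obtained by rounding all exponents up moves
every direction up, but by less than two full turns, then the fundamental group is not
left-orderable.
-/

set_option autoImplicit false

namespace Pool.Agent.Results.MP_9ae2f3_gt.RationalBraidClosures

open Pool.Agent.Helper71.Rot (turn)

/-- The action of the `k`-th power of the twist along the curve `a` (`false`) or `b` (`true`) on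
the line of directions: it is `τ ^ k` for the curve `a`, and the conjugate of `τ ^ k` by the
shift by one for the curve `b`. -/
noncomputable def twist (second : Bool) (k : ℤ) (x : ℝ) : ℝ :=
  if second then turn k (x + 1) - 1 else turn k x

/-- The action of a word, with all exponents rounded down. -/
noncomputable def floorMap (w : List (Bool × ℚ)) (x : ℝ) : ℝ :=
  w.foldl (fun y l => twist l.1 ⌊l.2⌋ y) x

/-- The action of a word, with all exponents rounded up. -/
noncomputable def ceilMap (w : List (Bool × ℚ)) (x : ℝ) : ℝ :=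
  w.foldl (fun y l => twist l.1 ⌈l.2⌉ y) x

/-- Elements of a group which satisfy the relations of the fundamental group of the following
closed manifold.  Let `F` be a once-punctured torus with standard curves `a`, `b`.  In `F × S¹`,
with the boundary torus filled along the circle factor, do surgery for each letter of `w` on a
copy of the curve of the letter, at increasing heights, with the exponent as twist coefficient.

The elements `a i`, `b i` are the standard generators of the fibre group between the heights of
the letters number `i - 1` and `i`, and `m i` is the meridian of the curve number `i`.  In the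
fundamental group the surgery relations `m i ^ v = a i ^ u`, with the exponent `u / v` in lowest
terms, hold; it is only required that they hold for some positive multiples of `v` and `u`. -/
structure Rep (G : Type*) [Group G] (w : List (Bool × ℚ)) where
  a : Fin (w.length + 1) → G
  b : Fin (w.length + 1) → G
  m : Fin w.length → G
  /-- Passing a curve `a` multiplies `b` by the meridian, which is a fractional power of `a`. -/
  passA : ∀ i, (w.get i).1 = false →
    a i.succ = a i.castSucc ∧ b i.succ = b i.castSucc * m i ∧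
      m i * a i.castSucc = a i.castSucc * m i ∧
      ∃ k : ℕ, 0 < k ∧ m i ^ (k * (w.get i).2.den) = a i.castSucc ^ (k * (w.get i).2.num)
  /-- Passing a curve `b` multiplies `a` by the inverse of the meridian, which is a fractional
  power of `b`. -/
  passB : ∀ i, (w.get i).1 = true →
    b i.succ = b i.castSucc ∧ a i.succ = a i.castSucc * (m i)⁻¹ ∧
      m i * b i.castSucc = b i.castSucc * m i ∧
      ∃ k : ℕ, 0 < k ∧ m i ^ (k * (w.get i).2.den) = b i.castSucc ^ (k * (w.get i).2.num)
  closeA : a (Fin.last w.length) = a 0
  closeB : b (Fin.last w.length) = b 0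

/-- A group is left-orderable if it is nontrivial and carries a total order which is invariant
under left multiplication. -/
def LeftOrderable (G : Type*) [Group G] : Prop :=
  Nontrivial G ∧ ∃ _ : LinearOrder G, ∀ f g h : G, g ≤ h → f * g ≤ f * h

open Pool.Agent.Helper71.Rot Pool.Agent.Helper31.OrderAct in
/-- If the word with rounded down exponents moves no point of the line down, and the word with
rounded up exponents moves every point up by less than `4`, then a group generated by elements
satisfying the relations is not left-orderable. -/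
theorem result (w : List (Bool × ℚ))
    (hw : ∀ x : ℝ, x ≤ floorMap w x ∧ x < ceilMap w x ∧ ceilMap w x < x + 4)
    (G : Type*) [Group G] (r : Rep G w)
    (hG : Subgroup.closure (Set.range r.a ∪ Set.range r.b ∪ Set.range r.m) = ⊤) :
    ¬ LeftOrderable G := by
  rintro ⟨hnt, ⟨ho, hmul⟩⟩
  -- the sequence of letters
  let W : ℕ → Bool × ℤ × ℤ := fun i =>
    ((w.getD i (false, 0)).1, ⌊(w.getD i (false, 0)).2⌋, ⌈(w.getD i (false, 0)).2⌉)
  have hget : ∀ i (hi : i < w.length), w.getD i (false, 0) = w.get ⟨i, hi⟩ := by
    intro i hi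
    simp [hi]
  have htake : ∀ k, k ≤ w.length → ∀ x, LW W k x = floorMap (w.take k) x ∧
      HW W k x = ceilMap (w.take k) x := by
    intro k hk x
    induction k with
    | zero => exact ⟨rfl, rfl⟩
    | succ k ih =>
      have hk' : k < w.length := by omega
      obtain ⟨i1, i2⟩ := ih (by omega)
      have e1 : W k = ((w.get ⟨k, hk'⟩).1, ⌊(w.get ⟨k, hk'⟩).2⌋, ⌈(w.get ⟨k, hk'⟩).2⌉) := by
        change ((w.getD k (false, 0)).1, ⌊(w.getD k (false, 0)).2⌋,
          ⌈(w.getD k (false, 0)).2⌉) = _
        rw [hget k hk']
      unfold floorMap at i1 ⊢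
      unfold ceilMap at i2 ⊢
      rw [LW_succ, HW_succ, List.take_succ_eq_append_getElem hk', List.foldl_append,
        List.foldl_append, ← i1, ← i2, e1]
      exact ⟨rfl, rfl⟩
  have hdisp : ∀ x : ℝ, x ≤ LW W w.length x ∧ x < HW W w.length x ∧
      HW W w.length x < x + 4 := by
    intro x
    obtain ⟨h1, h2⟩ := htake w.length le_rfl x
    rw [List.take_length] at h1 h2
    rw [h1, h2]
    exact hw x
  -- the action on the lower sets
  set ρ := cutHom hmul with hρ
  let A : ℕ → G := fun i => r.a ⟨min i w.length, by omega⟩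
  let B : ℕ → G := fun i => r.b ⟨min i w.length, by omega⟩
  let M : ℕ → G := fun i => if hi : i < w.length then r.m ⟨i, hi⟩ else 1
  have hcast : ∀ i (hi : i < w.length),
      (⟨min i w.length, by omega⟩ : Fin (w.length + 1)) = (⟨i, hi⟩ : Fin w.length).castSucc := by
    intro i hi
    apply Fin.ext
    simp only [Fin.val_castSucc]
    omega
  have hsucc : ∀ i (hi : i < w.length),
      (⟨min (i + 1) w.length, by omega⟩ : Fin (w.length + 1)) =
        (⟨i, hi⟩ : Fin w.length).succ := by
    intro i hi
    apply Fin.ext
    simp only [Fin.val_succ]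
    omega
  have hlast : (⟨min w.length w.length, by omega⟩ : Fin (w.length + 1)) =
      Fin.last w.length := by
    apply Fin.ext
    simp
  have hzero : (⟨min 0 w.length, by omega⟩ : Fin (w.length + 1)) = 0 := by
    apply Fin.ext
    simp
  have hA0 : ∀ i (hi : i < w.length), A i = r.a (⟨i, hi⟩ : Fin w.length).castSucc ∧
      A (i + 1) = r.a (⟨i, hi⟩ : Fin w.length).succ ∧
      B i = r.b (⟨i, hi⟩ : Fin w.length).castSucc ∧
      B (i + 1) = r.b (⟨i, hi⟩ : Fin w.length).succ ∧ M i = r.m ⟨i, hi⟩ := by
    intro i hi
    refine ⟨?_, ?_, ?_, ?_, ?_⟩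
    · change r.a ⟨min i w.length, _⟩ = _
      rw [hcast i hi]
    · change r.a ⟨min (i + 1) w.length, _⟩ = _
      rw [hsucc i hi]
    · change r.b ⟨min i w.length, _⟩ = _
      rw [hcast i hi]
    · change r.b ⟨min (i + 1) w.length, _⟩ = _
      rw [hsucc i hi]
    · change (if hi : i < w.length then r.m ⟨i, hi⟩ else 1) = _
      rw [dif_pos hi]
  have hW : ∀ i (hi : i < w.length), W i =
      ((w.get ⟨i, hi⟩).1, ⌊(w.get ⟨i, hi⟩).2⌋, ⌈(w.get ⟨i, hi⟩).2⌉) := by
    intro i hi
    change ((w.getD i (false, 0)).1, ⌊(w.getD i (false, 0)).2⌋, ⌈(w.getD i (false, 0)).2⌉) = _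
    rw [hget i hi]
  have hfix : ∀ s, ρ (A 0) s = s ∧ ρ (B 0) s = s := by
    intro s
    refine word_fix (n := w.length) (W := W) (a := fun i => ρ (A i)) (b := fun i => ρ (B i))
      (m := fun i => ρ (M i)) ?_ ?_ ?_ ?_ ?_ hdisp s
    · intro i _
      exact (Int.floor_le_ceil _)
    · intro i hi hs
      obtain ⟨a1, a2, b1, b2, m1⟩ := hA0 i hi
      rw [hW i hi] at hs ⊢
      obtain ⟨p1, p2, p3, k, hk, p4⟩ := r.passA ⟨i, hi⟩ hs
      rw [a1, a2, b1, b2, m1]
      refine ⟨by rw [p1], by rw [p2, map_mul], SB_of_rat ?_ _ ?_⟩
      · rw [← map_mul, p3, map_mul]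
      · exact ⟨k, hk, by rw [← map_pow, p4, map_zpow]⟩
    · intro i hi hs
      obtain ⟨a1, a2, b1, b2, m1⟩ := hA0 i hi
      rw [hW i hi] at hs ⊢
      obtain ⟨p1, p2, p3, k, hk, p4⟩ := r.passB ⟨i, hi⟩ hs
      rw [a1, a2, b1, b2, m1]
      refine ⟨by rw [p1], by rw [p2, map_mul, map_inv], SB_of_rat ?_ _ ?_⟩
      · rw [← map_mul, p3, map_mul]
      · exact ⟨k, hk, by rw [← map_pow, p4, map_zpow]⟩
    · change ρ (r.a ⟨min w.length w.length, _⟩) = ρ (r.a ⟨min 0 w.length, _⟩)
      rw [hlast, hzero, r.closeA]
    · change ρ (r.b ⟨min w.length w.length, _⟩) = ρ (r.b ⟨min 0 w.length, _⟩)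
      rw [hlast, hzero, r.closeB]
  -- all generators fix every point
  have hab : ∀ (i : Fin (w.length + 1)) (s : LowerSet G), ρ (r.a i) s = s ∧ ρ (r.b i) s = s := by
    intro i s
    induction i using Fin.induction with
    | zero =>
      have h1 := hfix s
      change ρ (r.a ⟨min 0 w.length, _⟩) s = s ∧ ρ (r.b ⟨min 0 w.length, _⟩) s = s at h1
      rw [hzero] at h1
      exact h1
    | succ i ih =>
      cases hs : (w.get i).1 with
      | false =>
        obtain ⟨p1, p2, p3, k, hk, p4⟩ := r.passA i hs
        have hm : ρ (r.m i) s = s := by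
          refine (SB_of_rat (Ω := LowerSet G) (m := ρ (r.m i)) (a := ρ (r.a i.castSucc))
            ?_ (w.get i).2 ?_).1.fix ih.1
          · rw [← map_mul, p3, map_mul]
          · exact ⟨k, hk, by rw [← map_pow, p4, map_zpow]⟩
        rw [p1, p2, map_mul, RelIso.mul_apply, hm]
        exact ih
      | true =>
        obtain ⟨p1, p2, p3, k, hk, p4⟩ := r.passB i hs
        have hm : ρ (r.m i) s = s := by
          refine (SB_of_rat (Ω := LowerSet G) (m := ρ (r.m i)) (a := ρ (r.b i.castSucc))
            ?_ (w.get i).2 ?_).1.fix ih.2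
          · rw [← map_mul, p3, map_mul]
          · exact ⟨k, hk, by rw [← map_pow, p4, map_zpow]⟩
        rw [p1, p2, map_mul, map_inv, RelIso.mul_apply, inv_fix hm]
        exact ih
  have hmm : ∀ (i : Fin w.length) (s : LowerSet G), ρ (r.m i) s = s := by
    intro i s
    have ih := hab i.castSucc s
    cases hs : (w.get i).1 with
    | false =>
      obtain ⟨p1, p2, p3, k, hk, p4⟩ := r.passA i hs
      refine (SB_of_rat (Ω := LowerSet G) (m := ρ (r.m i)) (a := ρ (r.a i.castSucc))
        ?_ (w.get i).2 ?_).1.fix ih.1
      · rw [← map_mul, p3, map_mul]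
      · exact ⟨k, hk, by rw [← map_pow, p4, map_zpow]⟩
    | true =>
      obtain ⟨p1, p2, p3, k, hk, p4⟩ := r.passB i hs
      refine (SB_of_rat (Ω := LowerSet G) (m := ρ (r.m i)) (a := ρ (r.b i.castSucc))
        ?_ (w.get i).2 ?_).1.fix ih.2
      · rw [← map_mul, p3, map_mul]
      · exact ⟨k, hk, by rw [← map_pow, p4, map_zpow]⟩
  have hall : ∀ (g : G) (s : LowerSet G), ρ g s = s := by
    intro g s
    have hg : g ∈ Subgroup.closure (Set.range r.a ∪ Set.range r.b ∪ Set.range r.m) := by
      rw [hG]; trivial
    induction hg using Subgroup.closure_induction with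
    | mem y hy =>
      rcases hy with (⟨i, rfl⟩ | ⟨i, rfl⟩) | ⟨i, rfl⟩
      · exact (hab i s).1
      · exact (hab i s).2
      · exact hmm i s
    | one => simp
    | mul a b _ _ ha hb => rw [map_mul, RelIso.mul_apply, hb, ha]
    | inv a _ ha => rw [map_inv]; exact inv_fix ha
  obtain ⟨x, y, hxy⟩ := exists_pair_ne G
  have key : ∀ x y : G, y ≤ x := by
    intro x y
    have h1 := hall (y * x⁻¹) (LowerSet.Iic x)
    have h2 : y ∈ LowerSet.Iic x := by
      rw [← h1, hρ, mem_cutHom]
      simp
    exact h2
  exact hxy (le_antisymm (key y x) (key x y))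

end Pool.Agent.Results.MP_9ae2f3_gt.RationalBraidClosures
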