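import Pool.Agent.Helper71.C3.Final

/-!
# Generalized Tate = generalized Hodge + Mumford-Tate + an ordinary place

Let `V = ⊕ V_b` be the cohomology (coefficients extended to `ℚ̄_ℓ ≅ ℂ`, `V_b = H^b(A)`) of an abelian
variety `A` (or of a smooth projective variety whose motive is of abelian type) over a number
field `K` (large enough); `V^(⊗ m)` is the cohomology of `A^m`. The set `𝓕` consists of the pairs (number `q` of
elements of the residue field, Frobenius on `V`) for the places of good reduction (each side of the equivalence
implies the Hodge conjecture for all powers, so that the classes of the Frobenii in `Γ` are rational and their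
Newton cocharacters are as in `IsHodgeSystem`). `Γ` is the Mumford-Tate group. The
letters `l = (b, j)` are a basis of weight vectors of a maximal torus `T` of `Γ`, `S` is the set of the
cocharacters of `T` conjugate to the Hodge cocharacter (under the group and under the automorphisms of the
coefficients), given by their values `s l` on the letters.
-/

set_option autoImplicit false

namespace Pool.Agent.Results.MP_8abef2_ag.TateHodgeOrdinary

open Pool.Agent.Helper48.SP Pool.Agent.Helper35.GT Pool.Agent.Helper71.C3

variable {B : Type} [Fintype B] [DecidableEq B]

/-- **Generalized Tate = generalized Hodge + Mumford-Tate + an ordinary place.** Let `N` be a family of subspaces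
of the tensor powers contained in the Hodge coniveau (as the geometric coniveau is). Then `N` is the
Galois coniveau for all powers, degrees and levels if and only if `N` is the Hodge coniveau for all
powers, degrees and levels, the Mumford-Tate group `Γ` is contained in the Zariski closure of the monoid
generated by the Frobenii, and some Frobenius is ordinary. -/
theorem result {k : B → Blk} (hk : ∀ b, IsSym (k b)) {f₀ : ℕ} {𝓕 : Set (Frob k)}
    {Γ : Set (Matrix (Ind k) (Ind k) ℂ)} {S : Finset (Ind k → ℕ)} (hS : IsHodgeSystem f₀ 𝓕 Γ S)
    (hR : IsReductive 𝓕 Γ S) (N : ∀ m : ℕ, ℕ → ℕ → Submodule ℂ ((Fin m → Ind k) → ℂ))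
    (hN : ∀ m i ν, N m i ν ≤ hodgeConiveau Γ S m i ν) :
    (∀ m i ν, N m i ν = galoisConiveau 𝓕 m i ν) ↔
      (∀ m i ν, N m i ν = hodgeConiveau Γ S m i ν) ∧ (∀ g ∈ Γ, InClosure (frobs 𝓕) g) ∧
        ∃ z ∈ 𝓕, IsOrdinary z :=
  main hk hS hR N hN

end Pool.Agent.Results.MP_8abef2_ag.TateHodgeOrdinary
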